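import Mathlib

/-!
Dynamics of the parent map (move the first letter `z` to position `z`, everything indexed from 0)
and of its projection to the letters that are at least `k`.
-/

set_option autoImplicit false

namespace Pool.Agent.P.MP_79f629_co

/-- the parent map -/
def PP : List ℕ → List ℕ
  | [] => []
  | z :: l => l.take z ++ z :: l.drop z

/-- the process ends at the identity word -/
def Succ (n : ℕ) (l : List ℕ) : Prop := ∃ N, PP^[N] l = List.range n

theorem PP_perm (l : List ℕ) : (PP l).Perm l := by
  cases l with
  | nil => exact List.Perm.refl _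
  | cons z l =>
    show (l.take z ++ z :: l.drop z).Perm (z :: l)
    have := List.perm_middle (a := z) (l₁ := l.take z) (l₂ := l.drop z)
    rwa [List.take_append_drop] at this

theorem PP_zero (l : List ℕ) : PP (0 :: l) = 0 :: l := by simp [PP]

theorem PP_range (n : ℕ) : PP (List.range n) = List.range n := by
  cases n with
  | zero => rfl
  | succ n => rw [List.range_succ_eq_map, PP_zero]

theorem succ_PP_iff (n : ℕ) (l : List ℕ) : Succ n (PP l) ↔ Succ n l := by
  constructor
  · rintro ⟨N, h⟩
    exact ⟨N + 1, h⟩
  · rintro ⟨N, h⟩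
    refine ⟨N, ?_⟩
    rw [← Function.iterate_succ_apply, Function.iterate_succ_apply', h, PP_range]

theorem iterate_fixed_zero (l : List ℕ) (N : ℕ) : PP^[N] (0 :: l) = 0 :: l :=
  Function.iterate_fixed (PP_zero l) N

theorem sublist_PP {z : ℕ} {l : List ℕ} : l.Sublist (PP (z :: l)) := by
  show l.Sublist (l.take z ++ z :: l.drop z)
  conv_lhs => rw [← List.take_append_drop z l]
  exact List.Sublist.append (List.Sublist.refl _) (List.sublist_cons_self _ _)

/-- letters after `0` keep their order -/
theorem sublist_range_of_succ {n : ℕ} {s : List ℕ} :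
    ∀ (N : ℕ) (l : List ℕ), PP^[N] l = List.range n → (0 :: s).Sublist l →
      (0 :: s).Sublist (List.range n) := by
  intro N
  induction N with
  | zero => intro l h hs; exact h ▸ hs
  | succ N ih =>
    intro l h hs
    apply ih (PP l) h
    cases l with
    | nil => simp at hs
    | cons z l =>
      by_cases hz : z = 0
      · subst hz; rwa [PP_zero]
      · rcases List.sublist_cons_iff.1 hs with h1 | ⟨r, h1, -⟩
        · exact h1.trans sublist_PP
        · simp at h1; exact absurd h1.1.symm hz

theorem sorted_of_succ {n : ℕ} {l s : List ℕ} (h : Succ n l) (hs : (0 :: s).Sublist l) :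
    s.Pairwise (· < ·) := by
  obtain ⟨N, h⟩ := h
  have := (List.pairwise_lt_range (n := n)).sublist (sublist_range_of_succ N l h hs)
  exact (List.pairwise_cons.1 this).2

/-- letters below `k` other than `0` are forgotten -/
def cc (k x : ℕ) : ℕ := if k ≤ x then x else if x = 0 then 0 else 1

/-- the projection -/
def al (k : ℕ) (l : List ℕ) : List ℕ × List ℕ :=
  ((l.take (k + 1)).filter (k ≤ ·), (l.drop (k + 1)).map (cc k))

/-- the projected dynamics -/
def AA (k : ℕ) : List ℕ × List ℕ → List ℕ × List ℕ
  | ([], W) => ([], W)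
  | (z :: O, W) => if z = k then (O ++ [k], W) else
      (O ++ (W.take 1).filter (k ≤ ·),
        (W.drop 1).take (z - (k + 1)) ++ z :: (W.drop 1).drop (z - (k + 1)))

theorem al_append {k : ℕ} {a b : List ℕ} (ha : a.length = k + 1) :
    al k (a ++ b) = (a.filter (k ≤ ·), b.map (cc k)) := by
  unfold al
  rw [List.take_left' ha, List.drop_left' ha]

theorem PP_le {k z : ℕ} {a b : List ℕ} (ha : a.length = k) (hz : z ≤ k) :
    PP (z :: (a ++ b)) = (a.take z ++ z :: a.drop z) ++ b := by
  show (a ++ b).take z ++ z :: (a ++ b).drop z = _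
  rw [List.take_append_of_le_length (by omega), List.drop_append_of_le_length (by omega)]
  simp

theorem al_PP_lt {k z : ℕ} {l : List ℕ} (hl : k ≤ l.length) (hz : z < k) :
    al k (PP (z :: l)) = al k (z :: l) := by
  obtain ⟨a, b, rfl, ha⟩ : ∃ a b, l = a ++ b ∧ a.length = k :=
    ⟨l.take k, l.drop k, (List.take_append_drop k l).symm, by simp [hl]⟩
  rw [PP_le ha hz.le, al_append (by simp; omega), ← List.cons_append, al_append (by simp [ha])]
  have : ¬ k ≤ z := by omega
  simp only [List.filter_append, List.filter_cons, this, decide_false, Bool.false_eq_true,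
    if_false]
  rw [← List.filter_append, List.take_append_drop]

theorem al_PP_ge {k z : ℕ} {l : List ℕ} (hk : 2 ≤ k) (hl : z ≤ l.length) (hz : k ≤ z) :
    al k (PP (z :: l)) = AA k (al k (z :: l)) := by
  obtain ⟨a, b, rfl, ha⟩ : ∃ a b, l = a ++ b ∧ a.length = k :=
    ⟨l.take k, l.drop k, (List.take_append_drop k l).symm, by simp; omega⟩
  rw [← List.cons_append, al_append (a := z :: a) (by simp [ha]), List.cons_append]
  rcases eq_or_lt_of_le hz with rfl | hlt
  · rw [PP_le ha le_rfl, al_append (by simp; omega)]
    subst ha
    simp [AA]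
  · obtain ⟨d, rfl⟩ : ∃ d, z = k + 1 + d := ⟨z - (k + 1), by omega⟩
    cases b with
    | nil => simp at hl; omega
    | cons y b =>
      have e : PP ((k + 1 + d) :: (a ++ y :: b)) =
          (a ++ [y]) ++ (b.take d ++ (k + 1 + d) :: b.drop d) := by
        show (a ++ y :: b).take (k + 1 + d) ++ (k + 1 + d) :: (a ++ y :: b).drop (k + 1 + d) = _
        have e1 : a ++ y :: b = (a ++ [y]) ++ b := by simp
        have e2 : (a ++ [y]).length = k + 1 := by simp [ha]
        rw [e1, ← e2, List.take_length_add_append, List.drop_length_add_append]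
        simp
      rw [e, al_append (by simp [ha])]
      have h1 : k ≤ k + 1 + d := by omega
      have h2 : k + 1 + d ≠ k := by omega
      have h3 : cc k (k + 1 + d) = k + 1 + d := by simp [cc, h1]
      have h4 : List.filter (fun x => decide (k ≤ x)) [cc k y] =
          List.filter (fun x => decide (k ≤ x)) [y] := by
        unfold cc
        split_ifs with g1 g2
        · rfl
        · have : ¬ k ≤ 0 := by omega
          simp [this, g1]
        · have : ¬ k ≤ 1 := by omega
          simp [this, g1]
      simp only [List.filter_cons, h1, decide_true, if_true, AA, h2, if_false, List.map_cons,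
        List.take_succ_cons, List.take_zero, List.drop_succ_cons, List.drop_zero,
        List.filter_append, List.map_append, h3, Nat.add_sub_cancel_left, List.map_take,
        List.map_drop]
      simp only [List.filter_cons] at h4
      rw [h4]

theorem al_range {k n : ℕ} (hk : k < n) :
    (al k (List.range n)).1 = [k] ∧ ∀ x ∈ (al k (List.range n)).2, k < x := by
  constructor
  · show ((List.range n).take (k + 1)).filter (k ≤ ·) = [k]
    rw [List.take_range, min_eq_left (by omega), List.range_succ, List.filter_append]
    have : (List.range k).filter (k ≤ ·) = [] := by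
      rw [List.filter_eq_nil_iff]
      intro a ha
      simp at ha ⊢
      exact ha
    simp [this]
  · intro x hx
    simp only [al, List.mem_map] at hx
    obtain ⟨y, hy, rfl⟩ := hx
    obtain ⟨i, hi, rfl⟩ := List.getElem_of_mem hy
    simp [cc]
    split_ifs <;> omega

theorem le_length_of_perm {n z : ℕ} {l : List ℕ} (h : (z :: l).Perm (List.range n)) :
    z ≤ l.length ∧ l.length + 1 = n := by
  have h1 := h.length_eq
  have h2 : z ∈ List.range n := h.subset List.mem_cons_self
  simp at h1 h2
  omega

/-- a successful word projects to an orbit that reaches the projection of the identity -/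
theorem orbit_of_succ {k n : ℕ} (hk : 2 ≤ k) (hkn : k < n) :
    ∀ (N : ℕ) (l : List ℕ), l.Perm (List.range n) → PP^[N] l = List.range n →
      ∃ M, (AA k)^[M] (al k l) = al k (List.range n) := by
  intro N
  induction N with
  | zero => intro l _ h; exact ⟨0, by rw [← h]; rfl⟩
  | succ N ih =>
    intro l hl h
    obtain ⟨M, hM⟩ := ih (PP l) ((PP_perm l).trans hl) h
    cases l with
    | nil => exact ⟨M, hM⟩
    | cons z l =>
      obtain ⟨h1, h2⟩ := le_length_of_perm hl
      by_cases hz : z < k
      · rw [al_PP_lt (by omega) hz] at hM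
        exact ⟨M, hM⟩
      · rw [al_PP_ge hk h1 (by omega)] at hM
        exact ⟨M + 1, hM⟩

/-- a word whose projected orbit meets a failing state is not successful -/
theorem fail_of_orbit {k n : ℕ} (hk : 2 ≤ k) (hkn : k < n) {O W : List ℕ} (h0 : 0 ∉ W)
    (h1 : 1 ∈ W) :
    ∀ (N : ℕ) (l : List ℕ) (M : ℕ), l.Perm (List.range n) → PP^[N] l = List.range n →
      (AA k)^[M] (al k l) = (k :: O, W) → False := by
  have hid : ∀ M, (AA k)^[M] (al k (List.range n)) = (k :: O, W) → False := by
    intro M hM
    obtain ⟨e1, e2⟩ := al_range (k := k) hkn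
    have hfix : AA k (al k (List.range n)) = al k (List.range n) := by
      generalize al k (List.range n) = s at e1
      obtain ⟨O', W'⟩ := s
      simp only at e1
      subst e1
      simp [AA]
    rw [Function.iterate_fixed hfix] at hM
    have := e2 1 (by rw [hM]; exact h1)
    omega
  intro N
  induction N with
  | zero =>
    intro l M _ h hM
    exact hid M (by rw [← h]; exact hM)
  | succ N ih =>
    intro l M hl h hM
    have hl' := (PP_perm l).trans hl
    cases l with
    | nil => exact ih _ M hl' h hM
    | cons z l =>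
      obtain ⟨g1, g2⟩ := le_length_of_perm hl
      by_cases hz : z < k
      · exact ih _ M hl' h (by rw [al_PP_lt (by omega) hz]; exact hM)
      · cases M with
        | succ M => exact ih _ M hl' h (by rw [al_PP_ge hk g1 (by omega)]; exact hM)
        | zero =>
          obtain ⟨a, b, rfl, ha⟩ : ∃ a b, l = a ++ b ∧ a.length = k :=
            ⟨l.take k, l.drop k, (List.take_append_drop k l).symm, by simp; omega⟩
          rw [← List.cons_append, al_append (a := z :: a) (by simp [ha])] at hM
          have hkz : k ≤ z := by omega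
          simp only [List.filter_cons, hkz, decide_true, if_true, Function.iterate_zero, id,
            Prod.mk.injEq, List.cons.injEq] at hM
          obtain ⟨⟨rfl, -⟩, rfl⟩ := hM
          have hP : PP (z :: (a ++ b)) = a ++ z :: b := by
            rw [PP_le ha le_rfl]; subst ha; simp
          obtain ⟨y, hy, hcy⟩ := List.mem_map.1 h1
          have hyz : y < z := by
            unfold cc at hcy
            split_ifs at hcy <;> omega
          have h0a : 0 ∈ a := by
            have : 0 ∈ z :: (a ++ b) := hl.symm.subset (by simp; omega)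
            simp only [List.mem_cons, List.mem_append] at this
            rcases this with h | h | h
            · omega
            · exact h
            · exact absurd (List.mem_map.2 ⟨0, h, by unfold cc; split_ifs <;> omega⟩) h0
          have hsub : [0, z, y].Sublist (PP (z :: (a ++ b))) := by
            rw [hP]
            exact List.Sublist.append (l₁ := [0]) (r₁ := [z, y])
              (List.singleton_sublist.2 h0a)
              (List.Sublist.cons_cons _ (List.singleton_sublist.2 hy))
          have := sorted_of_succ (n := n) ⟨N, h⟩ hsub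
          simp at this
          omega

/-! ### the projected system -/

theorem AA_cons {k z : ℕ} (hz : z ≠ k) (O W : List ℕ) : AA k (z :: O, W) =
    (O ++ (W.take 1).filter (k ≤ ·),
      (W.drop 1).take (z - (k + 1)) ++ z :: (W.drop 1).drop (z - (k + 1))) := by
  simp [AA, hz]

theorem mem_ins {x z j : ℕ} {W : List ℕ} : x ∈ W.take j ++ z :: W.drop j ↔ x = z ∨ x ∈ W := by
  have := (List.perm_middle (a := z) (l₁ := W.take j) (l₂ := W.drop j)).mem_iff (a := x)
  rw [this, List.take_append_drop, List.mem_cons]

theorem AA_snd_free {k : ℕ} (s : List ℕ × List ℕ) (h : k ∉ s.2) : k ∉ (AA k s).2 := by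
  obtain ⟨O, W⟩ := s
  cases O with
  | nil => exact h
  | cons z O =>
    by_cases hz : z = k
    · subst hz; simpa [AA] using h
    · rw [AA_cons hz]
      simp only [mem_ins]
      rintro (h1 | h1)
      · exact hz h1.symm
      · exact h (List.mem_of_mem_drop h1)

/-- `k` occurs nowhere -/
def Free (k : ℕ) (s : List ℕ × List ℕ) : Prop := k ∉ s.1 ∧ k ∉ s.2

theorem Free.step {k : ℕ} {s : List ℕ × List ℕ} (h : Free k s) : Free k (AA k s) := by
  refine ⟨?_, AA_snd_free s h.2⟩
  obtain ⟨O, W⟩ := s
  cases O with
  | nil => exact h.1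
  | cons z O =>
    have h1 : k ∉ z :: O := h.1
    have hz : z ≠ k := fun e => h1 (by simp [e])
    rw [AA_cons hz]
    simp only [List.mem_append, List.mem_filter]
    rintro (h2 | h2)
    · exact h1 (List.mem_cons_of_mem _ h2)
    · exact h.2 (List.mem_of_mem_take h2.1)

theorem Free.iter {k : ℕ} {s : List ℕ × List ℕ} (h : Free k s) (t : ℕ) :
    Free k ((AA k)^[t] s) := by
  induction t with
  | zero => exact h
  | succ t ih => rw [Function.iterate_succ_apply']; exact ih.step

theorem length_AA_le (k : ℕ) (s : List ℕ × List ℕ) : (AA k s).1.length ≤ s.1.length := by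
  obtain ⟨O, W⟩ := s
  cases O with
  | nil => simp [AA]
  | cons z O =>
    by_cases hz : z = k
    · subst hz; simp [AA]
    · rw [AA_cons hz]
      have h1 := List.length_filter_le (fun x => decide (k ≤ x)) (W.take 1)
      have h2 : (W.take 1).length ≤ 1 := List.length_take_le _ _
      simp only [List.length_append, List.length_cons]
      omega

theorem ins_orbit {k : ℕ} : ∀ (O1 O2 W : List ℕ), k ∉ O1 →
    (AA k)^[O1.length] (O1 ++ k :: O2, W) =
      (k :: ((AA k)^[O1.length] (O1 ++ O2, W)).1, ((AA k)^[O1.length] (O1 ++ O2, W)).2) := by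
  intro O1
  induction O1 with
  | nil => intro O2 W _; rfl
  | cons z O1 ih =>
    intro O2 W h
    have hz : z ≠ k := fun e => h (by simp [e])
    have h' : k ∉ O1 := fun e => h (List.mem_cons_of_mem _ e)
    simp only [List.length_cons, Function.iterate_succ_apply, List.cons_append, AA_cons hz,
      List.append_assoc]
    exact ih _ _ h'

/-- every time up to `T` is an arrival time of `k` for some initial slot -/
theorem exists_slot {k : ℕ} {O W : List ℕ} (hf : Free k (O, W)) (T : ℕ)
    (hT : ∀ t, t < T → ((AA k)^[t] (O, W)).1 ≠ []) :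
    ∀ t, t ≤ T → ∃ i, i ≤ O.length ∧ ∃ M, (AA k)^[M] (O.take i ++ k :: O.drop i, W) =
      (k :: ((AA k)^[t] (O, W)).1, ((AA k)^[t] (O, W)).2) := by
  intro t
  induction t using Nat.strong_induction_on with
  | _ t ih =>
    intro ht
    by_cases h : t ≤ O.length
    · refine ⟨t, h, t, ?_⟩
      have h1 := ins_orbit (k := k) (O.take t) (O.drop t) W
        (fun e => hf.1 (List.mem_of_mem_take e))
      rw [List.take_append_drop, List.length_take, min_eq_left h] at h1
      exact h1
    · -- discrete intermediate value argument
      have hex : ∃ u, u < t ∧ u + ((AA k)^[u] (O, W)).1.length = t := by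
        have key : ∀ u, u < t → u + ((AA k)^[u] (O, W)).1.length < t ∨
            ∃ v, v ≤ u ∧ v + ((AA k)^[v] (O, W)).1.length = t := by
          intro u
          induction u with
          | zero => intro _; left; simp; omega
          | succ u ihu =>
            intro hu
            rcases ihu (by omega) with h2 | ⟨v, hv, h2⟩
            · have h3 := length_AA_le k ((AA k)^[u] (O, W))
              rw [← Function.iterate_succ_apply' (AA k)] at h3
              by_cases h4 : u + 1 + ((AA k)^[u + 1] (O, W)).1.length = t
              · exact Or.inr ⟨u + 1, le_rfl, h4⟩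
              · left
                simp only [Nat.succ_eq_add_one] at h3
                omega
            · exact Or.inr ⟨v, by omega, h2⟩
        rcases key (t - 1) (by omega) with h2 | ⟨v, hv, h2⟩
        · have := List.length_pos_iff.2 (hT (t - 1) (by omega))
          omega
        · exact ⟨v, by omega, h2⟩
      obtain ⟨u, hu, hut⟩ := hex
      obtain ⟨i, hi, M, hM⟩ := ih u hu (by omega)
      refine ⟨i, hi, ((AA k)^[u] (O, W)).1.length + (M + 1), ?_⟩
      have hfu := hf.iter u
      rw [Function.iterate_add_apply, Function.iterate_succ_apply', hM]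
      have e : (AA k)^[t] (O, W) =
          (AA k)^[((AA k)^[u] (O, W)).1.length] ((AA k)^[u] (O, W)) := by
        rw [← Function.iterate_add_apply, add_comm, hut]
      rw [e]
      generalize (AA k)^[u] (O, W) = s at hfu
      obtain ⟨O', W'⟩ := s
      have h1 := ins_orbit (k := k) O' [] W' hfu.1
      simp only [List.append_nil] at h1
      simpa [AA] using h1

theorem proj_orbit {k : ℕ} : ∀ (M : ℕ) (s : List ℕ × List ℕ), k ∉ s.2 →
    ∃ t, ((AA k)^[t] (s.1.filter (· ≠ k), s.2)).2 = ((AA k)^[M] s).2 := by
  intro M
  induction M with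
  | zero => intro s _; exact ⟨0, rfl⟩
  | succ M ih =>
    intro s hs
    obtain ⟨t, ht⟩ := ih (AA k s) (AA_snd_free s hs)
    obtain ⟨O, W⟩ := s
    cases O with
    | nil => exact ⟨t, ht⟩
    | cons z O =>
      by_cases hz : z = k
      · subst hz
        refine ⟨t, ?_⟩
        rw [Function.iterate_succ_apply, ← ht]
        simp [AA]
      · refine ⟨t + 1, ?_⟩
        rw [Function.iterate_succ_apply, Function.iterate_succ_apply, ← ht]
        have e : List.filter (fun x => decide (x ≠ k)) (List.filter (fun x => decide (k ≤ x))
            (W.take 1)) = List.filter (fun x => decide (k ≤ x)) (W.take 1) := by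
          rw [List.filter_eq_self]
          intro a ha
          have := List.mem_of_mem_take (List.mem_filter.1 ha).1
          simp only [ne_eq, decide_eq_true_eq]
          rintro rfl
          exact hs this
        simp only [List.filter_cons, ne_eq, hz, not_false_eq_true, decide_true, if_true,
          AA_cons hz, List.filter_append]
        simp only [ne_eq] at e
        rw [e]

/-- the window holds `0` exactly once, with a forgotten letter after it -/
def Pre (W : List ℕ) : Prop := ∃ Wa Wb, W = Wa ++ 0 :: Wb ∧ 0 ∉ Wa ∧ 0 ∉ Wb ∧ 1 ∈ Wb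

theorem Pre.ins {W : List ℕ} (h : Pre W) (j z : ℕ) (hz : z ≠ 0) :
    Pre (W.take j ++ z :: W.drop j) := by
  obtain ⟨Wa, Wb, rfl, h1, h2, h3⟩ := h
  by_cases hj : j ≤ Wa.length
  · refine ⟨Wa.take j ++ z :: Wa.drop j, Wb, ?_, ?_, h2, h3⟩
    · rw [List.take_append_of_le_length hj, List.drop_append_of_le_length hj]; simp
    · rw [mem_ins]; rintro (h | h)
      · exact hz h.symm
      · exact h1 h
  · obtain ⟨d, rfl⟩ : ∃ d, j = Wa.length + (d + 1) := ⟨j - Wa.length - 1, by omega⟩
    refine ⟨Wa, Wb.take d ++ z :: Wb.drop d, ?_, h1, ?_, ?_⟩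
    · rw [List.take_length_add_append, List.drop_length_add_append]; simp
    · rw [mem_ins]; rintro (h | h)
      · exact hz h.symm
      · exact h2 h
    · rw [mem_ins]; exact Or.inr h3

theorem AA_fst_gt {k : ℕ} {s : List ℕ × List ℕ} (h : ∀ x ∈ s.1, k ≤ x) :
    ∀ x ∈ (AA k s).1, k ≤ x := by
  obtain ⟨O, W⟩ := s
  cases O with
  | nil => exact h
  | cons z O =>
    by_cases hz : z = k
    · subst hz
      intro x hx
      simp only [AA, if_true, List.mem_append, List.mem_singleton] at hx
      rcases hx with hx | hx
      · exact h x (List.mem_cons_of_mem _ hx)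
      · omega
    · rw [AA_cons hz]
      intro x hx
      simp only [List.mem_append, List.mem_filter, decide_eq_true_eq] at hx
      rcases hx with hx | hx
      · exact h x (List.mem_cons_of_mem _ hx)
      · exact hx.2

theorem pre_step {k : ℕ} (hk : 2 ≤ k) {s : List ℕ × List ℕ} (h : ∀ x ∈ s.1, k ≤ x)
    (hp : Pre s.2) : Pre (AA k s).2 ∨ (s.1 ≠ [] ∧ 0 ∉ (AA k s).2 ∧ 1 ∈ (AA k s).2) := by
  obtain ⟨O, W⟩ := s
  cases O with
  | nil => exact Or.inl hp
  | cons z O =>
    by_cases hz : z = k
    · subst hz
      left
      simpa [AA] using hp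
    · rw [AA_cons hz]
      have hz0 : z ≠ 0 := by
        have := h z List.mem_cons_self
        omega
      obtain ⟨Wa, Wb, hW, h1, h2, h3⟩ := hp
      simp only at hW
      subst hW
      cases Wa with
      | nil =>
        right
        refine ⟨by simp, ?_, ?_⟩
        · simp only [mem_ins]
          rintro (g | g)
          · exact hz0 g.symm
          · exact h2 (by simpa using g)
        · simp only [mem_ins]
          right; simpa using h3
      | cons y Wa =>
        left
        apply Pre.ins _ _ _ hz0
        exact ⟨Wa, Wb, by simp, fun g => h1 (List.mem_cons_of_mem _ g), h2, h3⟩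

theorem exists_time {k : ℕ} (hk : 2 ≤ k) : ∀ (t : ℕ) (s : List ℕ × List ℕ),
    (∀ x ∈ s.1, k ≤ x) → (Pre s.2 ∨ (0 ∉ s.2 ∧ 1 ∈ s.2)) → 0 ∉ ((AA k)^[t] s).2 →
    ∃ T, (∀ u, u < T → ((AA k)^[u] s).1 ≠ []) ∧ 0 ∉ ((AA k)^[T] s).2 ∧ 1 ∈ ((AA k)^[T] s).2 := by
  intro t
  induction t with
  | zero =>
    intro s _ hp h0
    rcases hp with ⟨Wa, Wb, hW, -⟩ | hp
    · exact absurd (by simp [hW]) h0
    · exact ⟨0, fun u hu => by omega, hp⟩
  | succ t ih =>
    intro s hs hp h0
    rcases hp with hp | hp
    · by_cases hne : s.1 = []
      · have hfix : AA k s = s := by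
          obtain ⟨O, W⟩ := s
          simp only at hne
          subst hne
          rfl
        rw [Function.iterate_fixed hfix] at h0
        obtain ⟨Wa, Wb, hW, -⟩ := hp
        exact absurd (by simp [hW]) h0
      · obtain ⟨T, h1, h2⟩ := ih (AA k s) (AA_fst_gt hs) (by
          rcases pre_step hk hs hp with g | g
          · exact Or.inl g
          · exact Or.inr g.2) h0
        refine ⟨T + 1, fun u hu => ?_, h2⟩
        cases u with
        | zero => exact hne
        | succ u => exact h1 u (by omega)
    · exact ⟨0, fun u hu => by omega, hp⟩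

/-- for every order of the letters above `k` some slot for `k` fails -/
theorem failing_slot {k n : ℕ} (hk : 2 ≤ k) (hkn : k < n) (O W : List ℕ)
    (hO : ∀ x ∈ O, k < x) (hW : k ∉ W) (hp : Pre W ∨ (0 ∉ W ∧ 1 ∈ W)) :
    ∃ i, i ≤ O.length ∧ ∀ l : List ℕ, l.Perm (List.range n) →
      al k l = (O.take i ++ k :: O.drop i, W) → ¬ Succ n l := by
  have hf : Free k (O, W) := ⟨fun h => lt_irrefl _ (hO k h), hW⟩
  by_cases h : ∃ t, 0 ∉ ((AA k)^[t] (O, W)).2
  · obtain ⟨t, ht⟩ := h
    obtain ⟨T, h1, h2, h3⟩ := exists_time hk t (O, W) (fun x hx => (hO x hx).le) hp ht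
    obtain ⟨i, hi, M, hM⟩ := exists_slot hf T h1 T le_rfl
    refine ⟨i, hi, ?_⟩
    rintro l hl hal ⟨N, hN⟩
    exact fail_of_orbit hk hkn h2 h3 N l M hl hN (by rw [hal]; exact hM)
  · refine ⟨0, Nat.zero_le _, ?_⟩
    rintro l hl hal ⟨N, hN⟩
    obtain ⟨M, hM⟩ := orbit_of_succ hk hkn N l hl hN
    obtain ⟨t, ht⟩ := proj_orbit (k := k) M (al k l) (by rw [hal]; exact hW)
    apply h
    refine ⟨t, ?_⟩
    have e : (O, W) = ((al k l).1.filter (· ≠ k), (al k l).2) := by
      rw [hal]
      simp only [List.take_zero, List.nil_append, List.drop_zero, List.filter_cons, ne_eq,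
        not_true_eq_false, decide_false, Bool.false_eq_true, if_false, Prod.mk.injEq, and_true]
      symm
      rw [List.filter_eq_self]
      intro a ha
      have := hO a ha
      simp; omega
    rw [e, ht, hM]
    intro h0
    have := (al_range (k := k) hkn).2 0 h0
    omega

end Pool.Agent.P.MP_79f629_co
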