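import Mathlib
import Pool.Agent.P.MP_79f629_co.Dyn

set_option autoImplicit false

namespace Pool.Agent.P.MP_79f629_co

open Finset

/-- number of words without repeated letters over `N` letters -/
def uu : ℕ → ℕ
  | 0 => 1
  | N + 1 => 1 + (N + 1) * uu N

theorem uu_le (N : ℕ) : uu N + 1 ≤ 3 * N.factorial := by
  induction N with
  | zero => simp [uu]
  | succ N ih =>
    cases N with
    | zero => simp [uu]
    | succ N =>
      rw [Nat.factorial_succ (N + 1)]
      have : uu (N + 1 + 1) = 1 + (N + 1 + 1) * uu (N + 1) := rfl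
      rw [this]
      nlinarith

theorem card_words : ∀ (N : ℕ) (A : Finset ℕ) (S : Finset (List ℕ)), A.card = N →
    (∀ l ∈ S, l.Nodup ∧ ∀ x ∈ l, x ∈ A) → S.card ≤ uu N := by
  intro N
  induction N with
  | zero =>
    intro A S hA hS
    rw [Finset.card_eq_zero] at hA
    subst hA
    apply Finset.card_le_one.2
    intro a ha b hb
    have h1 : a = [] := List.eq_nil_iff_forall_not_mem.2 (fun x hx => by simpa using (hS a ha).2 x hx)
    have h2 : b = [] := List.eq_nil_iff_forall_not_mem.2 (fun x hx => by simpa using (hS b hb).2 x hx)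
    rw [h1, h2]
  | succ N ih =>
    intro A S hA hS
    have hsub : S ⊆ {[]} ∪ A.biUnion (fun x => S.filter (fun l => l.head? = some x)) := by
      intro l hl
      cases l with
      | nil => simp
      | cons x l =>
        simp only [mem_union, mem_biUnion, mem_filter]
        exact Or.inr ⟨x, (hS _ hl).2 x List.mem_cons_self, hl, rfl⟩
    have h1 : ∀ x ∈ A, (S.filter (fun l => l.head? = some x)).card ≤ uu N := by
      intro x hx
      rw [← Finset.card_image_of_injOn (f := List.tail)]
      · apply ih (A.erase x) _ (by rw [Finset.card_erase_of_mem hx]; omega)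
        intro l hl
        obtain ⟨l', hl', rfl⟩ := Finset.mem_image.1 hl
        obtain ⟨g1, g2⟩ := Finset.mem_filter.1 hl'
        cases l' with
        | nil => simp at g2
        | cons y l' =>
          simp only [List.head?_cons, Option.some.injEq] at g2
          subst g2
          obtain ⟨g3, g4⟩ := hS _ g1
          rw [List.nodup_cons] at g3
          refine ⟨g3.2, fun z hz => Finset.mem_erase.2 ⟨?_, g4 z (List.mem_cons_of_mem _ hz)⟩⟩
          rintro rfl
          exact g3.1 hz
      · intro a ha b hb hab
        have g1 := (Finset.mem_filter.1 ha).2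
        have g2 := (Finset.mem_filter.1 hb).2
        cases a with
        | nil => simp at g1
        | cons y a =>
          cases b with
          | nil => simp at g2
          | cons z b =>
            simp at g1 g2 hab
            rw [g1, g2, hab]
    calc S.card ≤ _ := Finset.card_le_card hsub
      _ ≤ _ := Finset.card_union_le _ _
      _ ≤ 1 + A.card * uu N := by
        rw [Finset.card_singleton]
        exact Nat.add_le_add_left (Finset.card_biUnion_le_card_mul _ _ _ h1) _
      _ = uu (N + 1) := by rw [hA]; rfl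

/-- the letters after `0` increase -/
def Srt (l : List ℕ) : Prop := ∀ x y, [0, x, y].Sublist l → x < y

theorem Srt.sub {l l' : List ℕ} (h : Srt l) (hs : l'.Sublist l) : Srt l' :=
  fun x y hxy => h x y (hxy.trans hs)

theorem srt_of_succ {n : ℕ} {l : List ℕ} (h : Succ n l) : Srt l := by
  intro x y hxy
  simpa using sorted_of_succ h hxy

theorem card_srt (N : ℕ) (A : Finset ℕ) (S : Finset (List ℕ)) (hA : A.card = N + 1) (h0 : 0 ∈ A)
    (hS : ∀ l ∈ S, l.Nodup ∧ (∀ x, x ∈ l ↔ x ∈ A) ∧ Srt l) : S.card ≤ uu N := by
  have hex : ∀ l ∈ S, ∃ w s : List ℕ, l = w ++ 0 :: s := fun l hl =>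
    List.append_of_mem (((hS l hl).2.1 0).2 h0)
  choose! w s hws using hex
  have hpw : ∀ l ∈ S, (s l).Pairwise (· < ·) := by
    intro l hl
    rw [List.pairwise_iff_forall_sublist]
    intro a b hab
    apply (hS l hl).2.2
    rw [hws l hl]
    exact (List.Sublist.cons_cons 0 hab).trans (List.sublist_append_right _ _)
  rw [← Finset.card_image_of_injOn (f := w)]
  · apply card_words N (A.erase 0) _ (by rw [Finset.card_erase_of_mem h0]; omega)
    intro l hl
    obtain ⟨l', hl', rfl⟩ := Finset.mem_image.1 hl
    obtain ⟨g1, g2, -⟩ := hS l' hl'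
    have g3 := hws l' hl'
    rw [g3] at g1
    refine ⟨g1.sublist (List.sublist_append_left _ _), fun x hx => Finset.mem_erase.2 ⟨?_, ?_⟩⟩
    · rintro rfl
      exact (List.nodup_append.1 g1).2.2 0 hx 0 List.mem_cons_self rfl
    · rw [← g2, g3]; simp [hx]
  · intro a ha b hb hab
    have ga := hws a ha
    have gb := hws b hb
    have p : a.Perm b := (List.perm_ext_iff_of_nodup (hS a ha).1 (hS b hb).1).2
      (fun x => by rw [(hS a ha).2.1, (hS b hb).2.1])
    rw [ga, gb, hab] at p
    have p2 := ((List.perm_append_left_iff _).1 p).cons_inv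
    have := List.Perm.eq_of_pairwise (le := (· < ·)) (fun _ _ _ _ h1 h2 => absurd h1 (by omega))
      (hpw a ha) (hpw b hb) p2
    rw [ga, gb, hab, this]

/-- all rearrangements of `0, ..., n-1` -/
def Pm (n : ℕ) : Finset (List ℕ) := (List.range n).permutations.toFinset

theorem mem_Pm {n : ℕ} {l : List ℕ} : l ∈ Pm n ↔ l.Perm (List.range n) := by
  simp [Pm, List.mem_permutations]

theorem card_Pm (n : ℕ) : (Pm n).card = n.factorial := by
  unfold Pm
  rw [List.toFinset_card_of_nodup (List.nodup_permutations _ List.nodup_range),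
    List.length_permutations, List.length_range]

open Classical in
noncomputable def TT (n : ℕ) : Finset (List ℕ) := (Pm n).filter (Succ n)

open Classical in
noncomputable def UU (n : ℕ) : Finset (List ℕ) := (Pm n).filter Srt

theorem mem_TT {n : ℕ} {l : List ℕ} : l ∈ TT n ↔ l.Perm (List.range n) ∧ Succ n l := by
  simp [TT, mem_Pm]

theorem mem_UU {n : ℕ} {l : List ℕ} : l ∈ UU n ↔ l.Perm (List.range n) ∧ Srt l := by
  simp [UU, mem_Pm]

theorem card_UU (n : ℕ) : (UU (n + 1)).card ≤ uu n := by
  apply card_srt n (Finset.range (n + 1)) _ (by simp) (by simp)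
  intro l hl
  obtain ⟨h1, h2⟩ := mem_UU.1 hl
  exact ⟨h1.nodup_iff.2 List.nodup_range, fun x => by rw [h1.mem_iff]; simp, h2⟩

theorem card_B (n i x : ℕ) (hx : x ≠ 0) (hxn : x < n + 2) :
    ((UU (n + 2)).filter (fun l => l[i]? = some x)).card ≤ uu n := by
  have hdec : ∀ l : List ℕ, l[i]? = some x →
      l = l.take i ++ x :: l.drop (i + 1) ∧ i < l.length := by
    intro l hl
    obtain ⟨h1, h2⟩ := List.getElem?_eq_some_iff.1 hl
    refine ⟨?_, h1⟩
    rw [← h2, List.getElem_cons_drop, List.take_append_drop]
  rw [← Finset.card_image_of_injOn (f := fun l => l.take i ++ l.drop (i + 1))]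
  · apply card_srt n ((Finset.range (n + 2)).erase x) _
      (by rw [Finset.card_erase_of_mem (by simpa using hxn)]; simp)
      (by simp; omega)
    intro l hl
    obtain ⟨l', hl', rfl⟩ := Finset.mem_image.1 hl
    obtain ⟨g1, g2⟩ := Finset.mem_filter.1 hl'
    obtain ⟨g3, g4⟩ := mem_UU.1 g1
    obtain ⟨g5, -⟩ := hdec l' g2
    have hsub : (l'.take i ++ l'.drop (i + 1)).Sublist l' := by
      conv_rhs => rw [g5]
      exact List.Sublist.append (List.Sublist.refl _) (List.sublist_cons_self _ _)
    have hnd : l'.Nodup := g3.nodup_iff.2 List.nodup_range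
    have hp : l'.Perm (x :: (l'.take i ++ l'.drop (i + 1))) := by
      conv_lhs => rw [g5]
      exact List.perm_middle
    refine ⟨hnd.sublist hsub, fun y => ?_, g4.sub hsub⟩
    have h6 := List.nodup_cons.1 (hp.nodup_iff.1 hnd)
    have h7 := (hp.symm.trans g3).mem_iff (a := y)
    rw [List.mem_cons, List.mem_range] at h7
    rw [Finset.mem_erase, Finset.mem_range, ← h7]
    constructor
    · intro h
      exact ⟨fun e => h6.1 (e ▸ h), Or.inr h⟩
    · rintro ⟨h8, h9 | h9⟩
      · exact absurd h9 h8
      · exact h9
  · intro a ha b hb hab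
    obtain ⟨a1, a2⟩ := hdec a (Finset.mem_filter.1 ha).2
    obtain ⟨b1, b2⟩ := hdec b (Finset.mem_filter.1 hb).2
    have := List.append_inj hab (by simp; omega)
    rw [a1, b1, this.1, this.2]

/-- forget which top letter stands where -/
def sk (K : ℕ) (l : List ℕ) : List ℕ := l.map (min K)

theorem sk_filter_inj (K : ℕ) : ∀ l l' : List ℕ, sk K l = sk K l' →
    l.filter (K ≤ ·) = l'.filter (K ≤ ·) → l = l' := by
  intro l
  induction l with
  | nil => intro l' h _; cases l' with
    | nil => rfl
    | cons y l' => simp [sk] at h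
  | cons x l ih =>
    intro l' h1 h2
    cases l' with
    | nil => simp [sk] at h1
    | cons y l' =>
      simp only [sk, List.map_cons, List.cons.injEq] at h1
      by_cases hx : K ≤ x
      · have hy : K ≤ y := by omega
        simp only [List.filter_cons, hx, hy, decide_true, if_true, List.cons.injEq] at h2
        rw [h2.1, ih l' h1.2 h2.2]
      · have hy : ¬ K ≤ y := by omega
        simp only [List.filter_cons, hx, hy, decide_false, Bool.false_eq_true, if_false] at h2
        have : x = y := by omega
        rw [this, ih l' h1.2 h2]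

theorem length_filter_range (j n : ℕ) : ((List.range n).filter (j ≤ ·)).length = n - j := by
  induction n with
  | zero => simp
  | succ n ih =>
    rw [List.range_succ, List.filter_append, List.length_append, ih]
    by_cases h : j ≤ n <;> simp [h] <;> omega

open Classical in
/-- successful words with `0` not last and no top letter at a top position -/
noncomputable def GG (K n : ℕ) : Finset (List ℕ) :=
  (TT n).filter (fun l => l.getLast? ≠ some 0 ∧ ∀ x ∈ l.drop K, x < K)

theorem mem_GG {K n : ℕ} {l : List ℕ} : l ∈ GG K n ↔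
    (l.Perm (List.range n) ∧ Succ n l) ∧ l.getLast? ≠ some 0 ∧ ∀ x ∈ l.drop K, x < K := by
  simp only [GG, Finset.mem_filter, mem_TT]

theorem drop_lt {K k n : ℕ} {l : List ℕ} (hl : l ∈ GG K n) (hk : K ≤ k) :
    ∀ x ∈ l.drop k, x < K := by
  intro x hx
  obtain ⟨d, rfl⟩ := Nat.exists_eq_add_of_le hk
  rw [← List.drop_drop] at hx
  exact (mem_GG.1 hl).2.2 x (List.mem_of_mem_drop hx)

theorem al_GG {K k n : ℕ} {l : List ℕ} (hl : l ∈ GG K n) (hk : K ≤ k) :
    al k l = (l.filter (k ≤ ·), ((sk K l).drop (k + 1)).map (cc k)) := by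
  have h := drop_lt hl (show K ≤ k + 1 by omega)
  unfold al
  congr 1
  · conv_rhs => rw [← List.take_append_drop (k + 1) l, List.filter_append]
    have : (l.drop (k + 1)).filter (k ≤ ·) = [] := by
      rw [List.filter_eq_nil_iff]
      intro a ha
      have := h a ha
      simp; omega
    rw [this, List.append_nil]
  · unfold sk
    rw [← List.map_drop, List.map_map]
    apply List.map_congr_left
    intro a ha
    have := h a ha
    simp only [Function.comp]
    rw [min_eq_right this.le]

theorem window_GG {K k n : ℕ} {l : List ℕ} (hl : l ∈ GG K n) (hK : 2 ≤ K) (hk : K ≤ k)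
    (hkn : k + 1 < n) :
    k ∉ (al k l).2 ∧ (Pre (al k l).2 ∨ (0 ∉ (al k l).2 ∧ 1 ∈ (al k l).2)) := by
  have h := drop_lt hl (show K ≤ k + 1 by omega)
  obtain ⟨⟨h1, -⟩, h2, -⟩ := mem_GG.1 hl
  have hlen : l.length = n := by simpa using h1.length_eq
  have hnd : (l.drop (k + 1)).Nodup :=
    (h1.nodup_iff.2 List.nodup_range).sublist (List.drop_sublist _ _)
  have hlast : (l.drop (k + 1)).getLast? ≠ some 0 := by
    rw [List.getLast?_drop, if_neg (by omega)]; exact h2
  have hne : l.drop (k + 1) ≠ [] := by
    rw [Ne, List.drop_eq_nil_iff]; omega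
  show k ∉ (l.drop (k + 1)).map (cc k) ∧ (Pre ((l.drop (k + 1)).map (cc k)) ∨
    (0 ∉ (l.drop (k + 1)).map (cc k) ∧ 1 ∈ (l.drop (k + 1)).map (cc k)))
  generalize l.drop (k + 1) = b at h hnd hlast hne
  have c0 : cc k 0 = 0 := by unfold cc; split_ifs <;> omega
  have c1 : ∀ c : List ℕ, (∀ x ∈ c, x < K) → 0 ∉ c → 0 ∉ c.map (cc k) := by
    intro c g1 g2 g3
    obtain ⟨y, hy, g4⟩ := List.mem_map.1 g3
    have := g1 y hy
    unfold cc at g4
    split_ifs at g4 with g5 g6
    · omega
    · exact g2 (g6 ▸ hy)
  have c2 : ∀ c : List ℕ, (∀ x ∈ c, x < K) → 0 ∉ c → c ≠ [] → 1 ∈ c.map (cc k) := by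
    intro c g1 g2 g3
    obtain ⟨y, hy⟩ := List.exists_mem_of_ne_nil c g3
    refine List.mem_map.2 ⟨y, hy, ?_⟩
    have := g1 y hy
    have : y ≠ 0 := fun e => g2 (e ▸ hy)
    unfold cc
    split_ifs <;> omega
  constructor
  · intro g
    obtain ⟨y, hy, g4⟩ := List.mem_map.1 g
    have := h y hy
    unfold cc at g4
    split_ifs at g4 <;> omega
  · by_cases h0 : 0 ∈ b
    · left
      obtain ⟨b1, b2, rfl⟩ := List.append_of_mem h0
      have g1 := List.nodup_append.1 hnd
      have g2 : 0 ∉ b1 := fun e => g1.2.2 0 e 0 List.mem_cons_self rfl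
      have g3 : 0 ∉ b2 := (List.nodup_cons.1 g1.2.1).1
      have g4 : b2 ≠ [] := by
        rintro rfl
        simp at hlast
      refine ⟨b1.map (cc k), b2.map (cc k), by simp [c0], c1 _ (fun x hx => h x (by simp [hx])) g2,
        c1 _ (fun x hx => h x (by simp [hx])) g3, c2 _ (fun x hx => h x (by simp [hx])) g3 g4⟩
    · right
      exact ⟨c1 b h h0, c2 b h h0 hne⟩

theorem card_orders {K n : ℕ} (hK : 2 ≤ K) (σ : List ℕ) : ∀ d k, K ≤ k → k + d + 1 = n →
    (((GG K n).filter (fun l => sk K l = σ)).image (List.filter (k ≤ ·))).card ≤ d.factorial := by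
  intro d
  induction d with
  | zero =>
    intro k hk hn
    apply Finset.card_le_one.2
    have key : ∀ a ∈ ((GG K n).filter (fun l => sk K l = σ)).image (List.filter (k ≤ ·)),
        a = [k] := by
      intro a ha
      obtain ⟨l, hl, rfl⟩ := Finset.mem_image.1 ha
      have h1 := (mem_GG.1 (Finset.mem_filter.1 hl).1).1.1.filter (k ≤ ·)
      have h2 := (al_range (k := k) (n := n) (by omega)).1
      unfold al at h2
      rw [List.take_of_length_le (by simp; omega)] at h2
      simp only at h2
      rw [h2] at h1
      exact List.perm_singleton.1 h1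
    intro a ha b hb
    rw [key a ha, key b hb]
  | succ d ih =>
    intro k hk hn
    have ih' := ih (k + 1) (by omega) (by omega)
    set S := (GG K n).filter (fun l => sk K l = σ) with hS
    have hff : ∀ l : List ℕ, (l.filter (k ≤ ·)).filter (k + 1 ≤ ·) = l.filter (k + 1 ≤ ·) := by
      intro l
      rw [List.filter_filter]
      apply List.filter_congr
      intro x _
      by_cases h : k + 1 ≤ x
      · have : k ≤ x := by omega
        simp [h, this]
      · simp [h]
    have himg : (S.image (List.filter (k ≤ ·))).image (List.filter (k + 1 ≤ ·)) =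
        S.image (List.filter (k + 1 ≤ ·)) := by
      rw [Finset.image_image]
      apply Finset.image_congr
      intro l _
      exact hff l
    have h1 := Finset.card_le_mul_card_image (f := List.filter (k + 1 ≤ ·))
      (S.image (List.filter (k ≤ ·))) (d + 1) (by
        intro ρ hρ
        rw [himg] at hρ
        obtain ⟨l0, hl0, hρ0⟩ := Finset.mem_image.1 hρ
        obtain ⟨hl0G, hl0s⟩ := Finset.mem_filter.1 hl0
        have hw := window_GG hl0G hK hk (by omega)
        rw [al_GG hl0G hk, hl0s] at hw
        have hlen : ρ.length = d + 1 := by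
          rw [← hρ0, ((mem_GG.1 hl0G).1.1.filter _).length_eq, length_filter_range]
          omega
        obtain ⟨i0, hi0, hfail⟩ := failing_slot (k := k) (n := n) (by omega) (by omega) ρ _
          (by
            intro x hx
            rw [← hρ0] at hx
            have := (List.mem_filter.1 hx).2
            simp at this
            omega) hw.1 hw.2
        calc _ ≤ (((Finset.range (d + 2)).erase i0).image
              (fun i => ρ.take i ++ k :: ρ.drop i)).card := by
              apply Finset.card_le_card
              intro ρ' hρ'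
              obtain ⟨g1, g2⟩ := Finset.mem_filter.1 hρ'
              obtain ⟨l, hl, rfl⟩ := Finset.mem_image.1 g1
              obtain ⟨hlG, hls⟩ := Finset.mem_filter.1 hl
              obtain ⟨⟨hp, hsucc⟩, -⟩ := mem_GG.1 hlG
              have hkm : k ∈ l.filter (k ≤ ·) :=
                List.mem_filter.2 ⟨hp.symm.subset (by simp; omega), by simp⟩
              have hnd : (l.filter (k ≤ ·)).Nodup :=
                (hp.nodup_iff.2 List.nodup_range).filter _
              have hge : ∀ x ∈ l.filter (k ≤ ·), k ≤ x := fun x hx => by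
                simpa using (List.mem_filter.1 hx).2
              obtain ⟨p, q, hpq⟩ := List.append_of_mem hkm
              have hal := al_GG hlG hk
              rw [hls] at hal
              rw [hpq] at hnd hge g2 hal ⊢
              have g3 := List.nodup_append.1 hnd
              have g4 : k ∉ p := fun e => g3.2.2 k e k List.mem_cons_self rfl
              have g5 : k ∉ q := (List.nodup_cons.1 g3.2.1).1
              have g6 : ρ = p ++ q := by
                rw [← g2, List.filter_append, List.filter_cons, if_neg (by simp),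
                  List.filter_eq_self.2, List.filter_eq_self.2]
                · intro x hx
                  have := hge x (by simp [hx])
                  have : x ≠ k := fun e => g5 (e ▸ hx)
                  simp; omega
                · intro x hx
                  have := hge x (by simp [hx])
                  have : x ≠ k := fun e => g4 (e ▸ hx)
                  simp; omega
              have g7 : ρ.take p.length ++ k :: ρ.drop p.length = p ++ k :: q := by
                rw [g6]; simp
              refine Finset.mem_image.2 ⟨p.length, Finset.mem_erase.2 ⟨?_, ?_⟩, g7⟩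
              · rintro rfl
                exact hfail l hp (by rw [g7]; exact hal) hsucc
              · rw [g6] at hlen
                simp at hlen ⊢
                omega
          _ ≤ ((Finset.range (d + 2)).erase i0).card := Finset.card_image_le
          _ = d + 1 := by
              rw [Finset.card_erase_of_mem (by simp; omega)]; simp)
    rw [himg] at h1
    rw [Nat.factorial_succ]
    exact h1.trans (Nat.mul_le_mul_left _ ih')

theorem card_GG_le_sk {K L n : ℕ} (hK : 2 ≤ K) (hn : K + L + 1 = n) :
    (GG K n).card ≤ L.factorial * ((GG K n).image (sk K)).card := by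
  apply Finset.card_le_mul_card_image
  intro σ _
  have h := card_orders (n := n) hK σ L K le_rfl hn
  rwa [Finset.card_image_of_injOn] at h
  intro a ha b hb hab
  exact sk_filter_inj K a b
    (by rw [(Finset.mem_filter.1 ha).2, (Finset.mem_filter.1 hb).2]) hab

theorem after_zero_lt {K n : ℕ} {l : List ℕ} (hl : l ∈ GG K n) (hKn : K < n) :
    ∀ x, [0, x].Sublist l → x < K := by
  intro x hx
  obtain ⟨⟨h1, h2⟩, -, h3⟩ := mem_GG.1 hl
  have hlen : l.length = n := by simpa using h1.length_eq
  have hs := srt_of_succ h2
  rcases List.eq_nil_or_concat l with rfl | ⟨l1, y, rfl⟩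
  · simp at hx
  · rw [List.concat_eq_append] at *
    have hy : y < K := by
      apply h3
      rw [List.drop_append_of_le_length (by simp at hlen; omega)]
      simp
    rcases List.sublist_append_iff.1 hx with ⟨a, b, e, ha, hb⟩
    rcases List.sublist_singleton.1 hb with rfl | rfl
    · rw [List.append_nil] at e
      subst e
      have := hs x y (List.Sublist.append (l₁ := [0, x]) (r₁ := [y]) ha (List.Sublist.refl _))
      omega
    · have := List.append_inj_right' (s₁ := [0]) (t₁ := [x]) e rfl
      simp at this
      omega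

theorem card_sk_le {K L n : ℕ} (hK : 2 ≤ K) (hn : K + L + 1 = n) :
    (L + 1).factorial * ((GG K n).image (sk K)).card ≤ (UU n).card := by
  classical
  refine le_trans (Finset.mul_card_image_le_card_of_maps_to (f := sk K)
    (s := (UU n).filter (fun u => sk K u ∈ (GG K n).image (sk K)))
    (fun a ha => (Finset.mem_filter.1 ha).2) _ ?_) (Finset.card_filter_le _ _)
  intro σ hσ
  obtain ⟨l, hl, rfl⟩ := Finset.mem_image.1 hσ
  obtain ⟨⟨h1, h2⟩, -, -⟩ := mem_GG.1 hl
  let top := Finset.Ico K n
  have hcard : Fintype.card (Equiv.Perm {x // x ∈ top}) = (L + 1).factorial := by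
    rw [Fintype.card_perm, Fintype.card_coe, Nat.card_Ico]
    congr 1
    omega
  rw [← hcard, ← Finset.card_univ]
  have hfix : ∀ (g : Equiv.Perm {x // x ∈ top}) (x : ℕ), x ∉ top →
      Equiv.Perm.ofSubtype g x = x := fun g x hx => Equiv.Perm.ofSubtype_apply_of_not_mem g hx
  have hmem : ∀ (g : Equiv.Perm {x // x ∈ top}) (x : ℕ),
      Equiv.Perm.ofSubtype g x ∈ top ↔ x ∈ top := fun g x =>
    Equiv.Perm.ofSubtype_apply_mem_iff_mem (p := fun x => x ∈ top) g x
  have hlt : ∀ (g : Equiv.Perm {x // x ∈ top}) (x : ℕ),
      Equiv.Perm.ofSubtype g x < n ↔ x < n := by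
    intro g x
    by_cases hx : x ∈ top
    · have := (hmem g x).2 hx
      simp only [top, Finset.mem_Ico] at this hx
      omega
    · rw [hfix g x hx]
  apply Finset.card_le_card_of_injOn (fun g => l.map (Equiv.Perm.ofSubtype g))
  · intro g _
    have hsk : sk K (l.map (Equiv.Perm.ofSubtype g)) = sk K l := by
      unfold sk
      rw [List.map_map]
      apply List.map_congr_left
      intro x _
      by_cases hx : x ∈ top
      · have := (hmem g x).2 hx
        simp only [top, Finset.mem_Ico] at this hx
        simp only [Function.comp]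
        omega
      · simp only [Function.comp]; rw [hfix g x hx]
    simp only [Finset.coe_filter, Finset.mem_filter, Set.mem_ofPred_eq]
    refine ⟨⟨mem_UU.2 ⟨?_, ?_⟩, by rw [hsk]; exact hσ⟩, hsk⟩
    · rw [List.perm_ext_iff_of_nodup
        ((h1.nodup_iff.2 List.nodup_range).map (Equiv.injective _)) List.nodup_range]
      intro x
      rw [List.mem_map, List.mem_range]
      constructor
      · rintro ⟨y, hy, rfl⟩
        rw [hlt]
        simpa using h1.subset hy
      · intro hx
        refine ⟨(Equiv.Perm.ofSubtype g).symm x, ?_, by simp⟩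
        rw [h1.mem_iff, List.mem_range, ← hlt g]
        simpa using hx
    · intro x y hxy
      obtain ⟨l', g1, g2⟩ := List.sublist_map_iff.1 hxy
      obtain ⟨a, b, c, rfl⟩ := List.length_eq_three.1
        (show l'.length = 3 by simpa using (congrArg List.length g2).symm)
      simp only [List.map_cons, List.map_nil, List.cons.injEq, and_true] at g2
      obtain ⟨e1, e2, e3⟩ := g2
      have h0 : (0 : ℕ) ∉ top := by simp [top]; omega
      have ha : a = 0 := by
        apply (Equiv.Perm.ofSubtype g).injective
        rw [← e1, hfix g 0 h0]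
      subst ha
      have hb := after_zero_lt hl (by omega) b
        ((List.Sublist.cons_cons 0 (List.Sublist.cons_cons b (List.nil_sublist _))).trans g1)
      have hc := after_zero_lt hl (by omega) c
        ((List.Sublist.cons_cons 0 (List.sublist_cons_self b [c])).trans g1)
      rw [e2, e3, hfix g b (by simp [top]; omega), hfix g c (by simp [top]; omega)]
      exact srt_of_succ h2 b c g1
  · intro g _ g' _ hgg
    apply Equiv.Perm.ofSubtype_injective
    ext x
    by_cases hx : x ∈ top
    · have : x ∈ l := by
        rw [h1.mem_iff, List.mem_range]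
        exact (Finset.mem_Ico.1 hx).2
      exact List.map_inj_left.1 hgg x this
    · rw [hfix g x hx, hfix g' x hx]

theorem card_GG {K L n : ℕ} (hK : 2 ≤ K) (hn : K + L = n) :
    (L + 1) * (GG K (n + 1)).card ≤ 3 * n.factorial := by
  have h1 := card_GG_le_sk (K := K) (L := L) (n := n + 1) hK (by omega)
  have h2 := card_sk_le (K := K) (L := L) (n := n + 1) hK (by omega)
  have h3 := card_UU n
  have h4 := uu_le n
  rw [Nat.factorial_succ] at h2
  calc (L + 1) * (GG K (n + 1)).card
      ≤ (L + 1) * (L.factorial * ((GG K (n + 1)).image (sk K)).card) :=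
        Nat.mul_le_mul_left _ h1
    _ ≤ (UU (n + 1)).card := by rw [← mul_assoc]; exact h2
    _ ≤ 3 * n.factorial := by omega

/-- words ending in `0` -/
def ZZ (n : ℕ) : Finset (List ℕ) :=
  ((List.range' 1 n).permutations.toFinset).image (fun w => w ++ [0])

theorem card_ZZ (n : ℕ) : (ZZ n).card = n.factorial := by
  unfold ZZ
  rw [Finset.card_image_of_injective _ (fun a b h => List.append_cancel_right h),
    List.toFinset_card_of_nodup (List.nodup_permutations _ (List.nodup_range' ..)),
    List.length_permutations, List.length_range']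

theorem mem_ZZ {n : ℕ} {l : List ℕ} :
    l ∈ ZZ n ↔ l.Perm (List.range (n + 1)) ∧ l.getLast? = some 0 := by
  have e : List.range (n + 1) = 0 :: List.range' 1 n := by
    rw [List.range_eq_range', List.range'_succ]
  simp only [ZZ, Finset.mem_image, List.mem_toFinset, List.mem_permutations, e]
  constructor
  · rintro ⟨w, hw, rfl⟩
    exact ⟨List.perm_append_comm.trans (hw.cons 0), by simp⟩
  · rintro ⟨h1, h2⟩
    obtain ⟨w, rfl⟩ := List.getLast?_eq_some_iff.1 h2
    exact ⟨w, (List.perm_append_comm.symm.trans h1).cons_inv, rfl⟩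

theorem card_TT_le {K L n : ℕ} (hK : 2 ≤ K) (hn : K + L = n + 1) :
    (L + 1) * (TT (n + 2)).card ≤ (L + 1) * (n + 1).factorial + 3 * (n + 1).factorial +
      (L + 1) ^ 3 * (3 * n.factorial) := by
  classical
  have hsub : TT (n + 2) ⊆ (ZZ (n + 1) ∪ GG K (n + 2)) ∪
      ((Finset.Ico K (n + 2)) ×ˢ (Finset.Ico K (n + 2))).biUnion
        (fun p => (UU (n + 2)).filter (fun l => l[p.1]? = some p.2)) := by
    intro l hl
    obtain ⟨h1, h2⟩ := mem_TT.1 hl
    simp only [Finset.mem_union, mem_ZZ, mem_GG, Finset.mem_biUnion, Finset.mem_product,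
      Finset.mem_Ico, Finset.mem_filter, mem_UU]
    by_cases g1 : l.getLast? = some 0
    · exact Or.inl (Or.inl ⟨h1, g1⟩)
    by_cases g2 : ∀ x ∈ l.drop K, x < K
    · exact Or.inl (Or.inr ⟨⟨h1, h2⟩, g1, g2⟩)
    right
    push Not at g2
    obtain ⟨x, hx, hxK⟩ := g2
    obtain ⟨i, hi, hix⟩ := List.getElem_of_mem hx
    have hlen : l.length = n + 2 := by simpa using h1.length_eq
    have hxn : x < n + 2 := by simpa using h1.subset (List.mem_of_mem_drop hx)
    rw [List.length_drop] at hi
    refine ⟨(K + i, x), ⟨⟨by simp, by simp; omega⟩, hxK, hxn⟩, ⟨h1, srt_of_succ h2⟩, ?_⟩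
    rw [List.getElem_drop] at hix
    exact List.getElem?_eq_some_iff.2 ⟨by simp; omega, hix⟩
  have h1 := Finset.card_le_card hsub
  have h2 := Finset.card_union_le (ZZ (n + 1) ∪ GG K (n + 2))
    (((Finset.Ico K (n + 2)) ×ˢ (Finset.Ico K (n + 2))).biUnion
        (fun p => (UU (n + 2)).filter (fun l => l[p.1]? = some p.2)))
  have h3 := Finset.card_union_le (ZZ (n + 1)) (GG K (n + 2))
  have h4 := Finset.card_biUnion_le_card_mul ((Finset.Ico K (n + 2)) ×ˢ (Finset.Ico K (n + 2)))
    (fun p => (UU (n + 2)).filter (fun l => l[p.1]? = some p.2)) (uu n) (by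
      intro p hp
      simp only [Finset.mem_product, Finset.mem_Ico] at hp
      exact card_B n p.1 p.2 (by omega) hp.2.2)
  rw [Finset.card_product, Nat.card_Ico, show n + 2 - K = L + 1 by omega] at h4
  have h5 := card_GG (K := K) (L := L) (n := n + 1) hK hn
  have h6 := uu_le n
  rw [card_ZZ] at h3
  have h7 : (L + 1) * (L + 1) * uu n ≤ (L + 1) * (L + 1) * (3 * n.factorial) :=
    Nat.mul_le_mul_left _ (by omega)
  have h8 : (TT (n + 2)).card ≤ (n + 1).factorial + (GG K (n + 2)).card +
      (L + 1) * (L + 1) * (3 * n.factorial) := by omega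
  calc (L + 1) * (TT (n + 2)).card ≤ (L + 1) * ((n + 1).factorial + (GG K (n + 2)).card +
      (L + 1) * (L + 1) * (3 * n.factorial)) := Nat.mul_le_mul_left _ h8
    _ = (L + 1) * (n + 1).factorial + (L + 1) * (GG K (n + 1 + 1)).card +
      (L + 1) ^ 3 * (3 * n.factorial) := by ring
    _ ≤ _ := by omega

end Pool.Agent.P.MP_79f629_co
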