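import Mathlib

set_option autoImplicit false

namespace Pool.Agent.P.MP_79f629_co

/-- `π'` arises from `π` by bumping a true fixed point (positions and letters are numbered
from `0`, so a true fixed point is a fixed point other than the first position). -/
def Bump {n : ℕ} (π π' : Equiv.Perm (Fin n)) : Prop :=
  ∃ i : Fin n, 0 < (i : ℕ) ∧ π i = i ∧ List.ofFn π' = i :: (List.ofFn π).eraseIdx (i : ℕ)

end Pool.Agent.P.MP_79f629_co
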