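import Mathlib
import Pool.Agent.P.MP_79f629_co.Defs
import Pool.Agent.P.MP_79f629_co.Count

set_option autoImplicit false

namespace Pool.Agent.P.MP_79f629_co

open Filter Topology

/-! ### termination and the lower bound -/

def pot (n : ℕ) (l : List ℕ) : ℕ := ∑ i ∈ Finset.range n, if l[i]? = some i then 2 ^ i else 0

theorem pot_lt (n : ℕ) (l : List ℕ) : pot n l < 2 ^ n := by
  have h : pot n l ≤ ∑ i ∈ Finset.range n, 2 ^ i :=
    Finset.sum_le_sum (fun i _ => by split_ifs <;> simp)
  have := Nat.geomSum_lt (m := 2) le_rfl (s := Finset.range n) (n := n) (fun k hk => by simpa using hk)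
  omega

theorem pot_PP {n z : ℕ} {l : List ℕ} (h : (z :: l).Perm (List.range n)) (hz : z ≠ 0) :
    pot n (z :: l) < pot n (PP (z :: l)) := by
  obtain ⟨h1, h2⟩ := le_length_of_perm h
  have hnd := List.nodup_cons.1 (h.nodup_iff.2 List.nodup_range)
  have hPz : (PP (z :: l))[z]? = some z := by
    show (l.take z ++ z :: l.drop z)[z]? = some z
    rw [List.getElem?_append_right (by simp)]
    simp [h1]
  have hlz : (z :: l)[z]? ≠ some z := by
    obtain ⟨y, rfl⟩ := Nat.exists_eq_succ_of_ne_zero hz
    rw [List.getElem?_cons_succ]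
    intro e
    exact hnd.1 (List.mem_of_getElem? e)
  have hgt : ∀ i, z < i → (PP (z :: l))[i]? = (z :: l)[i]? := by
    intro i hi
    obtain ⟨d, rfl⟩ : ∃ d, i = z + d + 1 := ⟨i - z - 1, by omega⟩
    show (l.take z ++ z :: l.drop z)[z + d + 1]? = _
    rw [List.getElem?_append_right (by simp; omega), List.getElem?_cons_succ]
    have : z + d + 1 - (l.take z).length = d + 1 := by simp [h1]; omega
    rw [this, List.getElem?_cons_succ, List.getElem?_drop]
  obtain ⟨d, rfl⟩ : ∃ d, n = z + 1 + d := ⟨n - (z + 1), by omega⟩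
  unfold pot
  rw [Finset.sum_range_add _ (z + 1) d, Finset.sum_range_add _ (z + 1) d, Finset.sum_range_succ,
    Finset.sum_range_succ, if_pos hPz, if_neg hlz]
  have e : ∑ x ∈ Finset.range d, (if (PP (z :: l))[z + 1 + x]? = some (z + 1 + x) then
      2 ^ (z + 1 + x) else 0) = ∑ x ∈ Finset.range d, (if (z :: l)[z + 1 + x]? = some (z + 1 + x)
      then 2 ^ (z + 1 + x) else 0) :=
    Finset.sum_congr rfl (fun x _ => by rw [hgt _ (by omega)])
  rw [e]
  have := pot_lt z (z :: l)
  unfold pot at this
  omega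

theorem terminates {n : ℕ} (hn : 0 < n) : ∀ (m : ℕ) (l : List ℕ), l.Perm (List.range n) →
    2 ^ n - pot n l = m → ∃ N l', PP^[N] l = 0 :: l' := by
  intro m
  induction m using Nat.strong_induction_on with
  | _ m ih =>
    intro l hl hm
    cases l with
    | nil => have := hl.length_eq; simp at this; omega
    | cons z l =>
      by_cases hz : z = 0
      · subst hz; exact ⟨0, l, rfl⟩
      · have h1 := pot_PP hl hz
        have h2 := pot_lt n (PP (z :: l))
        obtain ⟨N, l', h⟩ := ih _ (by omega) (PP (z :: l)) ((PP_perm _).trans hl) rfl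
        exact ⟨N + 1, l', h⟩

/-- the letters after `0` are the largest ones, at their own positions -/
def Home (n : ℕ) (l : List ℕ) : Prop :=
  l.Perm (List.range n) ∧ ∃ w : List ℕ, l = w ++ 0 :: List.range' (w.length + 1) (n - 1 - w.length)

theorem Home.step {n : ℕ} {l : List ℕ} (h : Home n l) : Home n (PP l) := by
  obtain ⟨h1, w, hw⟩ := h
  refine ⟨(PP_perm l).trans h1, ?_⟩
  cases w with
  | nil => exact ⟨[], by rw [hw]; exact PP_zero _⟩
  | cons z w =>
    have hlen := h1.length_eq
    have hnd := h1.nodup_iff.2 List.nodup_range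
    have hzn : z < n := by simpa using h1.subset (by rw [hw]; simp : z ∈ l)
    rw [hw] at hlen hnd
    simp only [List.cons_append, List.nodup_cons, List.mem_append, List.mem_cons,
      List.mem_range'_1, List.length_cons, not_or] at hnd
    simp at hlen
    have hz : z ≤ w.length + 1 := by
      have := hnd.1.2.2
      omega
    rcases eq_or_lt_of_le hz with e | hlt
    · refine ⟨w, ?_⟩
      have e1 : w ++ 0 :: List.range' ((z :: w).length + 1) (n - 1 - (z :: w).length) =
          (w ++ [0]) ++ List.range' ((z :: w).length + 1) (n - 1 - (z :: w).length) := by simp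
      rw [hw, List.cons_append, e1, PP_le (k := z) (by simp [e]) le_rfl,
        List.take_of_length_le (by simp [e]), List.drop_of_length_le (by simp [e])]
      have e2 : n - 1 - w.length = (n - 1 - (z :: w).length) + 1 := by simp; omega
      rw [e2, List.range'_succ, ← e]
      simp [e]
    · refine ⟨w.take z ++ z :: w.drop z, ?_⟩
      rw [hw, List.cons_append, PP_le (k := w.length) rfl (by omega)]
      have : (w.take z ++ z :: w.drop z).length = (z :: w).length := by simp; omega
      rw [this]

theorem ZZ_sub (n : ℕ) : ZZ n ⊆ TT (n + 1) := by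
  intro l hl
  obtain ⟨h1, h2⟩ := mem_ZZ.1 hl
  refine mem_TT.2 ⟨h1, ?_⟩
  obtain ⟨w, rfl⟩ := List.getLast?_eq_some_iff.1 h2
  have hH : Home (n + 1) (w ++ [0]) := by
    refine ⟨h1, w, ?_⟩
    have := h1.length_eq
    simp at this
    simp [this]
  obtain ⟨N, l', hN⟩ := terminates (by omega) _ _ h1 rfl
  have hH' : Home (n + 1) (PP^[N] (w ++ [0])) := by
    clear hN
    induction N with
    | zero => exact hH
    | succ N ih => rw [Function.iterate_succ_apply']; exact ih.step
  refine ⟨N, ?_⟩
  obtain ⟨g1, v, g2⟩ := hH'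
  cases v with
  | nil => rw [g2, List.range_eq_range', List.range'_succ]; simp
  | cons z v =>
    exfalso
    have hnd := g1.nodup_iff.2 List.nodup_range
    rw [hN] at g2
    simp only [List.cons_append, List.cons.injEq] at g2
    rw [hN, g2.2] at hnd
    simp at hnd

theorem le_card_TT (n : ℕ) : n.factorial ≤ (TT (n + 1)).card := by
  rw [← card_ZZ]; exact Finset.card_le_card (ZZ_sub n)

/-! ### from permutations to words -/

def word {n : ℕ} (π : Equiv.Perm (Fin n)) : List ℕ := (List.ofFn π).map Fin.val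

theorem word_inj {n : ℕ} : Function.Injective (word (n := n)) := by
  intro π π' h
  have := List.ofFn_injective (List.map_injective_iff.2 Fin.val_injective h)
  exact Equiv.ext (fun x => congrFun this x)

theorem word_one (n : ℕ) : word (1 : Equiv.Perm (Fin n)) = List.range n := by
  apply List.ext_getElem <;> simp [word]

theorem word_perm {n : ℕ} (π : Equiv.Perm (Fin n)) : (word π).Perm (List.range n) := by
  unfold word
  rw [List.perm_ext_iff_of_nodup
    ((List.nodup_ofFn.2 π.injective).map Fin.val_injective) List.nodup_range]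
  intro x
  simp only [List.mem_map, List.mem_ofFn, List.mem_range]
  constructor
  · rintro ⟨y, -, rfl⟩; exact y.2
  · intro hx; exact ⟨⟨x, hx⟩, ⟨π.symm ⟨x, hx⟩, by simp⟩, rfl⟩

theorem word_surj {n : ℕ} {l : List ℕ} (hl : l.Perm (List.range n)) :
    ∃ π : Equiv.Perm (Fin n), word π = l := by
  have h : (Finset.univ : Finset (Equiv.Perm (Fin n))).image word = Pm n := by
    apply Finset.eq_of_subset_of_card_le
    · intro x hx
      obtain ⟨π, -, rfl⟩ := Finset.mem_image.1 hx
      exact mem_Pm.2 (word_perm π)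
    · rw [Finset.card_image_of_injective _ word_inj, card_Pm, Finset.card_univ, Fintype.card_perm,
        Fintype.card_fin]
  have := mem_Pm.2 hl
  rw [← h] at this
  obtain ⟨π, -, hπ⟩ := Finset.mem_image.1 this
  exact ⟨π, hπ⟩

theorem word_getElem? {n : ℕ} (π : Equiv.Perm (Fin n)) (i : Fin n) :
    (word π)[(i : ℕ)]? = some (π i : ℕ) := by
  simp [word]

theorem PP_of_bump {n : ℕ} {π π' : Equiv.Perm (Fin n)} (h : Bump π π') :
    PP (word π') = word π := by
  obtain ⟨i, -, h1, h2⟩ := h
  have e : word π' = (i : ℕ) :: (word π).eraseIdx i := by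
    unfold word
    rw [h2, List.map_cons, List.eraseIdx_map]
  have g := word_getElem? π i
  rw [h1] at g
  obtain ⟨g1, g2⟩ := List.getElem?_eq_some_iff.1 g
  rw [e, List.eraseIdx_eq_take_drop_succ,
    PP_le (k := (i : ℕ)) (by simp; omega) le_rfl, List.take_of_length_le (by simp),
    List.drop_of_length_le (by simp)]
  conv_rhs => rw [← List.take_append_drop i (word π), ← List.getElem_cons_drop g1, g2]
  simp

theorem bump_of_PP {n z : ℕ} {l : List ℕ} {π π' : Equiv.Perm (Fin n)} (hz : z ≠ 0)
    (h' : word π' = z :: l) (h : word π = PP (z :: l)) : Bump π π' := by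
  obtain ⟨h1, h2⟩ := le_length_of_perm (h' ▸ word_perm π')
  have hzn : z < n := by omega
  have hP : PP (z :: l) = l.take z ++ z :: l.drop z := rfl
  refine ⟨⟨z, hzn⟩, Nat.pos_of_ne_zero hz, ?_, ?_⟩
  · have g := word_getElem? π ⟨z, hzn⟩
    rw [h, hP, List.getElem?_append_right (by simp)] at g
    simp [h1] at g
    exact Fin.ext g.symm
  · apply List.map_injective_iff.2 Fin.val_injective
    rw [List.map_cons, ← List.eraseIdx_map]
    change word π' = z :: (word π).eraseIdx z
    rw [h', h, hP, List.eraseIdx_append_of_length_le (by simp)]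
    simp [h1]

theorem reach_iff {n : ℕ} (π : Equiv.Perm (Fin n)) :
    (SimpleGraph.fromRel Bump).Reachable 1 π ↔ Succ n (word π) := by
  constructor
  · intro h
    rw [SimpleGraph.reachable_iff_reflTransGen] at h
    induction h with
    | refl => exact ⟨0, word_one n⟩
    | tail _ hadj ih =>
      rw [SimpleGraph.fromRel_adj] at hadj
      rcases hadj.2 with g | g
      · rw [← succ_PP_iff, PP_of_bump g]; exact ih
      · rw [← PP_of_bump g, succ_PP_iff]; exact ih
  · rintro ⟨N, hN⟩
    induction N generalizing π with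
    | zero =>
      have : π = 1 := word_inj (by rw [word_one]; exact hN)
      rw [this]
    | succ N ih =>
      obtain ⟨π0, h0⟩ := word_surj ((PP_perm (word π)).trans (word_perm π))
      have h1 := ih π0 (by rw [h0]; exact hN)
      by_cases e : π0 = π
      · rw [← e]; exact h1
      · refine h1.trans (SimpleGraph.Adj.reachable ?_)
        rw [SimpleGraph.fromRel_adj]
        refine ⟨e, Or.inl ?_⟩
        cases hw : word π with
        | nil =>
          exact absurd (word_inj (by rw [h0, hw]; rfl)) e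
        | cons z l =>
          by_cases hz : z = 0
          · exact absurd (word_inj (by rw [h0, hw, hz, PP_zero])) e
          · exact bump_of_PP hz hw (by rw [h0, hw])

theorem card_eq (n : ℕ) :
    Nat.card {π : Equiv.Perm (Fin n) // (SimpleGraph.fromRel Bump).Reachable 1 π} =
      (TT n).card := by
  rw [← Nat.card_eq_finsetCard]
  apply Nat.card_congr
  refine Equiv.ofBijective
    (fun π => ⟨word π.1, mem_TT.2 ⟨word_perm _, (reach_iff _).1 π.2⟩⟩) ⟨?_, ?_⟩
  · intro a b h
    exact Subtype.ext (word_inj (congrArg Subtype.val h))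
  · rintro ⟨l, hl⟩
    obtain ⟨h1, h2⟩ := mem_TT.1 hl
    obtain ⟨π, rfl⟩ := word_surj h1
    exact ⟨⟨π, (reach_iff _).2 h2⟩, rfl⟩

theorem main : Tendsto (fun n : ℕ => (n : ℝ) *
    ((Nat.card {π : Equiv.Perm (Fin n) // (SimpleGraph.fromRel Bump).Reachable 1 π} : ℝ) /
      (n.factorial : ℝ))) atTop (𝓝 1) := by
  simp only [card_eq]
  rw [← tendsto_add_atTop_iff_nat 2, Metric.tendsto_atTop]
  intro ε hε
  obtain ⟨L, hL⟩ := exists_nat_gt (6 / ε)
  obtain ⟨N, hN⟩ := exists_nat_gt (6 * ((L : ℝ) + 1) ^ 2 / ε)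
  refine ⟨max N (L + 1), fun n hn => ?_⟩
  have n1 : N ≤ n := le_trans (le_max_left _ _) hn
  have n2 : L + 1 ≤ n := le_trans (le_max_right _ _) hn
  have h1 := le_card_TT (n + 1)
  have h2 := card_TT_le (K := n + 1 - L) (L := L) (n := n) (by omega) (by omega)
  have h1' : ((n + 1).factorial : ℝ) ≤ ((TT (n + 2)).card : ℝ) := by exact_mod_cast h1
  have h2' : ((L : ℝ) + 1) * ((TT (n + 2)).card : ℝ) ≤ ((L : ℝ) + 1) * (n + 1).factorial +
      3 * (n + 1).factorial + ((L : ℝ) + 1) ^ 3 * (3 * n.factorial) := by exact_mod_cast h2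
  have f0 : (0 : ℝ) < n.factorial := by exact_mod_cast n.factorial_pos
  have f1 : ((n + 1).factorial : ℝ) = (n + 1) * n.factorial := by
    rw [Nat.factorial_succ]; push_cast; ring
  have f2 : ((n + 2).factorial : ℝ) = (n + 2) * (n + 1).factorial := by
    rw [Nat.factorial_succ (n + 1)]; push_cast; ring
  have f3 : (0 : ℝ) < (n + 1).factorial := by exact_mod_cast (n + 1).factorial_pos
  have e : ((n + 2 : ℕ) : ℝ) * (((TT (n + 2)).card : ℝ) / ((n + 2).factorial : ℝ)) =
      ((TT (n + 2)).card : ℝ) / (n + 1).factorial := by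
    rw [f2]; push_cast; field_simp
  rw [e, Real.dist_eq, abs_lt]
  have hL0 : (0 : ℝ) ≤ L := Nat.cast_nonneg L
  have hn0 : (N : ℝ) ≤ n := by exact_mod_cast n1
  constructor
  · have : 1 ≤ ((TT (n + 2)).card : ℝ) / (n + 1).factorial := by
      rw [le_div_iff₀ f3]; linarith
    linarith
  · rw [sub_lt_iff_lt_add, div_lt_iff₀ f3]
    rw [div_lt_iff₀ hε] at hL hN
    have g1 : 3 * ((n + 1).factorial : ℝ) < ((L : ℝ) + 1) * (ε / 2 * (n + 1).factorial) := by
      nlinarith
    have g2 : ((L : ℝ) + 1) ^ 2 * 3 ≤ ε / 2 * (n + 1) := by nlinarith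
    have g3 : ((L : ℝ) + 1) ^ 3 * (3 * n.factorial) ≤
        ((L : ℝ) + 1) * (ε / 2 * (n + 1).factorial) := by
      rw [f1]
      have := mul_le_mul_of_nonneg_right g2 f0.le
      have := mul_le_mul_of_nonneg_left this (show (0 : ℝ) ≤ L + 1 by linarith)
      nlinarith
    have g4 : ((L : ℝ) + 1) * ((TT (n + 2)).card : ℝ) <
        ((L : ℝ) + 1) * ((ε + 1) * (n + 1).factorial) := by nlinarith
    exact lt_of_mul_lt_mul_left g4 (by linarith)

end Pool.Agent.P.MP_79f629_co
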