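import Pool.Agent.P.MP_79f629_co.SWeight

set_option autoImplicit false

/-! The chain of projections of a set of words. -/

namespace Pool.Agent.P.MP_79f629_co.Second

open Pool.Agent.P.MP_79f629_co Finset

def bs (c : ℕ) (w : List ℕ) : St :=
  ((w.take (c + 1)).filter (c + 1 ≤ ·), (w.drop (c + 1)).map (cc (c + 1)))

theorem cover {α β : Type} [DecidableEq α] [DecidableEq β] (g : α → ℕ) (c : β → Finset α)
    (P : Finset β) :
    ∀ S : Finset α, (∀ x ∈ S, ∃ p ∈ P, x ∈ c p) → ∑ x ∈ S, g x ≤ ∑ p ∈ P, ∑ x ∈ c p, g x := by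
  induction P using Finset.induction_on with
  | empty =>
    intro S h
    have : S = ∅ := eq_empty_of_forall_notMem (fun x hx => by simpa using h x hx)
    simp [this]
  | insert p P hp ih =>
    intro S h
    rw [sum_insert hp, ← sum_filter_add_sum_filter_not S (fun x => x ∈ c p)]
    apply add_le_add
    · exact sum_le_sum_of_subset (fun x hx => (mem_filter.1 hx).2)
    · apply ih
      intro x hx
      obtain ⟨q, hq, e⟩ := h x (mem_filter.1 hx).1
      rcases mem_insert.1 hq with rfl | hq
      · exact absurd e (mem_filter.1 hx).2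
      · exact ⟨q, hq, e⟩

theorem sum_union_le' {α : Type} [DecidableEq α] (g : α → ℕ) (s t : Finset α) :
    ∑ x ∈ s ∪ t, g x ≤ ∑ x ∈ s, g x + ∑ x ∈ t, g x := by
  rw [← sum_union_inter]; omega

theorem stage1 {c : ℕ} (g : St → ℕ) (S : Finset (List ℕ))
    (h : ∀ w ∈ S, c + 2 ≤ w.length ∧ 0 ∉ w) :
    ∑ D ∈ S.image (bs c), g D ≤ ∑ s ∈ S.image (al (c + 1)), UW g s := by
  refine le_trans (cover g (fun s : St => {(s.1, 1 :: s.2)} ∪
    {(s.1.dropLast, s.1.getLastD 0 :: s.2)}) (S.image (al (c + 1))) _ ?_) ?_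
  · intro D hD
    obtain ⟨w, hw, rfl⟩ := mem_image.1 hD
    obtain ⟨h1, h2⟩ := h w hw
    refine ⟨_, mem_image_of_mem _ hw, ?_⟩
    have e1 : w.take (c + 1 + 1) = w.take (c + 1) ++ [w[c + 1]] := by
      rw [List.take_succ_eq_append_getElem]
    have e2 : w.drop (c + 1) = w[c + 1] :: w.drop (c + 1 + 1) := List.drop_eq_getElem_cons _
    have e3 : w[c + 1] ≠ 0 := fun e => h2 (e ▸ List.getElem_mem _)
    simp only [mem_union, mem_singleton, bs, al, e1, List.filter_append]
    rw [e2]
    generalize w[c + 1] = x at e3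
    by_cases q : c + 1 ≤ x
    · right
      rw [filt_big q]
      simp [cc, q]
    · left
      rw [filt_small (by omega)]
      simp [cc, q, e3]
  · apply sum_le_sum
    intro s _
    simpa [UW] using sum_union_le' g {(s.1, 1 :: s.2)} {(s.1.dropLast, s.1.getLastD 0 :: s.2)}

theorem filter_not_mem {k : ℕ} {L : List ℕ} (h : k ∉ L) :
    L.filter (k ≤ ·) = L.filter (k + 1 ≤ ·) :=
  List.filter_congr (fun x hx => decide_eq_decide.2 (by
    have : x ≠ k := fun e => h (e ▸ hx)
    omega))

theorem map_not_mem {k : ℕ} {L : List ℕ} (h : k ∉ L) : L.map (cc k) = L.map (cc (k + 1)) :=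
  List.map_congr_left (fun x hx => by
    have : x ≠ k := fun e => h (e ▸ hx)
    unfold cc
    split_ifs <;> omega)

theorem al_eq_bs {k : ℕ} {w : List ℕ} (h : k ∉ w) : al k w = bs k w := by
  unfold al bs
  rw [filter_not_mem (fun e => h (List.mem_of_mem_take e)),
    map_not_mem (fun e => h (List.mem_of_mem_drop e))]

theorem tr {c : ℕ} (p : St → Prop) (g : St → ℕ) (S : Finset (List ℕ))
    (h : ∀ w ∈ S, c + 2 ≤ w.length ∧ 0 ∉ w)
    (h' : ∀ w ∈ S, w.Nodup ∧ c + 1 ∈ w ∧ p (al (c + 1) w)) :
    ∑ D ∈ S.image (bs c), g D ≤ ∑ D ∈ S.image (bs (c + 1)), TW (c + 1) p g D := by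
  classical
  refine le_trans (stage1 g S h) ?_
  refine le_trans (cover (UW g) (fun D : St =>
    ((range (D.1.length + 1)).filter (fun i => p (ins i (c + 1) D.1, D.2))).image
      (fun i => (ins i (c + 1) D.1, D.2)) ∪
    ((range D.2.length).filter (fun i => D.2[i]? = some 1)).image
      (fun i => (D.1, D.2.set i (c + 1)))) (S.image (bs (c + 1))) _ ?_) ?_
  · intro s hs
    obtain ⟨w, hw, rfl⟩ := mem_image.1 hs
    obtain ⟨h1, h2, h3⟩ := h' w hw
    refine ⟨_, mem_image_of_mem _ hw, ?_⟩
    rw [← List.take_append_drop (c + 1 + 1) w] at h1 h2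
    have hd := List.nodup_append.1 h1
    rw [mem_union]
    rcases List.mem_append.1 h2 with q | q
    · left
      have q' : c + 1 ∉ w.drop (c + 1 + 1) := fun e => hd.2.2 _ q _ e rfl
      obtain ⟨a, b, e⟩ := List.append_of_mem q
      have n := hd.1
      rw [e] at n
      have na : c + 1 ∉ a := fun x => (List.nodup_append.1 n).2.2 _ x _ List.mem_cons_self rfl
      have nb : c + 1 ∉ b := (List.nodup_cons.1 (List.nodup_append.1 n).2.1).1
      have E : al (c + 1) w =
          (ins (a.filter (c + 1 + 1 ≤ ·)).length (c + 1) (bs (c + 1) w).1, (bs (c + 1) w).2) := by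
        unfold al bs
        rw [e, map_not_mem q']
        simp only [List.filter_append, List.filter_cons, le_refl, decide_true, if_true,
          Nat.not_succ_le_self, decide_false, Bool.false_eq_true, if_false, ins_at,
          filter_not_mem na, filter_not_mem nb]
      refine mem_image.2 ⟨_, mem_filter.2 ⟨mem_range.2 ?_, E ▸ h3⟩, E.symm⟩
      unfold bs
      rw [e]
      simp only [List.filter_append, List.length_append]
      omega
    · right
      have q' : c + 1 ∉ w.take (c + 1 + 1) := fun e => hd.2.2 _ e _ q rfl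
      obtain ⟨a, b, e⟩ := List.append_of_mem q
      have n := hd.2.1
      rw [e] at n
      have na : c + 1 ∉ a := fun x => (List.nodup_append.1 n).2.2 _ x _ List.mem_cons_self rfl
      have nb : c + 1 ∉ b := (List.nodup_cons.1 (List.nodup_append.1 n).2.1).1
      refine mem_image.2 ⟨a.length, mem_filter.2 ⟨mem_range.2 ?_, ?_⟩, ?_⟩
      · unfold bs
        rw [e]
        simp
      · unfold bs
        rw [e]
        simp [cc]
      · unfold al bs
        rw [e, filter_not_mem q']
        simp [map_not_mem na, map_not_mem nb, cc]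
  · apply sum_le_sum
    intro D _
    refine le_trans (sum_union_le' _ _ _) ?_
    unfold TW
    exact add_le_add (sum_image_le_of_nonneg (fun _ _ => Nat.zero_le _))
      (sum_image_le_of_nonneg (fun _ _ => Nat.zero_le _))

/-- the words above `0` for the tail `A` -/
def Cl (n : ℕ) (A : List ℕ) (S : Finset (List ℕ)) : Prop :=
  ∀ w ∈ S, (w ++ 0 :: A).Perm (List.range n)

def aa (A : List ℕ) (k : ℕ) : ℕ := A.countP (· ≤ k)

theorem cl_facts {n : ℕ} {A w : List ℕ} (h : (w ++ 0 :: A).Perm (List.range n)) :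
    w.Nodup ∧ A.Nodup ∧ 0 ∉ w ∧ 0 ∉ A ∧ w.length + 1 + A.length = n ∧
      ∀ x, x < n → x ≠ 0 → (x ∈ w ↔ x ∉ A) := by
  have h1 := List.nodup_append.1 (h.nodup_iff.2 List.nodup_range)
  have h2 := List.nodup_cons.1 h1.2.1
  refine ⟨h1.1, h2.2, fun e => h1.2.2 _ e _ List.mem_cons_self rfl, h2.1, ?_, fun x hx h0 => ?_⟩
  · have := h.length_eq
    simp at this
    omega
  · constructor
    · exact fun a b => h1.2.2 _ a _ (List.mem_cons_of_mem _ b) rfl
    · intro b
      have := h.symm.subset (List.mem_range.2 hx)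
      simp only [List.mem_append, List.mem_cons] at this
      tauto

theorem countP_range (k n : ℕ) (h : k < n) : (List.range n).countP (· ≤ k) = k + 1 := by
  induction n with
  | zero => omega
  | succ n ih =>
    rw [List.range_succ, List.countP_append]
    rcases eq_or_lt_of_le (Nat.lt_succ_iff.1 h) with e | e
    · subst e
      rw [List.countP_eq_length.2 (fun x hx => by have := List.mem_range.1 hx; simp; omega)]
      simp
    · rw [ih e]
      have : ¬ n ≤ k := by omega
      simp [this]

theorem aa_le {n k : ℕ} {A w : List ℕ} (h : (w ++ 0 :: A).Perm (List.range n)) (hk : k < n) :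
    aa A k ≤ k := by
  have := h.countP_eq (· ≤ k)
  rw [countP_range k n hk, List.countP_append, List.countP_cons] at this
  simp at this
  unfold aa
  omega

theorem wf_bs {n k : ℕ} {A w : List ℕ} (h : (w ++ 0 :: A).Perm (List.range n)) (hk : 1 ≤ k)
    (hw : k + 1 ≤ w.length) : Wf k (aa A k) (bs k w) ∧ (bs k w).1.length + k + 1 ≤ n := by
  obtain ⟨-, -, h0, -, hn, -⟩ := cl_facts h
  have e1 := h.countP_eq (· ≤ k)
  rw [countP_range k n (by omega), ← List.take_append_drop (k + 1) w, List.countP_append,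
    List.countP_append, List.countP_cons] at e1
  have e2 : (bs k w).2.count 1 = (w.drop (k + 1)).countP (· ≤ k) := by
    unfold bs
    rw [List.count_eq_countP, List.countP_map]
    apply List.countP_congr
    intro x hx
    have : x ≠ 0 := fun e => h0 (e ▸ List.mem_of_mem_drop hx)
    simp only [Function.comp, cc, beq_iff_eq, decide_eq_true_eq]
    split_ifs <;> omega
  have e3 : (bs k w).1.length + (w.take (k + 1)).countP (· ≤ k) = k + 1 := by
    have := List.length_eq_countP_add_countP (fun x => decide (k + 1 ≤ x)) (l := w.take (k + 1))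
    rw [List.length_take, min_eq_left hw, List.countP_eq_length_filter] at this
    have e : (w.take (k + 1)).countP (fun a => decide ¬decide (k + 1 ≤ a) = true) =
        (w.take (k + 1)).countP (· ≤ k) := List.countP_congr (fun x _ => by simp)
    unfold bs
    simp only
    omega
  have e4 : (w.drop (k + 1)).countP (· ≤ k) ≤ w.length - (k + 1) := by
    have := List.countP_le_length (p := (· ≤ k)) (l := w.drop (k + 1))
    simpa using this
  have e5 : A.countP (· ≤ k) ≤ A.length := List.countP_le_length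
  simp only [Nat.zero_le, decide_true, if_true] at e1
  refine ⟨⟨fun x hx => ?_, fun x hx => ?_, ?_⟩, by omega⟩
  · simpa using (List.mem_filter.1 hx).2
  · obtain ⟨y, hy, rfl⟩ := List.mem_map.1 hx
    have : y ≠ 0 := fun e => h0 (e ▸ List.mem_of_mem_drop hy)
    unfold cc
    split_ifs <;> omega
  · unfold aa
    omega

theorem aa_succ {A : List ℕ} (hA : A.Nodup) (c : ℕ) :
    aa A (c + 1) = aa A c + if c + 1 ∈ A then 1 else 0 := by
  unfold aa
  induction A with
  | nil => simp
  | cons x A ih =>
    obtain ⟨h1, h2⟩ := List.nodup_cons.1 hA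
    rw [List.countP_cons, List.countP_cons, ih h2]
    by_cases e : x = c + 1
    · subst e
      simp [h1]
    · have : (c + 1 ∈ x :: A) ↔ c + 1 ∈ A := by
        simp only [List.mem_cons]
        constructor
        · rintro (q | q)
          · omega
          · exact q
        · exact Or.inr
      simp only [this, decide_eq_true_eq]
      split_ifs <;> omega

def zz (A : List ℕ) (S : Finset (List ℕ)) (k : ℕ) : ℕ :=
  (∑ D ∈ S.image (bs k), wt k D) * (k - aa A k).factorial

theorem zz_step {n N c : ℕ} {A : List ℕ} {S : Finset (List ℕ)} (h : Cl n A S)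
    (hn : N + 1 + A.length = n) (hc : c + 2 ≤ N) : zz A S c ≤ zz A S (c + 1) := by
  rcases S.eq_empty_or_nonempty with rfl | ⟨w0, hw0⟩
  · simp [zz]
  have hA := (cl_facts (h w0 hw0)).2.1
  have h1 : ∀ w ∈ S, c + 2 ≤ w.length ∧ 0 ∉ w := fun w hw => by
    have := cl_facts (h w hw)
    exact ⟨by omega, this.2.2.1⟩
  have h2 : ∀ D ∈ S.image (bs (c + 1)), Wf (c + 1) (aa A (c + 1)) D := fun D hD => by
    obtain ⟨w, hw, rfl⟩ := mem_image.1 hD
    exact (wf_bs (h w hw) (by omega) (h1 w hw).1).1
  have h3 := aa_succ hA c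
  have h4 := aa_le (k := c) (h w0 hw0) (by omega)
  unfold zz
  by_cases q : c + 1 ∈ A
  · rw [if_pos q] at h3
    rw [h3, Nat.add_sub_add_right]
    apply Nat.mul_le_mul_right
    refine le_trans (stage1 _ S h1) (le_of_eq ?_)
    have e : S.image (al (c + 1)) = S.image (bs (c + 1)) := image_congr (fun w hw =>
      al_eq_bs (fun x => (((cl_facts (h w hw)).2.2.2.2.2 _ (by omega) (by omega)).1 x) q))
    rw [e]
    exact sum_congr rfl (fun D hD => UW_wt c (by have := (h2 D hD).2.2; omega))
  · rw [if_neg q, add_zero] at h3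
    have t := tr (c := c) (fun _ => True) (wt c) S h1 (fun w hw =>
      ⟨(cl_facts (h w hw)).1, ((cl_facts (h w hw)).2.2.2.2.2 _ (by omega) (by omega)).2 q, trivial⟩)
    have t2 := sum_le_sum (fun D hD => TW_le (fun _ => True) (h2 D hD))
    rw [← mul_sum, h3] at t2
    rw [h3, Nat.succ_sub h4, Nat.factorial_succ, ← mul_assoc]
    apply Nat.mul_le_mul_right
    rw [Nat.succ_sub h4] at t2
    rw [mul_comm]
    exact t.trans t2

theorem card_le_zz {n N : ℕ} {A : List ℕ} {S : Finset (List ℕ)} (h : Cl n A S)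
    (hn : N + 1 + A.length = n) : ∀ k, k + 1 ≤ N → S.card ≤ zz A S k := by
  intro k
  induction k with
  | succ k ih => exact fun hk => (ih (by omega)).trans (zz_step h hn hk)
  | zero =>
    intro hk
    have e : ∀ w ∈ S, (bs 0 w).1 ++ (bs 0 w).2 = w ∧ (bs 0 w).1.length = 1 := by
      intro w hw
      obtain ⟨-, -, h0, -, hl, -⟩ := cl_facts (h w hw)
      have e1 : (bs 0 w).1 = w.take 1 := List.filter_eq_self.2 (fun x hx => by
        have : x ≠ 0 := fun e => h0 (e ▸ List.mem_of_mem_take hx)
        simp; omega)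
      have e2 : (bs 0 w).2 = w.drop 1 := by
        unfold bs
        conv_rhs => rw [← List.map_id (w.drop 1)]
        apply List.map_congr_left
        intro x hx
        have : x ≠ 0 := fun e => h0 (e ▸ List.mem_of_mem_drop hx)
        simp only [cc, id]
        split_ifs <;> omega
      rw [e1, e2, List.take_append_drop, List.length_take]
      exact ⟨rfl, by omega⟩
    unfold zz
    rw [Nat.zero_sub, Nat.factorial_zero, mul_one, sum_image (fun a ha b hb q => by
      rw [← (e a ha).1, ← (e b hb).1, q]), card_eq_sum_ones]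
    apply sum_le_sum
    intro w hw
    simp [wt, (e w hw).2]

theorem card_le_fact {S : Finset (List ℕ)} {L : List ℕ} (h : ∀ w ∈ S, w.Perm L) :
    S.card ≤ L.length.factorial := by
  rw [← List.length_permutations]
  refine le_trans (card_le_card (fun w hw => ?_)) (List.toFinset_card_le _)
  exact List.mem_toFinset.2 (List.mem_permutations.2 (h w hw))

theorem cl_perm {n : ℕ} {A w w' : List ℕ} (h : (w ++ 0 :: A).Perm (List.range n))
    (h' : (w' ++ 0 :: A).Perm (List.range n)) : w.Perm w' :=
  (List.perm_append_right_iff _).1 (h.trans h'.symm)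

theorem zz_top {n k : ℕ} {A : List ℕ} {S : Finset (List ℕ)} (h : Cl n A S)
    (hn : k + 1 + 1 + A.length = n) (hk : 1 ≤ k) : zz A S k ≤ (k + 1).factorial := by
  rcases S.eq_empty_or_nonempty with rfl | ⟨w0, hw0⟩
  · simp [zz]
  have hl : ∀ w ∈ S, w.length = k + 1 := fun w hw => by
    have := (cl_facts (h w hw)).2.2.2.2.1
    omega
  have e : ∀ w ∈ S, bs k w = (w.filter (k + 1 ≤ ·), []) := fun w hw => by
    unfold bs
    rw [List.take_of_length_le (hl w hw).le, List.drop_of_length_le (hl w hw).le]
    rfl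
  have hr : ∀ w ∈ S, (bs k w).1.length = aa A k + 1 := fun w hw => by
    have := (wf_bs (h w hw) hk (hl w hw).ge).1.2.2
    rw [e w hw] at this ⊢
    simp only [List.count_nil] at this ⊢
    omega
  have h4 := aa_le (k := k) (h w0 hw0) (by omega)
  have c1 : (S.image (bs k)).card ≤ (aa A k + 1).factorial := by
    rw [← hr w0 hw0, ← card_image_of_injOn (f := Prod.fst)]
    · apply card_le_fact
      intro O hO
      obtain ⟨D, hD, rfl⟩ := mem_image.1 hO
      obtain ⟨w, hw, rfl⟩ := mem_image.1 hD
      rw [e w hw, e w0 hw0]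
      exact (cl_perm (h w hw) (h w0 hw0)).filter _
    · intro D hD D' hD' q
      obtain ⟨w, hw, rfl⟩ := mem_image.1 (mem_coe.1 hD)
      obtain ⟨w', hw', rfl⟩ := mem_image.1 (mem_coe.1 hD')
      rw [e w hw, e w' hw'] at q ⊢
      simp only at q
      rw [q]
  unfold zz
  rw [sum_congr rfl (g := fun _ => (k + 1).choose (aa A k + 1)) (fun D hD => by
    obtain ⟨w, hw, rfl⟩ := mem_image.1 hD
    simp [wt, hr w hw]), sum_const, smul_eq_mul,
    ← Nat.choose_mul_factorial_mul_factorial (n := k + 1) (k := aa A k + 1) (by omega),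
    Nat.add_sub_add_right, mul_comm ((k + 1).choose _)]
  exact Nat.mul_le_mul_right _ (Nat.mul_le_mul_right _ c1)

end Pool.Agent.P.MP_79f629_co.Second
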