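import Pool.Agent.P.MP_79f629_co.SChain

set_option autoImplicit false

/-! Summable decay of the success probability. -/

namespace Pool.Agent.P.MP_79f629_co.Second

open Pool.Agent.P.MP_79f629_co Finset

theorem choose_ineq {d r m : ℕ} (hr : r ≤ m) (hm : 20 * m ≤ d + 1) (h1 : 1 ≤ r) :
    5 * ((d + 1) * ((d + 2) * (d + 3).choose r)) ≤
      2 * (m + 3) * ((3 * r + 2) * (d + 2).choose (r + 2)) := by
  obtain ⟨e, rfl⟩ : ∃ e, d = r + e := ⟨d - r, by omega⟩
  have e1 := Nat.choose_succ_right_eq (r + e + 2) (r + 1)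
  have e2 := Nat.choose_succ_right_eq (r + e + 2) r
  have e3 := Nat.choose_mul_succ_eq (r + e + 2) r
  rw [show r + e + 2 - (r + 1) = e + 1 by omega] at e1
  rw [show r + e + 2 - r = e + 2 by omega] at e2
  rw [show r + e + 2 + 1 - r = e + 3 by omega] at e3
  generalize (r + e + 2).choose (r + 1 + 1) = y at e1 ⊢
  generalize (r + e + 2).choose (r + 1) = y1 at e1 e2
  generalize (r + e + 2).choose r = y0 at e2 e3
  generalize (r + e + 2 + 1).choose r = x at e3 ⊢
  have e4 : y * ((r + 2) * (r + 1) * (r + e + 3)) = x * ((e + 3) * (e + 2) * (e + 1)) := by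
    calc y * ((r + 2) * (r + 1) * (r + e + 3)) = (y * (r + 1 + 1)) * ((r + 1) * (r + e + 3)) := by ring
      _ = (y1 * (r + 1)) * ((e + 1) * (r + e + 3)) := by rw [e1]; ring
      _ = (y0 * (r + e + 2 + 1)) * ((e + 2) * (e + 1)) := by rw [e2]; ring
      _ = _ := by rw [e3]; ring
  have a1 : 19 * (r + e + 1) ≤ 20 * (e + 1) := by omega
  have a2 : 19 * (r + e + 2) ≤ 20 * (e + 2) := by omega
  have a3 : 19 * (r + e + 3) ≤ 20 * (e + 3) := by omega
  have a4 := Nat.mul_le_mul (Nat.mul_le_mul a1 a2) a3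
  have a5 : 5 * ((r + e + 1) * (r + e + 2) * (r + e + 3)) ≤ 6 * ((e + 3) * (e + 2) * (e + 1)) := by
    have q1 : 19 * (r + e + 1) * (19 * (r + e + 2)) * (19 * (r + e + 3)) =
        6859 * ((r + e + 1) * (r + e + 2) * (r + e + 3)) := by ring
    have q2 : 20 * (e + 1) * (20 * (e + 2)) * (20 * (e + 3)) =
        8000 * ((e + 3) * (e + 2) * (e + 1)) := by ring
    rw [q1, q2] at a4
    omega
  have a6 : 3 * ((r + 2) * (r + 1)) ≤ (m + 3) * (3 * r + 2) := by nlinarith
  apply Nat.le_of_mul_le_mul_right (c := (r + 2) * (r + 1) * (r + e + 3)) _ (by positivity)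
  calc 5 * ((r + e + 1) * ((r + e + 2) * x)) * ((r + 2) * (r + 1) * (r + e + 3))
      = (5 * ((r + e + 1) * (r + e + 2) * (r + e + 3))) * (x * ((r + 2) * (r + 1))) := by ring
    _ ≤ (6 * ((e + 3) * (e + 2) * (e + 1))) * (x * ((r + 2) * (r + 1))) :=
        Nat.mul_le_mul_right _ a5
    _ = (3 * ((r + 2) * (r + 1))) * (2 * (x * ((e + 3) * (e + 2) * (e + 1)))) := by ring
    _ ≤ ((m + 3) * (3 * r + 2)) * (2 * (x * ((e + 3) * (e + 2) * (e + 1)))) :=
        Nat.mul_le_mul_right _ a6
    _ = _ := by rw [← e4]; ring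

theorem al_tail {k : ℕ} (hk : 1 ≤ k) {w : List ℕ} (hw : k + 1 ≤ w.length) (A : List ℕ) :
    al k (w ++ 0 :: A) = ((al k w).1, (al k w).2 ++ 0 :: A.map (cc k)) := by
  unfold al
  rw [List.take_append_of_le_length hw, List.drop_append_of_le_length hw, List.map_append,
    List.map_cons]
  have : cc k 0 = 0 := by
    unfold cc; split_ifs <;> omega
  rw [this]

theorem zz_two {n N d m : ℕ} {A : List ℕ} {S : Finset (List ℕ)} (h : Cl n A S)
    (hs : ∀ w ∈ S, Succ n (w ++ 0 :: A)) (hn : N + 1 + A.length = n) (hd : 1 ≤ d)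
    (hc : d + 3 ≤ N) (h1 : d + 1 ∉ A) (h2 : d + 2 ∉ A) (ha : 1 ≤ aa A d) (hm : n ≤ m + d + 3)
    (hm' : 20 * m ≤ d + 1) :
    2 * (m + 3) * zz A S d + 5 * zz A S (d + 2) ≤ 2 * (m + 3) * zz A S (d + 2) := by
  rcases S.eq_empty_or_nonempty with rfl | ⟨w0, hw0⟩
  · simp [zz]
  obtain ⟨-, hA, -, hA0, -, -⟩ := cl_facts (h w0 hw0)
  have a1 : aa A (d + 1) = aa A d := by rw [aa_succ hA, if_neg h1, add_zero]
  have a2 : aa A (d + 2) = aa A d := by rw [aa_succ hA, if_neg h2, add_zero, a1]
  have h4 := aa_le (k := d) (h w0 hw0) (by omega)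
  have hl : ∀ w ∈ S, w.length = N := fun w hw => by
    have := (cl_facts (h w hw)).2.2.2.2.1
    omega
  have eT : A.map (cc (d + 1)) = A.map (cc (d + 2)) := map_not_mem h1
  have t1 : ∀ x ∈ A.map (cc (d + 2)), x = 1 ∨ d + 2 < x := fun x hx => by
    obtain ⟨y, hy, rfl⟩ := List.mem_map.1 hx
    have b0 : y ≠ 0 := fun e => hA0 (e ▸ hy)
    have b2 : y ≠ d + 2 := fun e => h2 (e ▸ hy)
    unfold cc
    split_ifs <;> omega
  have t2 : (A.map (cc (d + 2))).count 1 = aa A d := by
    rw [← a1, List.count_eq_countP, List.countP_map]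
    apply List.countP_congr
    intro x hx
    have : x ≠ 0 := fun e => hA0 (e ▸ hx)
    simp only [Function.comp, cc, beq_iff_eq, decide_eq_true_eq]
    split_ifs <;> omega
  have okk : ∀ k, 2 ≤ k → k + 1 ≤ N → ∀ w ∈ S, ok k (A.map (cc k)) (al k w) := fun k k2 kN w hw => by
    have := not_bad k2 (by omega) (h w hw) (hs w hw)
    rwa [al_tail (by omega) (by rw [hl w hw]; exact kN)] at this
  have s1 := tr (c := d) (ok (d + 1) (A.map (cc (d + 2)))) (wt d) S
    (fun w hw => ⟨by rw [hl w hw]; omega, (cl_facts (h w hw)).2.2.1⟩)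
    (fun w hw => ⟨(cl_facts (h w hw)).1,
      ((cl_facts (h w hw)).2.2.2.2.2 _ (by omega) (by omega)).2 h1,
      eT ▸ okk (d + 1) (by omega) (by omega) w hw⟩)
  have s2 := tr (c := d + 1) (ok (d + 2) (A.map (cc (d + 2))))
    (TW (d + 1) (ok (d + 1) (A.map (cc (d + 2)))) (wt d)) S
    (fun w hw => ⟨by rw [hl w hw]; omega, (cl_facts (h w hw)).2.2.1⟩)
    (fun w hw => ⟨(cl_facts (h w hw)).1,
      ((cl_facts (h w hw)).2.2.2.2.2 _ (by omega) (by omega)).2 h2,
      okk (d + 2) (by omega) (by omega) w hw⟩)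
  have s3 : ∀ D ∈ S.image (bs (d + 2)), 2 * (m + 3) * TW (d + 2) (ok (d + 2) (A.map (cc (d + 2))))
      (TW (d + 1) (ok (d + 1) (A.map (cc (d + 2)))) (wt d)) D +
      5 * ((d + 1 - aa A d) * ((d + 2 - aa A d) * wt (d + 2) D)) ≤
      2 * (m + 3) * ((d + 1 - aa A d) * ((d + 2 - aa A d) * wt (d + 2) D)) := fun D hD => by
    obtain ⟨w, hw, rfl⟩ := mem_image.1 hD
    obtain ⟨w1, w2⟩ := wf_bs (k := d + 2) (h w hw) (by omega) (by rw [hl w hw]; omega)
    rw [a2] at w1
    have g1 := TW_two hd ha t1 t2 w1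
    have g2 := choose_ineq (d := d) (r := (bs (d + 2) w).1.length) (m := m) (by omega) hm'
      (by have := w1.2.2; omega)
    have g3 : (d + 1 - aa A d) * ((d + 2 - aa A d) * wt (d + 2) (bs (d + 2) w)) ≤
        (d + 1) * ((d + 2) * (d + 3).choose (bs (d + 2) w).1.length) :=
      Nat.mul_le_mul (by omega) (Nat.mul_le_mul (by omega) le_rfl)
    have g4 := Nat.mul_le_mul_left (2 * (m + 3)) g1
    rw [mul_add] at g4
    omega
  have s4 := sum_le_sum s3
  simp only [sum_add_distrib, ← mul_sum] at s4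
  have s5 := Nat.mul_le_mul_left (2 * (m + 3)) (s1.trans s2)
  unfold zz
  have f : (d + 2 - aa A d).factorial =
      (d + 1 - aa A d) * (d + 2 - aa A d) * (d - aa A d).factorial := by
    obtain ⟨e, he⟩ := Nat.exists_eq_add_of_le h4
    have q1 : d + 2 - aa A d = e + 2 := by omega
    have q2 : d + 1 - aa A d = e + 1 := by omega
    have q3 : d - aa A d = e := by omega
    rw [q1, q2, q3, Nat.factorial_succ, Nat.factorial_succ]
    ring
  rw [a2, f]
  have s6 := Nat.mul_le_mul_right (d - aa A d).factorial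
    ((Nat.add_le_add_right s5 _).trans s4)
  convert s6 using 1 <;> ring

theorem bern {x : ℝ} (hx : 0 ≤ x) : 1 - (5 / 4) / (x + 1) ≤ (x / (x + 1)) ^ (5 / 4 : ℝ) := by
  have h := one_add_mul_self_le_rpow_one_add (s := -1 / (x + 1)) (p := 5 / 4)
    (by rw [le_div_iff₀ (by linarith)]; linarith) (by norm_num)
  have e : 1 + -1 / (x + 1) = x / (x + 1) := by field_simp; ring
  rw [e] at h
  refine le_trans (le_of_eq ?_) h
  ring

theorem aa_mono (A : List ℕ) {a b : ℕ} (h : a ≤ b) : aa A a ≤ aa A b :=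
  List.countP_mono_left (fun x _ hx => by simp at hx ⊢; omega)

theorem zz_iter {n N a : ℕ} {A : List ℕ} {S : Finset (List ℕ)} (h : Cl n A S) (hA : A.Nodup)
    (hs : ∀ w ∈ S, Succ n (w ++ 0 :: A)) (hn : N + 1 + A.length = n) (ha : a ∈ A) (ha1 : 1 ≤ a) :
    ∀ i k, k + 1 + 2 * i = N → a ≤ k → 20 * (A.length + 2 * i) + 2 * i ≤ N ∨ i = 0 →
      ∃ b : ℕ, b ≤ i ∧ b + aa A k ≤ A.length ∧ (zz A S k : ℝ) ≤
        N.factorial * (((A.length + 1 + b : ℕ) : ℝ) / (A.length + 1 + i : ℕ)) ^ (5 / 4 : ℝ) := by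
  intro i
  induction i with
  | zero =>
    intro k hk hak _
    refine ⟨0, le_rfl, by simpa [aa] using List.countP_le_length, ?_⟩
    rw [div_self (by positivity), Real.one_rpow, mul_one]
    have := zz_top (k := k) h (by omega) (by omega)
    rw [show k + 1 = N by omega] at this
    exact_mod_cast this
  | succ i ih =>
    intro k hk hak hi
    obtain ⟨b, b1, b2, b3⟩ := ih (k + 2) (by omega) (by omega) (by omega)
    have p0 : (0 : ℝ) < ((A.length + 1 + i : ℕ) : ℝ) := by positivity
    have p1 : ((A.length + 1 + (i + 1) : ℕ) : ℝ) = ((A.length + 1 + i : ℕ) : ℝ) + 1 := by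
      push_cast; ring
    have hN : (0 : ℝ) ≤ N.factorial := by positivity
    by_cases q : k + 1 ∈ A ∨ k + 2 ∈ A
    · refine ⟨b + 1, by omega, ?_, ?_⟩
      · have u1 := aa_succ hA k
        have u2 := aa_succ hA (k + 1)
        rcases q with q | q
        · rw [if_pos q] at u1
          have : aa A (k + 1) ≤ aa A (k + 2) := aa_mono A (by omega)
          omega
        · rw [if_pos q] at u2
          have : aa A k ≤ aa A (k + 1) := aa_mono A (by omega)
          have e : aa A (k + 1 + 1) = aa A (k + 2) := rfl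
          omega
      · have z : zz A S k ≤ zz A S (k + 2) :=
          (zz_step h hn (by omega)).trans (zz_step h hn (by omega))
        refine le_trans (le_trans (by exact_mod_cast z) b3) (mul_le_mul_of_nonneg_left ?_ hN)
        apply Real.rpow_le_rpow (by positivity) _ (by norm_num)
        rw [div_le_div_iff₀ p0 (by positivity)]
        have : (b : ℝ) ≤ i := by exact_mod_cast b1
        push_cast
        nlinarith
    · refine ⟨b, by omega, ?_, ?_⟩
      · have : aa A k ≤ aa A (k + 2) := aa_mono A (by omega)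
        omega
      · have z := zz_two (d := k) (m := A.length + 1 + 2 * i) h hs hn (by omega) (by omega)
          (fun e => q (Or.inl e)) (fun e => q (Or.inr e))
          (List.countP_pos_iff.2 ⟨a, ha, by simpa using hak⟩) (by omega) (by omega)
        have z' : 2 * ((A.length + 1 + 2 * i : ℝ) + 3) * zz A S k + 5 * zz A S (k + 2) ≤
            2 * ((A.length + 1 + 2 * i : ℝ) + 3) * zz A S (k + 2) := by exact_mod_cast z
        have z1 : (zz A S k : ℝ) ≤ (1 - (5 / 4) / (((A.length + 1 + i : ℕ) : ℝ) + 1)) *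
            zz A S (k + 2) := by
          have z0 : (0 : ℝ) ≤ zz A S (k + 2) := by positivity
          have l0 : (0 : ℝ) ≤ A.length := by positivity
          have i0 : (0 : ℝ) ≤ i := by positivity
          have z2 : (zz A S k : ℝ) ≤ (1 - 5 / (2 * ((A.length + 1 + 2 * i : ℝ) + 3))) *
              zz A S (k + 2) := by
            rw [sub_mul, one_mul, div_mul_eq_mul_div, le_sub_comm, div_le_iff₀ (by positivity)]
            linarith
          refine z2.trans (mul_le_mul_of_nonneg_right ?_ z0)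
          apply sub_le_sub_left
          rw [div_le_div_iff₀ (by positivity) (by positivity)]
          push_cast
          nlinarith
        have z3 := mul_le_mul (bern p0.le) b3 (by positivity) (by positivity)
        refine (z1.trans z3).trans (le_of_eq ?_)
        rw [mul_left_comm, ← Real.mul_rpow (by positivity) (by positivity), p1]
        congr 2
        field_simp

theorem card_decay {n a : ℕ} {A : List ℕ} {S : Finset (List ℕ)} (h : Cl n A S)
    (hs : ∀ w ∈ S, Succ n (w ++ 0 :: A)) (ha : a ∈ A) :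
    (S.card : ℝ) ≤ (n - 1 - A.length).factorial *
      ((126 * A.length : ℝ) / (n - a : ℕ)) ^ (5 / 4 : ℝ) := by
  rcases S.eq_empty_or_nonempty with rfl | ⟨w0, hw0⟩
  · simp only [card_empty, Nat.cast_zero]; positivity
  obtain ⟨-, hA, -, hA0, hn, -⟩ := cl_facts (h w0 hw0)
  have an : a < n := List.mem_range.1 ((h w0 hw0).subset (by simp [ha]))
  have a1 : 1 ≤ a := Nat.pos_of_ne_zero (fun e => hA0 (e ▸ ha))
  have j1 : 1 ≤ A.length := List.length_pos_of_mem ha
  have eN : n - 1 - A.length = w0.length := by omega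
  have p0 : (0 : ℝ) < ((n - a : ℕ) : ℝ) := by exact_mod_cast (by omega : 0 < n - a)
  rw [eN]
  by_cases q : n - a ≤ 126 * A.length
  · have c1 : (S.card : ℝ) ≤ w0.length.factorial := by
      exact_mod_cast card_le_fact (fun w hw => cl_perm (h w hw) (h w0 hw0))
    refine c1.trans (le_mul_of_one_le_right (by positivity) (Real.one_le_rpow ?_ (by norm_num)))
    rw [one_le_div p0]
    exact_mod_cast q
  · obtain ⟨I, hI⟩ : ∃ I, I = min ((w0.length - 1 - a) / 2) ((w0.length - 20 * A.length) / 42) :=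
      ⟨_, rfl⟩
    obtain ⟨b, b1, b2, b3⟩ := zz_iter h hA hs hn ha a1 I (w0.length - 1 - 2 * I) (by omega)
      (by omega) (by omega)
    have c1 := card_le_zz h hn (w0.length - 1 - 2 * I) (by omega)
    refine le_trans (le_trans (by exact_mod_cast c1) b3)
      (mul_le_mul_of_nonneg_left ?_ (by positivity))
    apply Real.rpow_le_rpow (by positivity) _ (by norm_num)
    rw [div_le_div_iff₀ (by positivity) p0]
    have g1 : A.length + 1 + b ≤ 3 * A.length := by omega
    have g2 : n - a ≤ 42 * (A.length + 1 + I) := by omega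
    have g3 := Nat.mul_le_mul g1 g2
    have g4 : (A.length + 1 + b) * (n - a) ≤ 126 * A.length * (A.length + 1 + I) := by linarith
    exact_mod_cast g4

end Pool.Agent.P.MP_79f629_co.Second
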