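import Pool.Agent.P.MP_79f629_co.SDecay
import Pool.Agent.P.MP_79f629_co.Main

set_option autoImplicit false

/-! Success depends only on the projection when no small letter follows `0`. -/

namespace Pool.Agent.P.MP_79f629_co.Second

open Pool.Agent.P.MP_79f629_co Finset

theorem succ_iter {n : ℕ} (M : ℕ) {l : List ℕ} (h : Succ n (PP^[M] l)) : Succ n l := by
  obtain ⟨N, h⟩ := h
  exact ⟨N + M, by rw [Function.iterate_add_apply]; exact h⟩

theorem perm_iter (M : ℕ) (l : List ℕ) : (PP^[M] l).Perm l := by
  induction M with
  | zero => exact List.Perm.refl _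
  | succ M ih => rw [Function.iterate_succ_apply']; exact (PP_perm _).trans ih

theorem home_succ {n : ℕ} (hn : 0 < n) {l : List ℕ} (hH : Home n l) : Succ n l := by
  obtain ⟨N, l', hN⟩ := terminates hn _ _ hH.1 rfl
  have hH' : Home n (PP^[N] l) := by
    clear hN
    induction N with
    | zero => exact hH
    | succ N ih => rw [Function.iterate_succ_apply']; exact ih.step
  refine ⟨N, ?_⟩
  obtain ⟨g1, v, g2⟩ := hH'
  cases v with
  | nil =>
    obtain ⟨m, rfl⟩ : ∃ m, n = m + 1 := ⟨n - 1, by omega⟩
    rw [g2, List.range_eq_range', List.range'_succ]; simp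
  | cons z v =>
    exfalso
    have hnd := g1.nodup_iff.2 List.nodup_range
    rw [hN] at g2
    simp only [List.cons_append, List.cons.injEq] at g2
    rw [hN, g2.2] at hnd
    simp at hnd

theorem PP_small {a z : ℕ} {w : List ℕ} (hw : w.length + 1 = a) (hz : z < a) (b : List ℕ) :
    PP (z :: (w ++ b)) = ins z z w ++ b ∧ (ins z z w).length = a ∧
      (ins z z w).filter (a ≤ ·) = (z :: w).filter (a ≤ ·) := by
  refine ⟨PP_le (k := w.length) rfl (by omega), by rw [length_ins, hw], ?_⟩
  have : ¬ a ≤ z := by omega
  unfold ins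
  simp only [List.filter_append, List.filter_cons, this, decide_false, Bool.false_eq_true,
    if_false]
  rw [← List.filter_append, List.take_append_drop]

theorem PP_big {z : ℕ} {w : List ℕ} (hz : w.length ≤ z) (b : List ℕ) :
    PP (z :: (w ++ b)) = w ++ ins (z - w.length) z b := by
  obtain ⟨d, rfl⟩ := Nat.exists_eq_add_of_le hz
  show (w ++ b).take _ ++ _ :: (w ++ b).drop _ = _
  rw [List.take_length_add_append, List.drop_length_add_append]
  simp [ins]

theorem PP_big0 {a z : ℕ} {w : List ℕ} (hw : w.length + 1 = a) (hz : a ≤ z) (t : List ℕ) :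
    PP (z :: (w ++ 0 :: t)) = w ++ 0 :: ins (z - a) z t := by
  rw [PP_big (by omega), show z - w.length = (z - a) + 1 by omega]
  rfl

theorem end_of_succ {n a : ℕ} (ha : 1 ≤ a) {t : List ℕ} (ht : ∀ x ∈ t, a ≤ x) :
    ∀ (N : ℕ) (w : List ℕ), w.length = a → (w ++ 0 :: t).Perm (List.range n) →
      PP^[N] (w ++ 0 :: t) = List.range n →
      ∃ y r, w.filter (a ≤ ·) = y :: r ∧ ins (y - a) y t = List.range' a (n - a) := by
  intro N
  induction N with
  | zero =>
    intro w hw hp h
    exfalso
    have h1 := List.pairwise_lt_range (n := n)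
    simp only [Function.iterate_zero, id] at h
    rw [← h] at h1
    cases w with
    | nil => simp at hw; omega
    | cons z w =>
      have := (List.pairwise_cons.1 h1).1 0 (by simp)
      omega
  | succ N ih =>
    intro w hw hp h
    cases w with
    | nil => simp at hw; omega
    | cons z w =>
      rw [Function.iterate_succ_apply, List.cons_append] at h
      have hp' := (PP_perm _).trans hp
      rw [List.cons_append] at hp'
      by_cases q : z < a
      · obtain ⟨e1, e2, e3⟩ := PP_small (w := w) hw q (0 :: t)
        rw [e1] at h hp'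
        rw [← e3]
        exact ih _ e2 hp' h
      · have q' : a ≤ z := by omega
        rw [PP_big0 hw q'] at h hp'
        refine ⟨z, w.filter (a ≤ ·), by simp [q'], ?_⟩
        have s1 := sorted_of_succ ⟨N, h⟩ (List.sublist_append_right w _)
        obtain ⟨-, n1, -, -, n2, -⟩ := cl_facts hp'
        have s2 : ins (z - a) z t ⊆ List.range' a (n - a) := fun x hx => by
          have b1 : x < n := List.mem_range.1 (hp'.subset (by simp [hx]))
          have b2 : a ≤ x := by
            rcases mem_ins'.1 hx with e | e
            · omega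
            · exact ht x e
          rw [List.mem_range'_1]
          omega
        have s3 := (List.subperm_of_subset n1 s2).perm_of_length_le (by
          simp only [List.length_cons] at hw
          rw [List.length_range']; omega)
        exact s3.eq_of_pairwise (le := (· < ·)) (fun x y _ _ a b => by omega) s1
          (List.pairwise_lt_range' ..)

theorem succ_of_end {n a y : ℕ} (ha : 1 ≤ a) {t r : List ℕ}
    (ht : ins (y - a) y t = List.range' a (n - a)) :
    ∀ (m : ℕ) (w : List ℕ), w.length = a → (w ++ 0 :: t).Perm (List.range n) →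
      2 ^ n - pot n (w ++ 0 :: t) = m → w.filter (a ≤ ·) = y :: r → Succ n (w ++ 0 :: t) := by
  intro m
  induction m using Nat.strong_induction_on with
  | _ m ih =>
    intro w hw hp hm hf
    cases w with
    | nil => simp at hw; omega
    | cons z w =>
      have hp' := (PP_perm _).trans hp
      have z0 : z ≠ 0 := fun e => (cl_facts hp).2.2.1 (by simp [e])
      rw [List.cons_append] at hp hp' hm ⊢
      rw [← succ_PP_iff]
      by_cases q : z < a
      · obtain ⟨e1, e2, e3⟩ := PP_small (w := w) hw q (0 :: t)
        have h1 := pot_PP hp z0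
        have h2 := pot_lt n (PP (z :: (w ++ 0 :: t)))
        rw [e1] at h1 h2 hp' ⊢
        exact ih _ (by omega) _ e2 hp' rfl (e3.trans hf)
      · have q' : a ≤ z := by omega
        simp only [List.filter_cons, q', decide_true, if_true, List.cons.injEq] at hf
        rw [PP_big0 hw q'] at hp' ⊢
        have := (cl_facts hp').2.2.2.2.1
        simp only [List.length_cons] at hw
        refine home_succ (by omega) ⟨hp', w, ?_⟩
        rw [hf.1, ht, hw]
        congr 3
        omega

theorem follow {n k : ℕ} : ∀ (m : ℕ) (l : List ℕ), l.Perm (List.range n) → k < n →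
    0 ∈ (al k l).2 → 1 ≤ k → 2 ^ n - pot n l = m →
    ∃ M z l1, PP^[M] l = z :: l1 ∧ k ≤ z ∧ al k (z :: l1) = al k l := by
  intro m
  induction m using Nat.strong_induction_on with
  | _ m ih =>
    intro l hl hk h0 k1 hm
    cases l with
    | nil => simp [al] at h0
    | cons z l =>
      by_cases q : k ≤ z
      · exact ⟨0, z, l, rfl, q, rfl⟩
      · have z0 : z ≠ 0 := by
          rintro rfl
          obtain ⟨x, hx, e⟩ := List.mem_map.1 h0
          have : x = 0 := by
            unfold cc at e
            split_ifs at e <;> omega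
          subst this
          exact (List.nodup_cons.1 (hl.nodup_iff.2 List.nodup_range)).1 (List.mem_of_mem_drop hx)
        have h1 := pot_PP hl z0
        have h2 := pot_lt n (PP (z :: l))
        have g := le_length_of_perm hl
        have e := al_PP_lt (k := k) (z := z) (l := l) (by omega) (by omega)
        obtain ⟨M, z', l1, a1, a2, a3⟩ := ih _ (by omega) (PP (z :: l)) ((PP_perm _).trans hl) hk
          (e ▸ h0) k1 rfl
        exact ⟨M + 1, z', l1, a1, a2, a3.trans e⟩

def sf (d x : ℕ) : ℕ := if 2 ≤ x then x + d else x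

def Sf (d : ℕ) (s : St) : St := (s.1.map (sf d), s.2.map (sf d))

theorem sf_inj (d : ℕ) : Function.Injective (sf d) := by
  intro x y h
  unfold sf at h
  split_ifs at h <;> omega

theorem sf_big {d x : ℕ} (h : 2 ≤ x) : sf d x = x + d := if_pos h

theorem map_ins (f : ℕ → ℕ) (i z : ℕ) (L : List ℕ) : (ins i z L).map f = ins i (f z) (L.map f) := by
  simp [ins]

theorem map_sf_range (d m : ℕ) : (List.range' 2 m).map (sf d) = List.range' (2 + d) m := by
  apply List.ext_getElem
  · simp
  · intro i h1 h2
    simp only [List.getElem_map, List.getElem_range']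
    rw [sf_big (by omega)]
    omega

theorem AA_Sf (d : ℕ) {s : St} (h : ∀ x ∈ s.1, 2 ≤ x) : AA (2 + d) (Sf d s) = Sf d (AA 2 s) := by
  obtain ⟨O, W⟩ := s
  cases O with
  | nil => rfl
  | cons z O =>
    have hz : 2 ≤ z := h z List.mem_cons_self
    by_cases e : z = 2
    · subst e
      simp [Sf, AA, sf]
    · have e1 : z + d - (2 + d + 1) = z - (2 + 1) := by omega
      have e2 : ((W.map (sf d)).take 1).filter (2 + d ≤ ·) =
          ((W.take 1).filter (2 ≤ ·)).map (sf d) := by
        rw [← List.map_take, List.filter_map]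
        congr 1
        apply List.filter_congr
        intro x _
        simp only [Function.comp, sf]
        apply decide_eq_decide.2
        split_ifs <;> omega
      unfold Sf
      rw [AA_cons e, List.map_cons, sf_big hz, AA_cons (by omega), e1, e2]
      simp [sf_big hz]

/-- no forgotten letter after `0` -/
def Post (W : List ℕ) : Prop := ∃ Wa Wb, W = Wa ++ 0 :: Wb ∧ ∀ x ∈ Wb, 2 ≤ x

theorem Post.ins {W : List ℕ} (h : Post W) (j : ℕ) {z : ℕ} (hz : 2 ≤ z) : Post (ins j z W) := by
  obtain ⟨Wa, Wb, rfl, h1⟩ := h
  by_cases hj : j ≤ Wa.length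
  · exact ⟨_, Wb, ins_append hj _, h1⟩
  · obtain ⟨d, rfl⟩ : ∃ d, j = Wa.length + (d + 1) := ⟨j - Wa.length - 1, by omega⟩
    refine ⟨Wa, Second.ins d z Wb, ?_, fun x hx => ?_⟩
    · unfold Second.ins
      rw [List.take_length_add_append, List.drop_length_add_append]; simp
    · rcases mem_ins'.1 hx with e | e
      · omega
      · exact h1 x e

theorem last_step {n d z z0 : ℕ} {l O Wb : List ℕ} (hl : (z :: l).Perm (List.range n))
    (hz : 2 + d ≤ z) (h0 : 2 < z0) (hW : ∀ x ∈ Wb, 2 ≤ x)
    (e : al (2 + d) (z :: l) = Sf d (z0 :: O, 0 :: Wb)) :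
    ∃ w : List ℕ, PP (z :: l) = w ++ 0 :: (ins (z0 - 3) z0 Wb).map (sf d) ∧ w.length = 2 + d ∧
      w.filter (2 + d ≤ ·) = O.map (sf d) ∧ n = 2 + d + (Wb.length + 2) := by
  obtain ⟨g1, g2⟩ := le_length_of_perm hl
  obtain ⟨a, b, rfl, ha⟩ : ∃ a b, l = a ++ b ∧ a.length = 2 + d :=
    ⟨l.take (2 + d), l.drop (2 + d), (List.take_append_drop _ l).symm, by simp; omega⟩
  rw [← List.cons_append, al_append (a := z :: a) (by simp [ha])] at e
  simp only [List.filter_cons, hz, decide_true, if_true, Sf, List.map_cons, Prod.mk.injEq,
    List.cons.injEq] at e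
  obtain ⟨⟨e1, e2⟩, e3⟩ := e
  rw [sf_big h0.le] at e1
  cases b with
  | nil => simp at e3
  | cons x t =>
    simp only [List.map_cons, List.cons.injEq] at e3
    obtain ⟨e3, e4⟩ := e3
    have x0 : x = 0 := by
      unfold cc sf at e3
      split_ifs at e3 <;> omega
    subst x0
    have e5 : t = Wb.map (sf d) := by
      rw [← e4]
      conv_lhs => rw [← List.map_id t]
      apply List.map_congr_left
      intro y hy
      have : cc (2 + d) y ∈ Wb.map (sf d) := e4 ▸ List.mem_map_of_mem hy
      obtain ⟨u, hu, eu⟩ := List.mem_map.1 this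
      rw [sf_big (hW u hu)] at eu
      have := hW u hu
      unfold cc at eu ⊢
      simp only [id]
      split_ifs at eu ⊢ <;> omega
    refine ⟨a, ?_, ha, e2, ?_⟩
    · rw [PP_big (by omega), show z - a.length = (z0 - 3) + 1 by omega, map_ins, sf_big h0.le,
        e1, e5]
      rfl
    · rw [e5] at g2
      simp at g2
      omega

theorem dep {n n' d d' : ℕ} (hn : 2 + d < n) (hn' : 2 + d' < n') :
    ∀ (N : ℕ) (l l' : List ℕ) (s : St), l.Perm (List.range n) → l'.Perm (List.range n') →
      (∀ x ∈ s.1, 2 ≤ x) → Post s.2 → al (2 + d) l = Sf d s → al (2 + d') l' = Sf d' s →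
      PP^[N] l = List.range n → Succ n' l' := by
  have zero_mem : ∀ (e : ℕ) (s : St), Post s.2 → 0 ∈ (Sf e s).2 := by
    rintro e s ⟨Wa, Wb, h, -⟩
    exact List.mem_map.2 ⟨0, by simp [h], rfl⟩
  intro N
  induction N with
  | zero =>
    intro l l' s _ _ _ hp e _ h
    have := zero_mem d s hp
    simp only [Function.iterate_zero, id] at h
    rw [← e, h] at this
    have := (al_range hn).2 0 this
    omega
  | succ N ih =>
    intro l l' s hl hl' hs hp e e' h
    have hP := (PP_perm l).trans hl
    cases l with
    | nil => exact ih _ l' s hP hl' hs hp e e' h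
    | cons z l =>
      obtain ⟨g1, g2⟩ := le_length_of_perm hl
      by_cases hz : z < 2 + d
      · exact ih _ l' s hP hl' hs hp ((al_PP_lt (by omega) hz).trans e) e' h
      have hz' : 2 + d ≤ z := by omega
      obtain ⟨M, z', l1, a1, a2, a3⟩ := follow (k := 2 + d') _ l' hl' hn'
        (e' ▸ zero_mem d' s hp) (by omega) rfl
      have hl1 : (z' :: l1).Perm (List.range n') := a1 ▸ (perm_iter M l').trans hl'
      apply succ_iter M
      rw [a1, ← succ_PP_iff]
      rw [← a3] at e'
      have b1 := al_PP_ge (k := 2 + d) (by omega) g1 hz'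
      have b2 := al_PP_ge (k := 2 + d') (by omega) (le_length_of_perm hl1).1 a2
      rw [e, AA_Sf d hs] at b1
      rw [e', AA_Sf d' hs] at b2
      have go : Post (AA 2 s).2 → Succ n' (PP (z' :: l1)) := fun q =>
        ih _ _ _ hP ((PP_perm _).trans hl1) (AA_fst_gt hs) q b1 b2 h
      obtain ⟨O, W⟩ := s
      cases O with
      | nil => exact go hp
      | cons z0 O =>
        have z2 : 2 ≤ z0 := hs z0 List.mem_cons_self
        by_cases q : z0 = 2
        · subst q
          exact go (by rw [AA_self]; exact hp)
        obtain ⟨Wa, Wb, hW, hWb⟩ := hp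
        simp only at hW
        subst hW
        cases Wa with
        | cons x Wa =>
          apply go
          rw [List.cons_append, AA_big q]
          exact Post.ins ⟨Wa, Wb, rfl, hWb⟩ _ z2
        | nil =>
          obtain ⟨w, c1, c2, c3, c4⟩ := last_step hl hz' (by omega) hWb e
          obtain ⟨w', c1', c2', c3', c4'⟩ := last_step hl1 a2 (by omega) hWb e'
          rw [Function.iterate_succ_apply, c1] at h
          rw [c1] at hP
          obtain ⟨y, r, f1, f2⟩ := end_of_succ (a := 2 + d) (by omega) (fun x hx => by
            obtain ⟨u, hu, rfl⟩ := List.mem_map.1 hx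
            have : 2 ≤ u := by
              rcases mem_ins'.1 hu with v | v
              · omega
              · exact hWb u v
            rw [sf_big this]; omega) N w c2 hP h
          rw [c3] at f1
          cases O with
          | nil => simp at f1
          | cons y0 O =>
            have y2 : 2 ≤ y0 := hs y0 (by simp)
            simp only [List.map_cons, List.cons.injEq] at f1
            rw [← f1.1, ← map_ins, sf_big y2, show n - (2 + d) = Wb.length + 2 by omega,
              ← map_sf_range, show y0 + d - (2 + d) = y0 - 2 by omega] at f2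
            have f3 := List.map_injective_iff.2 (sf_inj d) f2
            rw [c1']
            refine succ_of_end (a := 2 + d') (y := sf d' y0) (r := O.map (sf d')) (by omega) ?_ _ w'
              c2' (c1' ▸ (PP_perm _).trans hl1) rfl c3'
            rw [← map_ins, sf_big y2, show n' - (2 + d') = Wb.length + 2 by omega,
              ← map_sf_range, show y0 + d' - (2 + d') = y0 - 2 by omega, f3]

end Pool.Agent.P.MP_79f629_co.Second
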