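import Pool.Agent.P.MP_79f629_co.SOne

set_option autoImplicit false

/-! The second order term. -/

namespace Pool.Agent.P.MP_79f629_co.Second

open Pool.Agent.P.MP_79f629_co Finset Filter Topology

def tl0 (l : List ℕ) : List ℕ := (l.dropWhile (· ≠ 0)).tail

theorem tl0_app {w : List ℕ} (h : 0 ∉ w) (A : List ℕ) : tl0 (w ++ 0 :: A) = A := by
  unfold tl0
  induction w with
  | nil => simp
  | cons x w ih =>
    have : x ≠ 0 := fun e => h (by simp [e])
    rw [List.cons_append, List.dropWhile_cons_of_pos (by simpa using this)]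
    exact ih (fun e => h (List.mem_cons_of_mem _ e))

theorem tl0_split {n : ℕ} {l : List ℕ} (h : l.Perm (List.range (n + 1))) :
    ∃ w, l = w ++ 0 :: tl0 l := by
  obtain ⟨w, A, rfl⟩ := List.append_of_mem (h.symm.subset (List.mem_range.2 n.succ_pos))
  exact ⟨w, by rw [tl0_app (cl_facts h).2.2.1]⟩

theorem mem_SA {n : ℕ} {A w : List ℕ} :
    w ∈ SA n A ↔ (w ++ 0 :: A).Perm (List.range n) ∧ Succ n (w ++ 0 :: A) := by
  classical
  unfold SA
  rw [mem_filter, mem_Om]

theorem card_tl0 (n : ℕ) (A : List ℕ) :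
    ((TT (n + 1)).filter (fun l => tl0 l = A)).card = (SA (n + 1) A).card := by
  symm
  apply card_bij (fun w _ => w ++ 0 :: A)
  · intro w hw
    exact mem_filter.2 ⟨mem_TT.2 (mem_SA.1 hw), tl0_app (cl_facts (mem_SA.1 hw).1).2.2.1 A⟩
  · intro w _ v _ h
    exact List.append_cancel_right h
  · intro l hl
    obtain ⟨h1, h2⟩ := mem_filter.1 hl
    obtain ⟨w, hw⟩ := tl0_split (mem_TT.1 h1).1
    rw [h2] at hw
    exact ⟨w, mem_SA.2 (hw ▸ mem_TT.1 h1), hw.symm⟩

def ix (n : ℕ) (l : List ℕ) : ℕ × ℕ := ((tl0 l).length - 1, n + 1 - (tl0 l).headD 0)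

noncomputable def TP (n : ℕ) : Finset (List ℕ) := (TT (n + 2)).filter (fun l => tl0 l ≠ [])

noncomputable def fib (n : ℕ) (p : ℕ × ℕ) : ℕ := ((TP n).filter (fun l => ix n l = p)).card

theorem tail_facts {n j k : ℕ} {l : List ℕ} (h : l ∈ (TP n).filter (fun l => ix n l = (j, k))) :
    ∃ B, tl0 l = (n + 1 - k) :: B ∧ B.length = j ∧ k ≤ n ∧ B.Pairwise (· < ·) ∧
      ∀ x ∈ B, n + 1 - k < x ∧ x < n + 2 := by
  obtain ⟨h1, h2⟩ := mem_filter.1 h
  obtain ⟨h3, h4⟩ := mem_filter.1 h1
  obtain ⟨h5, h6⟩ := mem_TT.1 h3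
  obtain ⟨w, hw⟩ := tl0_split h5
  unfold ix at h2
  generalize tl0 l = A at h2 h4 hw
  subst hw
  cases A with
  | nil => exact absurd rfl h4
  | cons a B =>
    simp only [List.length_cons, Nat.add_sub_cancel, List.headD_cons, Prod.mk.injEq] at h2
    have s := List.pairwise_cons.1 (sorted_of_succ h6 (List.sublist_append_right w _))
    have a0 : a ≠ 0 := fun e => (cl_facts h5).2.2.2.1 (by simp [e])
    have a1 : a < n + 2 := List.mem_range.1 (h5.subset (by simp))
    refine ⟨B, by congr 1; omega, h2.1, by omega, s.2, fun x hx => ⟨?_, ?_⟩⟩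
    · have := s.1 x hx; omega
    · exact List.mem_range.1 (h5.subset (by simp [hx]))

theorem fib_le (n j k : ℕ) : (fib n (j, k) : ℝ) ≤ (if k ≤ n then k.choose j else 0 : ℕ) *
    ((n - j).factorial * ((126 * (j + 1) : ℝ) / (k + 1)) ^ (5 / 4 : ℝ)) := by
  classical
  unfold fib
  set F := (TP n).filter (fun l => ix n l = (j, k)) with hF
  rcases F.eq_empty_or_nonempty with e | ⟨l0, hl0⟩
  · rw [e]; simp only [card_empty, Nat.cast_zero]; positivity
  obtain ⟨-, -, -, hk, -⟩ := tail_facts hl0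
  rw [if_pos hk, card_eq_sum_card_image tl0 F, Nat.cast_sum]
  have c1 : (F.image tl0).card ≤ k.choose j := by
    have e : k = (Ioo (n + 1 - k) (n + 2)).card := by simp; omega
    conv_rhs => rw [e]
    rw [← card_powersetCard]
    apply card_le_card_of_injOn (fun A : List ℕ => A.tail.toFinset)
    · intro A hA
      obtain ⟨l, hl, rfl⟩ := mem_image.1 (mem_coe.1 hA)
      obtain ⟨B, b1, b2, -, b4, b5⟩ := tail_facts hl
      simp only [b1, List.tail_cons, mem_coe, mem_powersetCard]
      refine ⟨fun x hx => mem_Ioo.2 (b5 x (List.mem_toFinset.1 hx)), ?_⟩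
      rw [List.toFinset_card_of_nodup (b4.imp ne_of_lt), b2]
    · intro A hA A' hA' q
      obtain ⟨l, hl, rfl⟩ := mem_image.1 (mem_coe.1 hA)
      obtain ⟨l', hl', rfl⟩ := mem_image.1 (mem_coe.1 hA')
      obtain ⟨B, b1, -, -, b4, -⟩ := tail_facts hl
      obtain ⟨B', b1', -, -, b4', -⟩ := tail_facts hl'
      simp only [b1, b1', List.tail_cons] at q ⊢
      congr 1
      exact (List.perm_of_nodup_nodup_toFinset_eq (b4.imp ne_of_lt) (b4'.imp ne_of_lt)
        q).eq_of_pairwise (le := (· < ·)) (fun x y _ _ a b => by omega) b4 b4'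
  refine le_trans (sum_le_card_nsmul _ _
    ((n - j).factorial * ((126 * (j + 1) : ℝ) / (k + 1)) ^ (5 / 4 : ℝ)) (fun A hA => ?_)) ?_
  · obtain ⟨l, hl, rfl⟩ := mem_image.1 hA
    obtain ⟨B, b1, b2, -, -, -⟩ := tail_facts hl
    have c2 : (F.filter (fun x => tl0 x = tl0 l)).card ≤ (SA (n + 2) (tl0 l)).card := by
      rw [← card_tl0 (n + 1)]
      exact card_le_card (fun x hx => mem_filter.2
        ⟨(mem_filter.1 (mem_filter.1 (mem_filter.1 hx).1).1).1, (mem_filter.1 hx).2⟩)
    have c3 := card_decay (n := n + 2) (a := n + 1 - k) (A := tl0 l) (S := SA (n + 2) (tl0 l))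
      (fun w hw => (mem_SA.1 hw).1) (fun w hw => (mem_SA.1 hw).2) (by simp [b1])
    have e1 : (tl0 l).length = j + 1 := by simp [b1, b2]
    rw [e1, show n + 2 - 1 - (j + 1) = n - j by omega,
      show n + 2 - (n + 1 - k) = k + 1 by omega] at c3
    push_cast at c3
    exact le_trans (by exact_mod_cast c2) c3
  · rw [nsmul_eq_mul]
    exact mul_le_mul_of_nonneg_right (by exact_mod_cast c1) (by positivity)

noncomputable def bd (p : ℕ × ℕ) : ℝ :=
  (126 ^ 2 * (4 ^ p.1 / p.1.factorial)) * (1 / ((p.2 + 1 : ℕ) : ℝ) ^ (5 / 4 : ℝ))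

theorem summable_bd : Summable bd :=
  Summable.mul_of_nonneg (f := fun j : ℕ => (126 ^ 2 * (4 ^ j / j.factorial) : ℝ))
    (g := fun k : ℕ => 1 / ((k + 1 : ℕ) : ℝ) ^ (5 / 4 : ℝ))
    ((Real.summable_pow_div_factorial 4).mul_left _)
    ((summable_nat_add_iff 1).2 (Real.summable_one_div_nat_rpow.2 (by norm_num)))
    (fun _ => by positivity) (fun _ => by positivity)

theorem fib_bd (n : ℕ) (p : ℕ × ℕ) : (fib n p : ℝ) / n.factorial ≤ bd p := by
  obtain ⟨j, k⟩ := p
  have h1 : (if k ≤ n then k.choose j else 0) * (n - j).factorial * j.factorial ≤ n.factorial := by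
    split_ifs with q
    · by_cases r : j ≤ n
      · rw [← Nat.choose_mul_factorial_mul_factorial r, mul_right_comm]
        exact Nat.mul_le_mul_right _ (Nat.mul_le_mul_right _ (Nat.choose_le_choose _ q))
      · rw [Nat.choose_eq_zero_of_lt (by omega)]; simp
    · simp
  have h2 : ((126 * (j + 1) : ℝ)) ^ (5 / 4 : ℝ) ≤ 126 ^ 2 * 4 ^ j := by
    have a1 : (1 : ℝ) ≤ 126 * (j + 1) := by
      have : (0 : ℝ) ≤ j := by positivity
      linarith
    refine (Real.rpow_le_rpow_of_exponent_le a1 (show (5 / 4 : ℝ) ≤ (2 : ℕ) by norm_num)).trans ?_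
    rw [Real.rpow_natCast, mul_pow]
    have a2 : ((j : ℝ) + 1) ≤ 2 ^ j := by exact_mod_cast Nat.lt_two_pow_self
    have a3 : ((j : ℝ) + 1) ^ 2 ≤ 4 ^ j := by
      rw [show (4 : ℝ) ^ j = (2 ^ j) ^ 2 by rw [← pow_mul, mul_comm, pow_mul]; norm_num]
      exact pow_le_pow_left₀ (by positivity) a2 2
    exact mul_le_mul_of_nonneg_left a3 (by positivity)
  have h3 : (((if k ≤ n then k.choose j else 0 : ℕ) : ℝ) * (n - j).factorial) / n.factorial ≤
      1 / j.factorial := by
    rw [div_le_div_iff₀ (by positivity) (by positivity), one_mul]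
    exact_mod_cast h1
  refine (div_le_div_of_nonneg_right (fib_le n j k) (by positivity)).trans ?_
  rw [Real.div_rpow (by positivity) (by positivity), ← mul_assoc, mul_div_right_comm]
  refine (mul_le_mul h3 (div_le_div_of_nonneg_right h2 (by positivity)) (by positivity)
    (by positivity)).trans (le_of_eq ?_)
  unfold bd
  push_cast
  ring

theorem fib_zero {n k : ℕ} (hk : k ≤ n) : fib n (0, k) = (SA (n + 2) [n + 1 - k]).card := by
  rw [← card_tl0 (n + 1)]
  unfold fib
  congr 1
  ext l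
  constructor
  · intro h
    obtain ⟨B, b1, b2, -⟩ := tail_facts h
    rw [List.length_eq_zero_iff.1 b2] at b1
    exact mem_filter.2 ⟨(mem_filter.1 (mem_filter.1 h).1).1, b1⟩
  · intro h
    obtain ⟨h1, h2⟩ := mem_filter.1 h
    refine mem_filter.2 ⟨mem_filter.2 ⟨h1, by simp [h2]⟩, ?_⟩
    simp only [ix, h2, List.length_singleton, List.headD_cons, Prod.mk.injEq]
    exact ⟨trivial, by omega⟩

theorem SA_all {n : ℕ} {A : List ℕ}
    (h : ∀ w, (w ++ 0 :: A).Perm (List.range n) → Succ n (w ++ 0 :: A)) : SA n A = Om n A := by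
  ext w
  rw [mem_SA, mem_Om]
  exact ⟨fun q => q.1, fun q => ⟨q, h w q⟩⟩

theorem fib_00 (n : ℕ) : fib n (0, 0) = n.factorial := by
  rw [fib_zero n.zero_le, SA_all, card_Om_one (by omega) (by omega)]
  · rfl
  · intro w hw
    have := (cl_facts hw).2.2.2.2.1
    simp only [List.length_singleton] at this
    refine home_succ (by omega) ⟨hw, w, ?_⟩
    rw [show n + 2 - 1 - w.length = 1 by omega, show w.length + 1 = n + 1 - 0 by omega]
    rfl

theorem fib_01 (n : ℕ) : fib (n + 1) (0, 1) = (n + 1).factorial := by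
  rw [fib_zero (by omega), SA_all, card_Om_one (by omega) (by omega)]
  · rfl
  · intro w hw
    rw [show n + 1 + 1 - 1 = n + 1 by omega] at hw ⊢
    obtain ⟨-, -, -, -, hl, hm⟩ := cl_facts hw
    simp only [List.length_singleton] at hl
    have m1 : n + 2 ∈ w.filter (n + 1 ≤ ·) :=
      List.mem_filter.2 ⟨(hm _ (by omega) (by omega)).2 (by simp), by simp⟩
    cases e : w.filter (n + 1 ≤ ·) with
    | nil => rw [e] at m1; simp at m1
    | cons y r =>
      have m2 : y ∈ w.filter (n + 1 ≤ ·) := by rw [e]; simp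
      obtain ⟨m3, m4⟩ := List.mem_filter.1 m2
      have y1 : y < n + 1 + 2 := List.mem_range.1 (hw.subset (by simp [m3]))
      have y2 : n + 1 ≤ y := by simpa using m4
      have y3 : y ≠ n + 1 := fun q => (hm y y1 (by omega)).1 m3 (by simp [q])
      obtain rfl : y = n + 2 := by omega
      refine succ_of_end (a := n + 1) (by omega) ?_ _ w (by omega) hw rfl e
      rw [show n + 2 - (n + 1) = 1 by omega, show n + 1 + 2 - (n + 1) = 2 by omega]
      rfl

theorem card_Ref_zero : (Ref 0).card = 1 := by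
  rw [card_eq_one]
  refine ⟨[2, 0, 1], eq_singleton_iff_unique_mem.2 ⟨mem_filter.2
    ⟨mem_TT.2 ⟨by decide, 1, by decide⟩, by decide⟩, fun l hl => ?_⟩⟩
  obtain ⟨h1, h2⟩ := mem_filter.1 hl
  have h3 := (mem_TT.1 h1).1
  cases l with
  | nil => simp at h2
  | cons x l =>
    have h4 : l = [0, 1] := h2
    subst h4
    have : 2 ∈ [x, 0, 1] := h3.symm.subset (by decide)
    simp at this
    rw [← this]

/-- the limit of the normalised counts -/
noncomputable def lim : ℕ × ℕ → ℝ
  | (0, 0) => 1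
  | (0, K + 1) => (Ref K).card / (K + 1).factorial
  | (_ + 1, _) => 0

theorem fib_tendsto (p : ℕ × ℕ) :
    Tendsto (fun n => (fib n p : ℝ) / n.factorial) atTop (𝓝 (lim p)) := by
  have one : ∀ n : ℕ, (n.factorial : ℝ) / n.factorial = 1 := fun n => div_self (by positivity)
  match p with
  | (0, 0) => simp only [fib_00, one]; exact tendsto_const_nhds
  | (0, 1) =>
    rw [← tendsto_add_atTop_iff_nat 1]
    simp only [fib_01, one, lim, card_Ref_zero]
    simp
  | (0, K + 2) =>
    rw [← tendsto_add_atTop_iff_nat (K + 3), tendsto_iff_dist_tendsto_zero]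
    refine squeeze_zero (fun _ => dist_nonneg) (fun d => ?_)
      ((tendsto_add_atTop_iff_nat (K + 3)).2
        (tendsto_const_div_atTop_nhds_zero_nat ((K : ℝ) * (K + 2))))
    have h := one_bounds d K
    rw [fib_zero (by omega), Real.dist_eq, show d + (K + 3) + 1 - (K + 2) = 2 + d by omega,
      show d + (K + 3) = 2 + d + K + 1 by omega]
    rw [card_Gp] at h
    exact h
  | (j + 1, k) =>
    rw [← tendsto_add_atTop_iff_nat 1]
    refine squeeze_zero (fun _ => by positivity) (fun n => ?_)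
      ((tendsto_add_atTop_iff_nat 1).2 (tendsto_const_div_atTop_nhds_zero_nat
        ((k.choose (j + 1) : ℝ) * ((126 * ((j + 1 : ℕ) + 1) : ℝ) / (k + 1)) ^ (5 / 4 : ℝ))))
    refine (div_le_div_of_nonneg_right (fib_le (n + 1) (j + 1) k) (by positivity)).trans ?_
    have a1 : (((if k ≤ n + 1 then k.choose (j + 1) else 0 : ℕ) : ℝ)) ≤ k.choose (j + 1) := by
      split_ifs <;> simp
    have a2 : ((n + 1 - (j + 1)).factorial : ℝ) ≤ n.factorial := by
      exact_mod_cast Nat.factorial_le (by omega)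
    refine (div_le_div_of_nonneg_right (mul_le_mul a1 (mul_le_mul_of_nonneg_right a2
      (by positivity)) (by positivity) (by positivity)) (by positivity)).trans (le_of_eq ?_)
    rw [Nat.factorial_succ, Nat.cast_mul]
    field_simp

theorem tsum_fib (n : ℕ) : ∑' p, (fib n p : ℝ) / n.factorial =
    (((TT (n + 2)).card : ℝ) - (n + 1).factorial) / n.factorial := by
  classical
  have e1 : ((TT (n + 2)).filter (fun l => tl0 l = [])).card = (n + 1).factorial := by
    have h : (List.range' 1 (n + 1) ++ [0]).Perm (List.range (n + 2)) := by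
      rw [List.range_eq_range', List.range'_succ (s := 0)]
      exact List.perm_append_comm
    rw [card_tl0 (n + 1), SA_all, card_Om h, List.length_range']
    intro w hw
    have := (cl_facts hw).2.2.2.2.1
    simp only [List.length_nil] at this
    refine home_succ (by omega) ⟨hw, w, ?_⟩
    rw [show n + 1 + 1 - 1 - w.length = 0 by omega]
    rfl
  have e2 := card_filter_add_card_filter_not (s := TT (n + 2)) (fun l => tl0 l = [])
  rw [tsum_div_const, tsum_eq_sum (s := (TP n).image (ix n)) (fun p hp => by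
    rw [Nat.cast_eq_zero]
    exact card_eq_zero.2 (filter_eq_empty_iff.2 (fun l hl e => hp (mem_image.2 ⟨l, hl, e⟩))))]
  congr 1
  unfold fib
  rw [← Nat.cast_sum, ← card_eq_sum_card_image, ← e2, e1]
  push_cast
  rw [add_sub_cancel_left]
  rfl

theorem second : ∃ c : ℝ, HasSum (fun K => ((Ref K).card : ℝ) / (K + 1).factorial) c ∧
    Tendsto (fun n : ℕ => (n : ℝ) * (n * (((TT n).card : ℝ) / n.factorial) - 1)) atTop
      (𝓝 (1 + c)) := by
  have t := tendsto_tsum_of_dominated_convergence summable_bd fib_tendsto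
    (Eventually.of_forall (fun n p => by
      rw [Real.norm_of_nonneg (by positivity)]; exact fib_bd n p))
  simp only [tsum_fib] at t
  have l0 : ∀ p, 0 ≤ lim p := fun p => ge_of_tendsto' (fib_tendsto p) (fun _ => by positivity)
  have s1 : Summable lim := Summable.of_nonneg_of_le l0
    (fun p => le_of_tendsto' (fib_tendsto p) (fun n => fib_bd n p)) summable_bd
  have inj : Function.Injective (fun k : ℕ => ((0, k) : ℕ × ℕ)) := fun a b h => by simpa using h
  have s2 : Summable (fun k : ℕ => lim (0, k)) := s1.comp_injective inj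
  have e1 : ∑' k : ℕ, lim (0, k) = ∑' p, lim p := inj.tsum_eq (f := lim) (by
    rintro ⟨j, k⟩ h
    cases j with
    | zero => exact ⟨k, rfl⟩
    | succ j => exact absurd rfl h)
  rw [← e1, s2.tsum_eq_zero_add] at t
  refine ⟨_, ((summable_nat_add_iff 1).2 s2).hasSum, ?_⟩
  rw [← tendsto_add_atTop_iff_nat 2]
  have u : Tendsto (fun n : ℕ => 1 + 1 / ((n + 1 : ℕ) : ℝ)) atTop (𝓝 (1 + 0)) :=
    tendsto_const_nhds.add ((tendsto_add_atTop_iff_nat 1).2
      (tendsto_const_div_atTop_nhds_zero_nat (1 : ℝ)))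
  have v := u.mul t
  rw [add_zero, one_mul] at v
  refine v.congr (fun n => ?_)
  rw [Nat.factorial_succ (n + 1), Nat.factorial_succ n]
  push_cast
  field_simp
  ring

theorem card_ref (K : ℕ) : Nat.card {π : Equiv.Perm (Fin (2 * K + 3)) //
    (SimpleGraph.fromRel Bump).Reachable 1 π ∧
      ((List.ofFn π).map Fin.val).drop (K + 1) = List.range' 1 K ++ [0, K + 1]} =
    (Ref K).card := by
  classical
  rw [← Nat.card_eq_finsetCard]
  apply Nat.card_congr
  refine Equiv.ofBijective (fun π => ⟨word π.1, mem_filter.2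
    ⟨mem_TT.2 ⟨word_perm _, (reach_iff _).1 π.2.1⟩, π.2.2⟩⟩) ⟨?_, ?_⟩
  · intro a b h
    exact Subtype.ext (word_inj (congrArg Subtype.val h))
  · rintro ⟨l, hl⟩
    obtain ⟨h0, h3⟩ := mem_filter.1 hl
    obtain ⟨h1, h2⟩ := mem_TT.1 h0
    obtain ⟨π, rfl⟩ := word_surj h1
    exact ⟨⟨π, (reach_iff _).2 h2, h3⟩, rfl⟩

end Pool.Agent.P.MP_79f629_co.Second
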