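import Pool.Agent.P.MP_79f629_co.Dyn

set_option autoImplicit false

/-! Two consecutive levels of the projected system. -/

namespace Pool.Agent.P.MP_79f629_co.Second

open Pool.Agent.P.MP_79f629_co

abbrev St := List ℕ × List ℕ

def ins (i k : ℕ) (O : List ℕ) : List ℕ := O.take i ++ k :: O.drop i

theorem mem_ins' {x z j : ℕ} {W : List ℕ} : x ∈ ins j z W ↔ x = z ∨ x ∈ W := mem_ins

theorem ins_perm (i k : ℕ) (O : List ℕ) : (ins i k O).Perm (k :: O) := by
  have := List.perm_middle (a := k) (l₁ := O.take i) (l₂ := O.drop i)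
  rwa [List.take_append_drop] at this

theorem length_ins (i k : ℕ) (O : List ℕ) : (ins i k O).length = O.length + 1 := by
  simpa using (ins_perm i k O).length_eq

theorem ins_append {i k : ℕ} {O : List ℕ} (h : i ≤ O.length) (f : List ℕ) :
    ins i k (O ++ f) = ins i k O ++ f := by
  unfold ins
  rw [List.take_append_of_le_length h, List.drop_append_of_le_length h]
  simp

theorem ins_at (k : ℕ) (P X : List ℕ) : ins P.length k (P ++ X) = P ++ k :: X := by
  simp [ins]

theorem AA_big {k z : ℕ} (hz : z ≠ k) (X : List ℕ) (w : ℕ) (W : List ℕ) :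
    AA k (z :: X, w :: W) = (X ++ [w].filter (k ≤ ·), ins (z - (k + 1)) z W) := by
  rw [AA_cons hz]; rfl

theorem AA_self (k : ℕ) (X W : List ℕ) : AA k (k :: X, W) = (X ++ [k], W) := by
  simp [AA]

def BadN (k M : ℕ) (s : St) : Prop := ∃ O W, (AA k)^[M] s = (k :: O, W) ∧ 0 ∉ W ∧ 1 ∈ W

def Bad1 (k : ℕ) (s : St) : Prop := ∃ M, BadN k M s

theorem Bad1.back {k : ℕ} {s : St} (h : Bad1 k (AA k s)) : Bad1 k s := by
  obtain ⟨M, h⟩ := h
  exact ⟨M + 1, h⟩

theorem BadN.fwd {k M : ℕ} {s : St} (h : BadN k M s) (hs : 0 ∈ s.2 ∨ s.1.head? ≠ some k) :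
    ∃ M', M = M' + 1 ∧ BadN k M' (AA k s) := by
  cases M with
  | succ M => exact ⟨M, rfl, h⟩
  | zero =>
    obtain ⟨O, W, e, h0, -⟩ := h
    simp only [Function.iterate_zero, id] at e
    subst e
    rcases hs with hs | hs
    · exact absurd hs h0
    · simp at hs

theorem Bad1.fwd {k : ℕ} {s : St} (h : Bad1 k s) (hs : 0 ∈ s.2 ∨ s.1.head? ≠ some k) :
    Bad1 k (AA k s) := by
  obtain ⟨M, h⟩ := h
  obtain ⟨M', -, h⟩ := h.fwd hs
  exact ⟨M', h⟩

theorem bad1_now {k : ℕ} {O W : List ℕ} (h0 : 0 ∉ W) (h1 : 1 ∈ W) : Bad1 k (k :: O, W) :=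
  ⟨0, O, W, rfl, h0, h1⟩

theorem mem_of_mem_AA {k x : ℕ} (hx : x < k) {s : St} (h : ∀ y ∈ s.1, k ≤ y)
    (hm : x ∈ (AA k s).2) : x ∈ s.2 := by
  obtain ⟨O, W⟩ := s
  cases O with
  | nil => exact hm
  | cons z O =>
    by_cases hz : z = k
    · subst hz; rwa [AA_self] at hm
    · rw [AA_cons hz] at hm
      rcases mem_ins.1 hm with e | e
      · have := h z List.mem_cons_self
        omega
      · exact List.mem_of_mem_drop e

theorem mem_of_mem_iter {k x : ℕ} (hx : x < k) : ∀ (M : ℕ) (s : St), (∀ y ∈ s.1, k ≤ y) →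
    x ∈ ((AA k)^[M] s).2 → x ∈ s.2 := by
  intro M
  induction M with
  | zero => intro s _ h; exact h
  | succ M ih => intro s h hm; exact mem_of_mem_AA hx h (ih _ (AA_fst_gt h) hm)

theorem Bad1.one_mem {k : ℕ} (hk : 2 ≤ k) {s : St} (h : Bad1 k s) (hs : ∀ y ∈ s.1, k ≤ y) :
    1 ∈ s.2 := by
  obtain ⟨M, O, W, e, -, h1⟩ := h
  exact mem_of_mem_iter (by omega) M s hs (by rw [e]; exact h1)

theorem late {k u : ℕ} (hk : 2 ≤ k) (hu : k < u) : ∀ (P Y X W : List ℕ), (∀ y ∈ P, k < y) →
    (∀ y ∈ Y, k ≤ y) → 0 ∉ W → Bad1 k (P ++ u :: Y, W) → Bad1 k (P ++ k :: X, W) := by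
  intro P
  induction P with
  | nil =>
    intro Y X W _ hY h0 h
    refine bad1_now h0 (h.one_mem hk ?_)
    intro y hy
    rcases List.mem_cons.1 hy with e | e
    · omega
    · exact hY y e
  | cons z P ih =>
    intro Y X W hP hY h0 h
    have hz : k < z := hP z List.mem_cons_self
    have h' := h.fwd (Or.inr (by simp; omega))
    apply Bad1.back
    rw [List.cons_append, AA_cons hz.ne'] at h' ⊢
    rw [List.append_assoc, List.cons_append] at h' ⊢
    refine ih _ _ _ (fun y hy => hP y (List.mem_cons_of_mem _ hy)) ?_ ?_ h'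
    · intro y hy
      rcases List.mem_append.1 hy with e | e
      · exact hY y e
      · simpa using (List.mem_filter.1 e).2
    · rw [mem_ins]
      rintro (e | e)
      · omega
      · exact h0 (List.mem_of_mem_drop e)

/-- from level `c` to level `c + 1` -/
def up (c : ℕ) (s : St) : St := (s.1 ++ (s.2.take 1).filter (c ≤ ·), s.2.drop 1)

def Gd (c : ℕ) (s : St) : Prop := Free c s ∧ ∀ x ∈ s.1, c ≤ x

theorem Gd.step {c : ℕ} {s : St} (h : Gd c s) : Gd c (AA c s) := ⟨h.1.step, AA_fst_gt h.2⟩

theorem up_AA {c : ℕ} {s : St} (h : Gd c s) (h1 : s.1 ≠ []) (h2 : (up c s).2 ≠ []) :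
    up c (AA c s) = AA (c + 1) (up c s) ∧ (AA c s).1.length + 1 = (up c s).1.length := by
  obtain ⟨Q, V⟩ := s
  obtain ⟨⟨f1, f2⟩, g⟩ := h
  match Q, V, h1, h2, f1, f2, g with
  | z :: Q, h :: w :: W, _, _, f1, f2, g =>
    have hz : z ≠ c := fun e => f1 (by simp [e])
    have hw : w ≠ c := fun e => f2 (by simp [e])
    have hz' : c ≤ z := g z List.mem_cons_self
    rw [AA_big hz]
    refine ⟨?_, by simp [up]⟩
    by_cases e : z = c + 1
    · subst e
      simp [up, ins, AA]
    · obtain ⟨d, rfl⟩ : ∃ d, z = c + 2 + d := ⟨z - (c + 2), by omega⟩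
      have e1 : c + 2 + d - (c + 1) = d + 1 := by omega
      have e2 : c + 2 + d - (c + 1 + 1) = d := by omega
      have e3 : [w].filter (c ≤ ·) = [w].filter (c + 1 ≤ ·) := by
        apply List.filter_congr
        intro x hx
        rw [List.mem_singleton.1 hx]
        exact decide_eq_decide.2 (by omega)
      show up c _ = AA (c + 1) ((c + 2 + d) :: (Q ++ [h].filter (c ≤ ·)), w :: W)
      rw [AA_big e, e1, e2, ← e3]
      rfl

theorem slot_step {c y : ℕ} {s : St} (h : Gd c s) (h1 : s.1 ≠ []) (hy : y ≤ s.1.length) :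
    Bad1 c (ins (if y = 0 then s.1.length - 1 else y - 1) c (AA c s).1, (AA c s).2) →
      Bad1 c (ins y c s.1, s.2) := by
  obtain ⟨Q, V⟩ := s
  cases Q with
  | nil => exact absurd rfl h1
  | cons z Q =>
    have hz : z ≠ c := fun e => h.1.1 (by simp [e])
    rw [AA_cons hz]
    intro hb
    cases y with
    | zero =>
      simp only [if_true, List.length_cons, Nat.add_sub_cancel, ins_at] at hb
      apply Bad1.back
      apply Bad1.back
      show Bad1 c (AA c (AA c (c :: z :: Q, V)))
      rw [AA_self, List.cons_append, AA_cons hz]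
      simpa using hb
    | succ y =>
      simp only [Nat.add_eq_zero_iff, one_ne_zero, and_false, if_false, Nat.add_sub_cancel] at hb
      rw [ins_append (by simpa using hy)] at hb
      apply Bad1.back
      show Bad1 c (AA c (z :: ins y c Q, V))
      rw [AA_cons hz]
      exact hb

/-- every slot for `c` fails below `A` or below `B` -/
def Cov (c : ℕ) (A B : St) : Prop := ∀ (A' B' : St) (y : ℕ), Gd c A' → Gd c B' → up c A' = A →
  up c B' = B → A'.1.length = B'.1.length → y ≤ A'.1.length →
    Bad1 c (ins y c A'.1, A'.2) ∨ Bad1 c (ins y c B'.1, B'.2)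

theorem length_up (c : ℕ) (s : St) :
    s.1.length ≤ (up c s).1.length ∧ (up c s).1.length ≤ s.1.length + 1 := by
  have h1 := List.length_filter_le (fun x => decide (c ≤ x)) (s.2.take 1)
  have h2 : (s.2.take 1).length ≤ 1 := List.length_take_le _ _
  simp only [up, List.length_append]
  omega

theorem Cov.step {c : ℕ} {A B : St} (e : A.1.length = B.1.length) (h2 : 2 ≤ A.1.length)
    (hA : A.2 ≠ []) (hB : B.2 ≠ []) (h : Cov c (AA (c + 1) A) (AA (c + 1) B)) : Cov c A B := by
  rintro A' B' y gA gB rfl rfl el hy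
  have l1 := length_up c A'
  have nA : A'.1 ≠ [] := by
    intro q; rw [q] at l1; simp at l1; omega
  have nB : B'.1 ≠ [] := by
    intro q; rw [q] at el; exact nA (List.length_eq_zero_iff.1 el)
  obtain ⟨a1, a2⟩ := up_AA gA nA hA
  obtain ⟨b1, b2⟩ := up_AA gB nB hB
  rcases h (AA c A') (AA c B') (if y = 0 then A'.1.length - 1 else y - 1) gA.step gB.step a1 b1
    (by omega) (by split_ifs <;> omega) with q | q
  · exact Or.inl (slot_step gA nA hy q)
  · rw [el] at q
    exact Or.inr (slot_step gB nB (el ▸ hy) q)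

theorem cov_end {c u v : ℕ} (hc : 2 ≤ c) (hu : c + 1 < u) (hv : c + 1 < v) {W : List ℕ}
    (h0 : 0 ∉ W) (h1 : 1 ∈ W) :
    Cov c ([u, v, c + 1], 0 :: W) ([v, c + 1], ins (u - (c + 1 + 1)) u W) := by
  rintro ⟨Q, V⟩ ⟨Q', V'⟩ y gA gB eA eB el hy
  have n0 : ∀ j, 0 ∉ ins j v (ins (u - (c + 1 + 1)) u W) := fun j => by
    simp only [mem_ins']
    rintro (q | q | q)
    · omega
    · omega
    · exact h0 q
  have n1 : ∀ j, 1 ∈ ins j v (ins (u - (c + 1 + 1)) u W) := fun j => by
    simp only [mem_ins']
    exact Or.inr (Or.inr h1)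
  have lA := length_up c (Q, V)
  have lB := length_up c (Q', V')
  rw [eA] at lA
  rw [eB] at lB
  simp only [List.length_cons, List.length_nil] at lA lB el hy
  have hQ : Q.length = 2 := by omega
  have hQ' : Q'.length = 2 := by omega
  simp only [up, Prod.mk.injEq] at eA eB
  obtain ⟨a1, a2⟩ := eA
  obtain ⟨b1, b2⟩ := eB
  cases V with
  | nil => simp at a2
  | cons h V =>
  cases V' with
  | nil =>
    have := length_ins (u - (c + 1 + 1)) u W
    rw [← b2] at this
    simp at this
  | cons h' V' =>
  simp only [List.drop_succ_cons, List.drop_zero, List.take_succ_cons, List.take_zero] at a1 a2 b1 b2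
  subst a2 b2
  have b3 := List.append_inj (s₂ := [v, c + 1]) (t₂ := []) b1 hQ'
  have a3 := List.append_inj (s₂ := [u, v]) (t₂ := [c + 1]) a1 hQ
  obtain ⟨rfl, b4⟩ := b3
  obtain ⟨rfl, a4⟩ := a3
  have k2 : Bad1 c ([u, v, c], h :: 0 :: W) := by
    apply Bad1.back
    rw [AA_big (by omega), a4]
    have e1 : u - (c + 1) = (u - (c + 1 + 1)) + 1 := by omega
    rw [e1]
    apply Bad1.back
    show Bad1 c (AA c (v :: [c, c + 1], 0 :: ins (u - (c + 1 + 1)) u W))
    rw [AA_big (by omega)]
    exact bad1_now (n0 _) (n1 _)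
  have : y = 0 ∨ y = 1 ∨ y = 2 := by omega
  rcases this with rfl | rfl | rfl
  · left
    apply Bad1.back
    show Bad1 c (AA c (c :: [u, v], _))
    rw [AA_self]
    exact k2
  · right
    apply Bad1.back
    show Bad1 c (AA c (v :: [c, c + 1], _))
    rw [AA_big (by omega)]
    exact bad1_now (n0 _) (n1 _)
  · exact Or.inl k2

/-- shape of a state without the letter `k` while `0` is in the window -/
def Inv (k : ℕ) (O W : List ℕ) : Prop := (∀ x ∈ O, k < x) ∧ (∀ x ∈ W, x < 2 ∨ k < x) ∧
  W.count 0 = 1 ∧ O.length = W.countP (· < 2)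

theorem filt_small {k w : ℕ} (h : w < k) : [w].filter (k ≤ ·) = [] := by
  have : ¬ k ≤ w := by omega
  simp [this]

theorem filt_big {k w : ℕ} (h : k ≤ w) : [w].filter (k ≤ ·) = [w] := by
  simp [h]

theorem countP_ins {z : ℕ} (hz : 2 ≤ z) (j : ℕ) (W : List ℕ) :
    (ins j z W).countP (· < 2) = W.countP (· < 2) := by
  rw [(ins_perm j z W).countP_eq, List.countP_cons]
  have : ¬ z < 2 := by omega
  simp [this]

theorem count_ins {z : ℕ} (hz : 2 ≤ z) (j : ℕ) (W : List ℕ) :
    (ins j z W).count 0 = W.count 0 := by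
  rw [(ins_perm j z W).count_eq, List.count_cons]
  have : ¬ z = 0 := by omega
  simp [this]

theorem Inv.step {k z w : ℕ} (hk : 2 ≤ k) {O W : List ℕ} (h : Inv k (z :: O) (w :: W))
    (hw : w ≠ 0) (j : ℕ) : Inv k (O ++ [w].filter (k ≤ ·)) (ins j z W) := by
  obtain ⟨h1, h2, h3, h4⟩ := h
  have hz := h1 z List.mem_cons_self
  have hw' := h2 w List.mem_cons_self
  refine ⟨?_, ?_, ?_, ?_⟩
  · intro x hx
    rcases List.mem_append.1 hx with e | e
    · exact h1 x (List.mem_cons_of_mem _ e)
    · have e1 := List.mem_filter.1 e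
      have e2 : x = w := by simpa using e1.1
      have e3 : k ≤ x := by simpa using e1.2
      omega
  · intro x hx
    rcases mem_ins'.1 hx with e | e
    · omega
    · exact h2 x (List.mem_cons_of_mem _ e)
  · rw [count_ins (by omega)]
    rw [List.count_cons] at h3
    simpa [hw] using h3
  · rw [countP_ins (by omega)]
    rw [List.countP_cons] at h4
    rcases hw' with q | q
    · rw [filt_small (by omega)]
      simpa [q] using h4
    · rw [filt_big q.le]
      have : ¬ w < 2 := by omega
      simpa [this] using h4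

theorem Inv.zero_mem {k : ℕ} {O W : List ℕ} (h : Inv k O W) : 0 ∈ W :=
  List.count_pos_iff.1 (by have := h.2.2.1; omega)

theorem key {c : ℕ} (hc : 2 ≤ c) : ∀ (M : ℕ) (P : List ℕ) (u v : ℕ) (X W : List ℕ),
    Inv (c + 1) (P ++ u :: v :: X) W → BadN (c + 1) M (P ++ u :: (c + 1) :: v :: X, W) →
    ¬ Bad1 (c + 1) (P ++ (c + 1) :: u :: v :: X, W) →
    ¬ Bad1 (c + 1) (P ++ u :: v :: (c + 1) :: X, W) →
    Cov c (P ++ (c + 1) :: u :: v :: X, W) (P ++ u :: v :: (c + 1) :: X, W) := by
  intro M
  induction M using Nat.strong_induction_on with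
  | _ M ih =>
  intro P u v X W hI hC hA hB
  have hu : c + 1 < u := hI.1 u (by simp)
  have hv : c + 1 < v := hI.1 v (by simp)
  have z0 := hI.zero_mem
  obtain ⟨M1, rfl, hC1⟩ := hC.fwd (Or.inl z0)
  cases W with
  | nil => simp at z0
  | cons w W =>
  cases P with
  | cons z P =>
    have hz : c + 1 < z := hI.1 z (by simp)
    have hA1 := fun q => hA (Bad1.back q)
    have hB1 := fun q => hB (Bad1.back q)
    rw [List.cons_append, AA_big hz.ne'] at hC1 hA1 hB1
    by_cases hw : w = 0
    · exfalso
      subst hw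
      apply hA1
      rw [filt_small (by omega), List.append_nil] at hC1 ⊢
      refine late (by omega) hu P _ _ _ (fun y hy => hI.1 y (by simp [hy])) ?_ ?_ ⟨_, hC1⟩
      · intro y hy
        rcases List.mem_cons.1 hy with e | e
        · omega
        · exact (hI.1 y (by simp only [List.mem_append, List.mem_cons] at e ⊢; tauto)).le
      · rw [← List.count_eq_zero, count_ins (by omega)]
        simpa using hI.2.2.1
    · apply Cov.step (by simp) (by simp; omega) (by simp) (by simp)
      rw [List.cons_append, List.cons_append, AA_big hz.ne', AA_big hz.ne']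
      have hI' := Inv.step (O := P ++ u :: v :: X) (by omega) hI hw (z - (c + 1 + 1))
      simp only [List.append_assoc, List.cons_append] at hC1 hA1 hB1 hI' ⊢
      exact ih M1 (by omega) P u v _ _ hI' hC1 hA1 hB1
  | nil =>
    simp only [List.nil_append] at hI hC1 hA hB ⊢
    rw [AA_big hu.ne'] at hC1
    have hB1 := fun q => hB (Bad1.back q)
    rw [AA_big hu.ne'] at hB1
    have hA1 := fun q => hA (Bad1.back q)
    rw [AA_self, List.cons_append] at hA1
    have hA2 := fun q => hA1 (Bad1.back q)
    rw [AA_big hu.ne'] at hA2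
    by_cases hw : w = 0
    · subst hw
      rw [filt_small (by omega), List.append_nil] at hC1 hB1
      have g0 : 0 ∉ W := by
        rw [← List.count_eq_zero]; simpa using hI.2.2.1
      have g1 : 1 ∈ ins (u - (c + 1 + 1)) u W := by
        refine Bad1.one_mem (by omega) ⟨_, hC1⟩ ?_
        intro y hy
        rcases List.mem_cons.1 hy with e | e
        · omega
        · exact (hI.1 y (List.mem_cons_of_mem _ e)).le
      have g2 : 1 ∈ W := by
        rcases mem_ins'.1 g1 with e | e
        · omega
        · exact e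
      have g3 := countP_ins (z := u) (by omega) (u - (c + 1 + 1)) W
      have g4 : 0 ∉ ins (u - (c + 1 + 1)) u W := by
        rw [mem_ins']
        rintro (e | e)
        · omega
        · exact g0 e
      have g5 := hI.2.2.2
      rw [List.countP_cons] at g5
      have hX : X = [] := by
        generalize ins (u - (c + 1 + 1)) u W = W' at hB1 g1 g3 g4
        cases W' with
        | nil => simp at g1
        | cons w' W' =>
          have hB2 := fun q => hB1 (Bad1.back q)
          rw [AA_big hv.ne'] at hB2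
          have n0 : 0 ∉ W' := fun e => g4 (List.mem_cons_of_mem _ e)
          have n1 : 1 ∉ W' := fun e => hB2 (bad1_now (by
            rw [mem_ins']
            rintro (q | q)
            · omega
            · exact n0 q) (mem_ins'.2 (Or.inr e)))
          have n2 : W'.countP (· < 2) = 0 := by
            rw [List.countP_eq_zero]
            intro x hx
            have a0 : x ≠ 0 := fun e => n0 (e ▸ hx)
            have a1 : x ≠ 1 := fun e => n1 (e ▸ hx)
            simp; omega
          rw [List.countP_cons, n2] at g3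
          apply List.length_eq_zero_iff.1
          simp only [List.length_cons] at g5
          split_ifs at g3 g5 <;> omega
      subst hX
      apply Cov.step (by simp) (by simp) (by simp) (by simp)
      rw [AA_self, AA_big hu.ne', filt_small (by omega)]
      exact cov_end hc hu hv g0 g2
    · have hI' := Inv.step (by omega) hI hw (u - (c + 1 + 1))
      have z1 := hI'.zero_mem
      rw [List.cons_append] at hC1
      obtain ⟨M2, rfl, hC2⟩ := hC1.fwd (Or.inl z1)
      rw [AA_self] at hC2
      rcases hI.2.1 w List.mem_cons_self with q | q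
      · exfalso
        rw [filt_small (by omega)] at hC2 hA2
        apply hA2
        exact ⟨M2, by simpa using hC2⟩
      · rw [filt_big q.le] at hC2 hA2 hB1 hI'
        obtain ⟨M3, rfl, hC3⟩ := hC2.fwd (Or.inl z1)
        generalize hW' : ins (u - (c + 1 + 1)) u W = W' at hC3 hA2 hB1 hI' z1
        cases W' with
        | nil => simp at z1
        | cons w' W' =>
          simp only [List.cons_append] at hC3 hA2 hB1 hI'
          rw [AA_big hv.ne'] at hC3
          have hA3 := fun q => hA2 (Bad1.back q)
          rw [AA_big hv.ne'] at hA3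
          have hB2 := fun q => hB1 (Bad1.back q)
          rw [AA_big hv.ne', List.cons_append] at hB2
          have hB3 := fun q => hB2 (Bad1.back q)
          rw [AA_self] at hB3
          rcases hI'.2.1 w' List.mem_cons_self with q' | q'
          · exfalso
            rw [filt_small (by omega)] at hC3 hB3
            apply hB3
            exact ⟨M3, by simpa using hC3⟩
          · have hI2 := Inv.step (by omega) hI' (by omega) (v - (c + 1 + 1))
            rw [filt_big q'.le] at hC3 hA3 hB3 hI2
            apply Cov.step (by simp) (by simp) (by simp) (by simp)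
            rw [AA_self, AA_big hu.ne', filt_big q.le, hW']
            apply Cov.step (by simp) (by simp) (by simp) (by simp)
            simp only [List.cons_append]
            rw [AA_big hu.ne', AA_big hv.ne', filt_big q.le, filt_big q'.le, hW']
            apply Cov.step (by simp) (by simp) (by simp) (by
              intro e
              have := length_ins (v - (c + 1 + 1)) v W'
              simp only at e
              rw [e] at this
              simp at this)
            simp only [List.cons_append]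
            rw [AA_big hv.ne', AA_self, filt_big q'.le]
            simp only [List.append_assoc, List.cons_append, List.nil_append] at hC3 hA3 hB3 hI2 ⊢
            exact ih M3 (by omega) X w w' [] _ hI2 hC3 hA3 hB3

end Pool.Agent.P.MP_79f629_co.Second
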