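import Pool.Agent.P.MP_79f629_co.SDep

set_option autoImplicit false

/-! One letter after `0`. -/

namespace Pool.Agent.P.MP_79f629_co.Second

open Pool.Agent.P.MP_79f629_co Finset

theorem fnil {k : ℕ} {L : List ℕ} (h : ∀ x ∈ L, x < k) : L.filter (k ≤ ·) = [] :=
  List.filter_eq_nil_iff.2 (fun x hx => by have := h x hx; simp; omega)

theorem fall {k : ℕ} {L : List ℕ} (h : ∀ x ∈ L, k ≤ x) : L.filter (k ≤ ·) = L :=
  List.filter_eq_self.2 (fun x hx => by simpa using h x hx)

theorem fnil_range {k K : ℕ} (h : K < k) : (List.range' 1 K).filter (k ≤ ·) = [] :=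
  fnil (fun x hx => by have := List.mem_range'_1.1 hx; omega)

open Classical in
/-- all words above the tail `0 :: A` -/
noncomputable def Om (n : ℕ) (A : List ℕ) : Finset (List ℕ) :=
  ((Pm n).image (List.take (n - 1 - A.length))).filter (fun w => (w ++ 0 :: A).Perm (List.range n))

theorem mem_Om {n : ℕ} {A w : List ℕ} : w ∈ Om n A ↔ (w ++ 0 :: A).Perm (List.range n) := by
  unfold Om
  rw [mem_filter]
  refine ⟨fun h => h.2, fun h => ⟨mem_image.2 ⟨_, mem_Pm.2 h, ?_⟩, h⟩⟩
  have := (cl_facts h).2.2.2.2.1
  exact List.take_left' (by omega)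

theorem card_Om {n : ℕ} {A L : List ℕ} (h : (L ++ 0 :: A).Perm (List.range n)) :
    (Om n A).card = L.length.factorial := by
  rw [← List.length_permutations,
    ← List.toFinset_card_of_nodup (List.nodup_permutations _ (cl_facts h).1)]
  congr 1
  ext w
  rw [mem_Om, List.mem_toFinset, List.mem_permutations]
  exact ⟨fun q => cl_perm q h, fun q => (q.append_right _).trans h⟩

theorem card_Om_one {n a : ℕ} (h1 : 1 ≤ a) (h2 : a < n) : (Om n [a]).card = (n - 2).factorial := by
  have h : ((List.range' 1 (a - 1) ++ List.range' (a + 1) (n - a - 1)) ++ [0, a]).Perm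
      (List.range n) := by
    rw [List.perm_ext_iff_of_nodup _ List.nodup_range]
    · intro x
      simp only [List.mem_append, List.mem_range'_1, List.mem_cons, List.not_mem_nil,
        List.mem_range, or_false]
      omega
    · simp only [List.nodup_append, List.mem_append, List.mem_range'_1,
        List.mem_cons, List.not_mem_nil, List.nodup_cons, List.nodup_nil, or_false]
      refine ⟨⟨List.nodup_range' .., List.nodup_range' .., ?_⟩, ?_, ?_⟩
      · intro x hx y hy; omega
      · simp; omega
      · intro x hx y hy; omega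
  rw [card_Om h]
  congr 1
  simp
  omega

theorem card_at {S : Finset (List ℕ)} {L : List ℕ} {i x : ℕ} (h : ∀ w ∈ S, w.Perm L)
    (hx : ∀ w ∈ S, w[i]? = some x) : S.card ≤ (L.length - 1).factorial := by
  have e : ∀ w ∈ S, w = w.take i ++ x :: w.drop (i + 1) ∧ (w.take i).length = i := fun w hw => by
    obtain ⟨h1, h2⟩ := List.getElem?_eq_some_iff.1 (hx w hw)
    refine ⟨?_, by simp; omega⟩
    rw [← h2, ← List.drop_eq_getElem_cons h1, List.take_append_drop]
  rcases S.eq_empty_or_nonempty with rfl | ⟨w0, hw0⟩
  · simp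
  have xm : x ∈ L := (h w0 hw0).subset (List.mem_of_getElem? (hx w0 hw0))
  rw [← List.length_erase_of_mem xm,
    ← card_image_of_injOn (f := fun w : List ℕ => w.take i ++ w.drop (i + 1))]
  · apply card_le_fact
    intro v hv
    obtain ⟨w, hw, rfl⟩ := mem_image.1 hv
    have p1 : (x :: (w.take i ++ w.drop (i + 1))).Perm L := by
      refine List.Perm.trans ?_ (h w hw)
      conv_rhs => rw [(e w hw).1]
      exact List.perm_middle.symm
    exact (List.perm_cons x).1 (p1.trans (List.perm_cons_erase xm))
  · intro w hw v hv q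
    obtain ⟨q1, q2⟩ := List.append_inj q ((e w hw).2.trans (e v hv).2.symm)
    rw [(e w hw).1, (e v hv).1, q1, q2]

def pat (a : ℕ) (w : List ℕ) : List ℕ := (w.filter (a + 1 ≤ ·)).map (· - a)

def Ideal (a : ℕ) (w : List ℕ) : Prop := ∀ x ∈ w.drop (a + 1), x < a + 1

theorem ideal_facts {a K : ℕ} {w : List ℕ} (h : (w ++ [0, a]).Perm (List.range (a + K + 3)))
    (hi : Ideal a w) : bs a w = ((pat a w).map (· + a), List.replicate K 1) ∧
      (pat a w).Perm (List.range' 1 (K + 2)) := by
  obtain ⟨-, -, h0, -, hl, -⟩ := cl_facts h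
  simp only [List.length_cons, List.length_nil] at hl
  have e1 : w.filter (a + 1 ≤ ·) = (w.take (a + 1)).filter (a + 1 ≤ ·) := by
    conv_lhs => rw [← List.take_append_drop (a + 1) w]
    rw [List.filter_append, fnil hi, List.append_nil]
  constructor
  · unfold bs pat
    rw [← e1, List.map_map]
    congr 1
    · conv_lhs => rw [← List.map_id (w.filter _)]
      apply List.map_congr_left
      intro x hx
      have : a + 1 ≤ x := by simpa using (List.mem_filter.1 hx).2
      simp; omega
    · rw [List.eq_replicate_iff]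
      refine ⟨by simp; omega, fun y hy => ?_⟩
      obtain ⟨x, hx, rfl⟩ := List.mem_map.1 hy
      have b1 := hi x hx
      have b2 : x ≠ 0 := fun e => h0 (e ▸ List.mem_of_mem_drop hx)
      unfold cc
      split_ifs <;> omega
  · have p := h.filter (a + 1 ≤ ·)
    have e2 : (List.range (a + K + 3)).filter (a + 1 ≤ ·) = List.range' (a + 1) (K + 2) := by
      rw [show a + K + 3 = (a + 1) + (K + 2) by omega, List.range_add, List.filter_append,
        fnil (fun x hx => List.mem_range.1 hx),
        fall (fun x hx => by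
          obtain ⟨y, -, rfl⟩ := List.mem_map.1 hx
          omega), List.range'_eq_map_range]
      rfl
    have e3 : (List.range' (a + 1) (K + 2)).map (· - a) = List.range' 1 (K + 2) := by
      apply List.ext_getElem
      · simp
      · intro i _ _
        simp only [List.getElem_map, List.getElem_range']
        omega
    rw [List.filter_append, e2, fnil (L := [0, a]) (by simp), List.append_nil] at p
    rw [← e3]
    exact p.map _

theorem ideal_al {d K : ℕ} {w : List ℕ}
    (h : (w ++ [0, 2 + d]).Perm (List.range (2 + d + K + 3))) (hi : Ideal (2 + d) w) :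
    al (2 + d) (w ++ [0, 2 + d]) =
      Sf d ((pat (2 + d) w).map (· + 2), List.replicate K 1 ++ [0, 2]) := by
  obtain ⟨-, -, -, -, hl, hm⟩ := cl_facts h
  simp only [List.length_cons, List.length_nil] at hl
  rw [al_tail (by omega) (by omega), al_eq_bs (fun e => (hm _ (by omega) (by omega)).1 e (by simp)),
    (ideal_facts h hi).1]
  simp only [Sf, List.map_map, List.map_append, List.map_replicate, List.map_cons, List.map_nil]
  congr 1
  · apply List.map_congr_left
    intro x _
    simp [sf]; omega
  · simp [sf, cc]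

theorem same_succ {d d' K : ℕ} {w w' : List ℕ}
    (h : (w ++ [0, 2 + d]).Perm (List.range (2 + d + K + 3))) (hi : Ideal (2 + d) w)
    (h' : (w' ++ [0, 2 + d']).Perm (List.range (2 + d' + K + 3))) (hi' : Ideal (2 + d') w')
    (e : pat (2 + d) w = pat (2 + d') w') (hs : Succ (2 + d + K + 3) (w ++ [0, 2 + d])) :
    Succ (2 + d' + K + 3) (w' ++ [0, 2 + d']) := by
  obtain ⟨N, hN⟩ := hs
  refine dep (by omega) (by omega) N _ _ _ h h' ?_ ⟨_, [2], rfl, by simp⟩ (ideal_al h hi)
    (e ▸ ideal_al h' hi') hN
  intro x hx
  obtain ⟨y, -, rfl⟩ := List.mem_map.1 hx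
  omega

open Classical in
/-- the reference words -/
noncomputable def Ref (K : ℕ) : Finset (List ℕ) :=
  (MP_79f629_co.TT (2 * K + 3)).filter (fun l => l.drop (K + 1) = List.range' 1 K ++ [0, K + 1])

theorem ref_word {K : ℕ} {p : List ℕ} (hp : p.Perm (List.range' 1 (K + 2))) :
    ((p.map (· + (2 + K)) ++ List.range' 1 (K + 1)) ++ [0, 2 + K]).Perm
      (List.range (2 + K + K + 3)) ∧ Ideal (2 + K) (p.map (· + (2 + K)) ++ List.range' 1 (K + 1)) ∧
      pat (2 + K) (p.map (· + (2 + K)) ++ List.range' 1 (K + 1)) = p := by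
  have hm : ∀ x, x ∈ p ↔ 1 ≤ x ∧ x < 1 + (K + 2) := fun x => by
    rw [hp.mem_iff, List.mem_range'_1]
  have hl : p.length = K + 2 := by simpa using hp.length_eq
  refine ⟨?_, ?_, ?_⟩
  · rw [List.perm_ext_iff_of_nodup _ List.nodup_range]
    · intro x
      simp only [List.mem_append, List.mem_range'_1, List.mem_cons, List.not_mem_nil,
        List.mem_range, List.mem_map, hm, or_false]
      constructor
      · rintro ((⟨y, a, b⟩ | a) | a) <;> omega
      · intro a
        by_cases q : 2 + K < x
        · exact Or.inl (Or.inl ⟨x - (2 + K), by omega, by omega⟩)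
        · by_cases q' : 1 ≤ x ∧ x < 1 + (K + 1)
          · exact Or.inl (Or.inr q')
          · right; omega
    · have n1 : (p.map (· + (2 + K))).Nodup :=
        (hp.nodup_iff.2 (List.nodup_range' ..)).map (add_left_injective _)
      simp only [List.nodup_append, List.mem_append, List.mem_range'_1, or_false,
        List.mem_cons, List.not_mem_nil, List.nodup_cons, List.nodup_nil, List.mem_map, hm]
      refine ⟨⟨n1, List.nodup_range' .., ?_⟩, ?_, ?_⟩
      · rintro x ⟨u, a, b⟩ y hy; omega
      · simp; omega
      · rintro x (⟨u, a, b⟩ | a) y hy <;> omega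
  · intro x hx
    have e : 2 + K + 1 = (p.map (· + (2 + K))).length + 1 := by simp; omega
    rw [e, List.drop_length_add_append] at hx
    have := List.mem_range'_1.1 (List.mem_of_mem_drop hx)
    omega
  · unfold pat
    rw [List.filter_append, fnil_range (by omega), List.append_nil,
      fall (fun x hx => by
        obtain ⟨y, hy, rfl⟩ := List.mem_map.1 hx
        have := (hm y).1 hy
        omega), List.map_map]
    conv_rhs => rw [← List.map_id p]
    apply List.map_congr_left
    intro x _
    simp

open Classical in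
/-- the good patterns -/
noncomputable def Gp (K : ℕ) : Finset (List ℕ) :=
  (List.range' 1 (K + 2)).permutations.toFinset.filter (fun p =>
    Succ (2 + K + K + 3) ((p.map (· + (2 + K)) ++ List.range' 1 (K + 1)) ++ [0, 2 + K]))

theorem card_Gp (K : ℕ) : (Gp K).card = (Ref (K + 1)).card := by
  classical
  have e : 2 * (K + 1) + 3 = 2 + K + K + 3 := by omega
  apply card_bij (fun p _ => (p.map (· + (2 + K)) ++ List.range' 1 (K + 1)) ++ [0, 2 + K])
  · intro p hp
    obtain ⟨h1, h2⟩ := mem_filter.1 hp
    have h3 := List.mem_permutations.1 (List.mem_toFinset.1 h1)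
    refine mem_filter.2 ⟨mem_TT.2 (e ▸ ⟨(ref_word h3).1, h2⟩), ?_⟩
    rw [List.append_assoc, List.drop_left' (by simpa using h3.length_eq), add_comm 2 K]
  · intro p _ q _ h
    exact List.map_injective_iff.2 (add_left_injective _)
      (List.append_cancel_right (List.append_cancel_right h))
  · intro l hl
    obtain ⟨h1, h2⟩ := mem_filter.1 hl
    obtain ⟨h3, h4⟩ := mem_TT.1 h1
    have h5 : l = (l.take (K + 2) ++ List.range' 1 (K + 1)) ++ [0, 2 + K] := by
      rw [List.append_assoc, add_comm 2 K, ← h2, List.take_append_drop]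
    have h6 : (l.take (K + 2)).length = K + 2 := by
      have := h3.length_eq
      simp at this ⊢
      omega
    generalize l.take (K + 2) = O at h5 h6
    subst h5
    rw [e] at h3 h4
    have hi : Ideal (2 + K) (O ++ List.range' 1 (K + 1)) := by
      intro x hx
      rw [show 2 + K + 1 = O.length + 1 by omega, List.drop_length_add_append] at hx
      have := List.mem_range'_1.1 (List.mem_of_mem_drop hx)
      omega
    obtain ⟨i1, i2⟩ := ideal_facts h3 hi
    have i3 : (pat (2 + K) (O ++ List.range' 1 (K + 1))).map (· + (2 + K)) = O := by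
      have l1 := (List.filter_sublist (p := (2 + K + 1 ≤ ·)) (l := O)).eq_of_length (by
        have := i2.length_eq
        unfold pat at this
        rw [List.filter_append, fnil_range (by omega), List.append_nil, List.length_map,
          List.length_range'] at this
        omega)
      have := congrArg Prod.fst i1
      simp only at this
      rw [← this]
      unfold bs
      simp only
      rw [show 2 + K + 1 = O.length + 1 by omega, List.take_length_add_append,
        ← show 2 + K + 1 = O.length + 1 by omega, List.filter_append, l1,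
        fnil (fun x hx => by
          have := List.mem_range'_1.1 (List.mem_of_mem_take hx); omega), List.append_nil]
    refine ⟨pat (2 + K) (O ++ List.range' 1 (K + 1)), mem_filter.2
      ⟨List.mem_toFinset.2 (List.mem_permutations.2 i2), ?_⟩, ?_⟩
    · rw [i3]; exact h4
    · rw [i3]

theorem card_ideal {a K : ℕ} (ha : 1 ≤ a) {S P : Finset (List ℕ)} (h : Cl (a + K + 3) [a] S)
    (hi : ∀ w ∈ S, Ideal a w) (hP : ∀ w ∈ S, pat a w ∈ P) :
    (K + 2).factorial * S.card ≤ P.card * (a + K + 1).factorial := by
  have c1 := card_le_zz (N := a + K + 1) h (by simp) a (by omega)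
  unfold zz at c1
  have e : aa [a] a = 1 := by simp [aa]
  rw [e, sum_congr rfl (g := fun _ => (a + 1).choose (K + 2)) (fun D hD => by
    obtain ⟨w, hw, rfl⟩ := mem_image.1 hD
    obtain ⟨i1, i2⟩ := ideal_facts (h w hw) (hi w hw)
    have := i2.length_eq
    simp only [wt, i1, List.length_map, this, List.length_range']), sum_const, smul_eq_mul] at c1
  have c2 : (S.image (bs a)).card ≤ P.card := by
    refine le_trans (card_le_card ?_)
      (card_image_le (f := fun p : List ℕ => (p.map (· + a), List.replicate K 1)))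
    intro D hD
    obtain ⟨w, hw, rfl⟩ := mem_image.1 hD
    exact mem_image.2 ⟨_, hP w hw, (ideal_facts (h w hw) (hi w hw)).1.symm⟩
  have c3 : (K + 2).factorial * (a + 1).choose (K + 2) * (a - 1).factorial ≤
      (a + K + 1).factorial := by
    rw [← Nat.descFactorial_eq_factorial_mul_choose,
      ← Nat.factorial_mul_descFactorial (n := a + K + 1) (k := K + 2) (by omega), mul_comm,
      show a + K + 1 - (K + 2) = a - 1 by omega]
    exact Nat.mul_le_mul_left _ (Nat.descFactorial_le _ (by omega))
  calc (K + 2).factorial * S.card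
      ≤ (K + 2).factorial * (P.card * (a + 1).choose (K + 2) * (a - 1).factorial) :=
        Nat.mul_le_mul_left _ (c1.trans (Nat.mul_le_mul_right _ (Nat.mul_le_mul_right _ c2)))
    _ = P.card * ((K + 2).factorial * (a + 1).choose (K + 2) * (a - 1).factorial) := by ring
    _ ≤ _ := Nat.mul_le_mul_left _ c3

open Classical in
theorem card_nonideal (a K : ℕ) :
    ((Om (a + K + 3) [a]).filter (fun w => ¬ Ideal a w)).card ≤
      K * (K + 2) * (a + K).factorial := by
  rcases (Om (a + K + 3) [a]).eq_empty_or_nonempty with e | ⟨w0, hw0⟩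
  · simp [e]
  have l0 : w0.length = a + K + 1 := by
    have := (cl_facts (mem_Om.1 hw0)).2.2.2.2.1
    simp at this; omega
  refine le_trans (card_le_card (t := (range K ×ˢ range (K + 2)).biUnion (fun q =>
    (Om (a + K + 3) [a]).filter (fun w => w[a + 1 + q.1]? = some (a + 1 + q.2)))) ?_) ?_
  · intro w hw
    obtain ⟨h1, h2⟩ := mem_filter.1 hw
    simp only [Ideal, not_forall] at h2
    obtain ⟨x, hx, h3⟩ := h2
    obtain ⟨i, hi, e⟩ := List.getElem_of_mem hx
    have l1 := (cl_facts (mem_Om.1 h1)).2.2.2.2.1
    have l2 : x < a + K + 3 := List.mem_range.1 ((mem_Om.1 h1).subset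
      (List.mem_append_left _ (List.mem_of_mem_drop hx)))
    simp only [List.length_drop, List.length_cons, List.length_nil] at hi l1
    refine mem_biUnion.2 ⟨(i, x - (a + 1)), mem_product.2
      ⟨mem_range.2 (by simp only; omega), mem_range.2 (by simp only; omega)⟩,
      mem_filter.2 ⟨h1, ?_⟩⟩
    rw [← List.getElem?_drop, show a + 1 + (x - (a + 1)) = x by omega]
    exact List.getElem?_eq_some_iff.2 ⟨_, e⟩
  · refine le_trans (card_biUnion_le_card_mul _ _ (a + K).factorial (fun q _ => ?_)) (by simp)
    have := card_at (S := (Om (a + K + 3) [a]).filter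
      (fun w => w[a + 1 + q.1]? = some (a + 1 + q.2))) (L := w0)
      (fun w hw => cl_perm (mem_Om.1 (mem_filter.1 hw).1) (mem_Om.1 hw0))
      (fun w hw => (mem_filter.1 hw).2)
    rwa [l0] at this

open Classical in
/-- the successful words above the tail `0 :: A` -/
noncomputable def SA (n : ℕ) (A : List ℕ) : Finset (List ℕ) :=
  (Om n A).filter (fun w => Succ n (w ++ 0 :: A))

theorem one_bounds (d K : ℕ) :
    |((SA (2 + d + K + 3) [2 + d]).card : ℝ) / (2 + d + K + 1).factorial -
      (Gp K).card / (K + 2).factorial| ≤ K * (K + 2) / (2 + d + K + 1 : ℕ) := by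
  classical
  set a := 2 + d with ha
  have e1 := card_Om_one (n := a + K + 3) (a := a) (by omega) (by omega)
  rw [show a + K + 3 - 2 = a + K + 1 by omega] at e1
  have e2 := card_filter_add_card_filter_not (s := Om (a + K + 3) [a])
    (fun w => Succ (a + K + 3) (w ++ [0, a]))
  have e3 := card_filter_add_card_filter_not (s := (List.range' 1 (K + 2)).permutations.toFinset)
    (fun p => Succ (2 + K + K + 3) ((p.map (· + (2 + K)) ++ List.range' 1 (K + 1)) ++ [0, 2 + K]))
  rw [List.toFinset_card_of_nodup (List.nodup_permutations _ (List.nodup_range' ..)),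
    List.length_permutations, List.length_range'] at e3
  have n1 := card_nonideal a K
  have split : ∀ (p : List ℕ → Prop) [DecidablePred p], ((Om (a + K + 3) [a]).filter p).card ≤
      (((Om (a + K + 3) [a]).filter p).filter (Ideal a)).card +
        K * (K + 2) * (a + K).factorial := fun p _ => by
    rw [← card_filter_add_card_filter_not (s := (Om (a + K + 3) [a]).filter p) (Ideal a)]
    exact Nat.add_le_add_left (le_trans (card_le_card (fun w hw => mem_filter.2
      ⟨(mem_filter.1 (mem_filter.1 hw).1).1, (mem_filter.1 hw).2⟩)) n1) _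
  have u1 := card_ideal (a := a) (K := K) (by omega) (P := Gp K)
    (S := ((Om (a + K + 3) [a]).filter (fun w => Succ (a + K + 3) (w ++ [0, a]))).filter (Ideal a))
    (fun w hw => mem_Om.1 (mem_filter.1 (mem_filter.1 hw).1).1) (fun w hw => (mem_filter.1 hw).2)
    (fun w hw => by
      obtain ⟨h1, h2⟩ := mem_filter.1 hw
      obtain ⟨h3, h4⟩ := mem_filter.1 h1
      have p := (ideal_facts (mem_Om.1 h3) h2).2
      obtain ⟨r1, r2, r3⟩ := ref_word p
      exact mem_filter.2 ⟨List.mem_toFinset.2 (List.mem_permutations.2 p),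
        same_succ (mem_Om.1 h3) h2 r1 r2 r3.symm h4⟩)
  have u2 := card_ideal (a := a) (K := K) (by omega)
    (P := (List.range' 1 (K + 2)).permutations.toFinset.filter (fun p => ¬
      Succ (2 + K + K + 3) ((p.map (· + (2 + K)) ++ List.range' 1 (K + 1)) ++ [0, 2 + K])))
    (S := ((Om (a + K + 3) [a]).filter
      (fun w => ¬ Succ (a + K + 3) (w ++ [0, a]))).filter (Ideal a))
    (fun w hw => mem_Om.1 (mem_filter.1 (mem_filter.1 hw).1).1) (fun w hw => (mem_filter.1 hw).2)
    (fun w hw => by
      obtain ⟨h1, h2⟩ := mem_filter.1 hw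
      obtain ⟨h3, h4⟩ := mem_filter.1 h1
      have p := (ideal_facts (mem_Om.1 h3) h2).2
      obtain ⟨r1, r2, r3⟩ := ref_word p
      exact mem_filter.2 ⟨List.mem_toFinset.2 (List.mem_permutations.2 p),
        fun q => h4 (same_succ r1 r2 (mem_Om.1 h3) h2 r3 q)⟩)
  have s1 := split (fun w => Succ (a + K + 3) (w ++ [0, a]))
  have s2 := split (fun w => ¬ Succ (a + K + 3) (w ++ [0, a]))
  rw [e1] at e2
  have eS : (SA (a + K + 3) [a]).card = ((Om (a + K + 3) [a]).filter
    (fun w => Succ (a + K + 3) (w ++ [0, a]))).card := rfl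
  have eG : (Gp K).card = ((List.range' 1 (K + 2)).permutations.toFinset.filter (fun p =>
    Succ (2 + K + K + 3) ((p.map (· + (2 + K)) ++ List.range' 1 (K + 1)) ++ [0, 2 + K]))).card := rfl
  rw [← eS] at e2 s1
  rw [← eG] at e3
  have v1 := Nat.mul_le_mul_left (K + 2).factorial s1
  have v2 := Nat.mul_le_mul_left (K + 2).factorial s2
  rw [mul_add] at v1 v2
  have v3 := v1.trans (Nat.add_le_add_right u1 _)
  have v4 := v2.trans (Nat.add_le_add_right u2 _)
  have f1 : ((a + K + 1).factorial : ℝ) = (a + K + 1 : ℕ) * (a + K).factorial := by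
    rw [Nat.factorial_succ]; push_cast; ring
  have f2 : (0 : ℝ) < (a + K).factorial := by positivity
  have f3 : (0 : ℝ) < (K + 2).factorial := by positivity
  have f4 : (0 : ℝ) < (a + K + 1 : ℕ) := by positivity
  have r2 := congrArg (Nat.cast : ℕ → ℝ) e2
  have r3 := congrArg (Nat.cast : ℕ → ℝ) e3
  have r4 := (Nat.cast_le (α := ℝ)).2 v3
  have r5 := (Nat.cast_le (α := ℝ)).2 v4
  simp only [Nat.cast_add, Nat.cast_mul, Nat.cast_ofNat] at r2 r3 r4 r5
  rw [eq_sub_of_add_eq' r2, eq_sub_of_add_eq' r3] at r5
  have f5 : (0 : ℝ) < (a + K + 1).factorial * (K + 2).factorial := by positivity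
  rw [div_sub_div _ _ (by positivity) f3.ne', abs_div, abs_of_pos f5, div_le_div_iff₀ f5 f4]
  have : |((SA (a + K + 3) [a]).card : ℝ) * (K + 2).factorial -
      (a + K + 1).factorial * (Gp K).card| ≤
      (K + 2).factorial * (K * (K + 2) * (a + K).factorial) := by
    rw [abs_le]
    constructor <;> linarith
  refine (mul_le_mul_of_nonneg_right this f4.le).trans (le_of_eq ?_)
  rw [f1]
  ring

end Pool.Agent.P.MP_79f629_co.Second
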