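import Pool.Agent.P.MP_79f629_co.SKey

set_option autoImplicit false

/-! Counting failing slots on two consecutive levels. -/

namespace Pool.Agent.P.MP_79f629_co.Second

open Pool.Agent.P.MP_79f629_co Finset

def Nev (k : ℕ) (s : St) : Prop := ∀ M, 0 ∈ ((AA k)^[M] s).2

def Bad (k : ℕ) (s : St) : Prop := Bad1 k s ∨ Nev k s

theorem not_bad {k n : ℕ} (hk : 2 ≤ k) (hkn : k < n) {l : List ℕ} (hl : l.Perm (List.range n))
    (h : Succ n l) : ¬ Bad k (al k l) := by
  obtain ⟨N, hN⟩ := h
  rintro (⟨M, O, W, e, h0, h1⟩ | h)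
  · exact fail_of_orbit hk hkn h0 h1 N l M hl hN e
  · obtain ⟨M, hM⟩ := orbit_of_succ hk hkn N l hl hN
    have h0 := h M
    rw [hM] at h0
    have := (al_range (k := k) hkn).2 0 h0
    omega

theorem exists_bad {k : ℕ} (hk : 2 ≤ k) {O W : List ℕ} (hO : ∀ x ∈ O, k < x) (hW : k ∉ W)
    (hp : Pre W) : (∀ i, Nev k (ins i k O, W)) ∨ ∃ i, i ≤ O.length ∧ Bad1 k (ins i k O, W) := by
  have hf : Free k (O, W) := ⟨fun h => lt_irrefl _ (hO k h), hW⟩
  by_cases h : ∃ t, 0 ∉ ((AA k)^[t] (O, W)).2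
  · obtain ⟨t, ht⟩ := h
    obtain ⟨T, h1, h2, h3⟩ := exists_time hk t (O, W) (fun x hx => (hO x hx).le) (Or.inl hp) ht
    obtain ⟨i, hi, M, hM⟩ := exists_slot hf T h1 T le_rfl
    exact Or.inr ⟨i, hi, M, _, _, hM, h2, h3⟩
  · left
    intro i M
    obtain ⟨t, ht⟩ := proj_orbit (k := k) M (ins i k O, W) hW
    have e : (ins i k O).filter (· ≠ k) = O := by
      have q : ∀ L : List ℕ, (∀ x ∈ L, k < x) → L.filter (· ≠ k) = L := fun L hL =>
        List.filter_eq_self.2 (fun a ha => by have := hL a ha; simp; omega)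
      unfold ins
      rw [List.filter_append, List.filter_cons, q _ (fun x hx => hO x (List.mem_of_mem_take hx)),
        q _ (fun x hx => hO x (List.mem_of_mem_drop hx))]
      simp
    rw [← ht]
    simp only [e]
    by_contra q
    exact h ⟨t, q⟩

open Classical in
/-- number of failing slots -/
noncomputable def FF (k : ℕ) (O W : List ℕ) : ℕ :=
  ((range (O.length + 1)).filter (fun i => Bad k (ins i k O, W))).card

theorem one_le_FF {k : ℕ} (hk : 2 ≤ k) {O W : List ℕ} (hO : ∀ x ∈ O, k < x) (hW : k ∉ W)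
    (hp : Pre W) : 1 ≤ FF k O W := by
  classical
  apply card_pos.2
  rcases exists_bad hk hO hW hp with h | ⟨i, hi, h⟩
  · exact ⟨0, mem_filter.2 ⟨by simp, Or.inr (h 0)⟩⟩
  · exact ⟨i, mem_filter.2 ⟨mem_range.2 (by omega), Or.inl h⟩⟩

theorem Pre.one {W : List ℕ} (h : Pre W) : Pre (1 :: W) := by
  obtain ⟨Wa, Wb, rfl, h1, h2, h3⟩ := h
  exact ⟨1 :: Wa, Wb, rfl, by simpa using h1, h2, h3⟩

open Classical in
theorem two_level {c : ℕ} (hc : 2 ≤ c) {O W : List ℕ} (hI : Inv (c + 1) O W) (hp : Pre W)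
    (hr : 1 ≤ O.length) :
    3 * O.length + 2 ≤ FF (c + 1) O W * (O.length + 2) +
      ∑ i ∈ (range (O.length + 1)).filter (fun i => ¬ Bad (c + 1) (ins i (c + 1) O, W)),
        FF c (ins i (c + 1) O) (1 :: W) := by
  have hW : c + 1 ∉ W := fun e => by have := hI.2.1 _ e; omega
  have hW' : c ∉ 1 :: W := fun e => by
    rcases List.mem_cons.1 e with e | e
    · omega
    · have := hI.2.1 _ e; omega
  have hQ : ∀ i, ∀ x ∈ ins i (c + 1) O, c < x := fun i x hx => by
    rcases mem_ins'.1 hx with e | e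
    · omega
    · have := hI.1 x e; omega
  have h1 : ∀ i, 1 ≤ FF c (ins i (c + 1) O) (1 :: W) := fun i =>
    one_le_FF hc (hQ i) hW' (Pre.one hp)
  have hF := one_le_FF (k := c + 1) (by omega) hI.1 hW hp
  have hsum : FF (c + 1) O W + ((range (O.length + 1)).filter
      (fun i => ¬ Bad (c + 1) (ins i (c + 1) O, W))).card = O.length + 1 := by
    unfold FF
    rw [card_filter_add_card_filter_not, card_range]
  by_cases h2 : 2 ≤ FF (c + 1) O W
  · have := card_nsmul_le_sum ((range (O.length + 1)).filter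
      (fun i => ¬ Bad (c + 1) (ins i (c + 1) O, W))) _ 1 (fun i _ => h1 i)
    simp only [smul_eq_mul, mul_one] at this
    nlinarith
  have hF1 : FF (c + 1) O W = 1 := by omega
  have uniq : ∀ i j, i ≤ O.length → j ≤ O.length → Bad (c + 1) (ins i (c + 1) O, W) →
      Bad (c + 1) (ins j (c + 1) O, W) → i = j := fun i j hi hj bi bj =>
    card_le_one.1 hF1.le i (mem_filter.2 ⟨mem_range.2 (by omega), bi⟩) j
      (mem_filter.2 ⟨mem_range.2 (by omega), bj⟩)
  rcases exists_bad (k := c + 1) (by omega) hI.1 hW hp with h | ⟨j, hj, h⟩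
  · have := uniq 0 1 (by omega) hr (Or.inr (h 0)) (Or.inr (h 1))
    omega
  have e0 : ins 0 (c + 1) O = (c + 1) :: O := rfl
  have e1 : ins O.length (c + 1) O = O ++ [c + 1] := by simp [ins]
  have j0 : j ≠ 0 := by
    rintro rfl
    have q := h.fwd (Or.inl hI.zero_mem)
    rw [e0, AA_self, ← e1] at q
    have := uniq 0 _ (by omega) le_rfl (Or.inl h) (Or.inl q)
    omega
  have j1 : j ≠ O.length := by
    rintro rfl
    have q : Bad1 (c + 1) (ins 0 (c + 1) O, W) := by
      apply Bad1.back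
      rw [e0, AA_self, ← e1]
      exact h
    have := uniq 0 _ (by omega) le_rfl (Or.inl q) (Or.inl h)
    omega
  obtain ⟨j, rfl⟩ : ∃ i, j = i + 1 := ⟨j - 1, by omega⟩
  obtain ⟨P, u, v, X, rfl, rfl⟩ : ∃ P u v X, O = P ++ u :: v :: X ∧ j = P.length := by
    refine ⟨O.take j, O[j]'(by omega), O[j + 1]'(by omega), O.drop (j + 2), ?_, by simp; omega⟩
    rw [← List.drop_eq_getElem_cons (by omega), ← List.drop_eq_getElem_cons (by omega),
      List.take_append_drop]
  have eA : ins P.length (c + 1) (P ++ u :: v :: X) = P ++ (c + 1) :: u :: v :: X := ins_at _ _ _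
  have eC : ins (P.length + 1) (c + 1) (P ++ u :: v :: X) = P ++ u :: (c + 1) :: v :: X := by
    have := ins_at (c + 1) (P ++ [u]) (v :: X)
    simpa using this
  have eB : ins (P.length + 2) (c + 1) (P ++ u :: v :: X) = P ++ u :: v :: (c + 1) :: X := by
    have := ins_at (c + 1) (P ++ [u, v]) X
    simpa using this
  have hl : (P ++ u :: v :: X).length = P.length + X.length + 2 := by simp; omega
  have nA : ¬ Bad (c + 1) (ins P.length (c + 1) (P ++ u :: v :: X), W) := fun q => by
    have := uniq _ _ (by omega) hj q (Or.inl h)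
    omega
  have nB : ¬ Bad (c + 1) (ins (P.length + 2) (c + 1) (P ++ u :: v :: X), W) := fun q => by
    have := uniq _ _ (by omega) hj q (Or.inl h)
    omega
  obtain ⟨M, hM⟩ := h
  have cov := key hc M P u v X W hI (eC ▸ hM) (fun q => nA (Or.inl (eA ▸ q)))
    (fun q => nB (Or.inl (eB ▸ q)))
  rw [← eA, ← eB] at cov
  generalize P ++ u :: v :: X = O at *
  have hcov : O.length + 2 ≤ FF c (ins P.length (c + 1) O) (1 :: W) +
      FF c (ins (P.length + 2) (c + 1) O) (1 :: W) := by
    unfold FF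
    refine le_trans ?_ (card_union_le _ _)
    rw [← card_range (O.length + 2)]
    apply card_le_card
    intro y hy
    have u1 : ∀ Q : List ℕ, up c (Q, 1 :: W) = (Q, W) := fun Q => by
      simp only [up, List.take_succ_cons, List.take_zero, List.drop_succ_cons, List.drop_zero]
      rw [filt_small (by omega), List.append_nil]
    have gd : ∀ i, Gd c (ins i (c + 1) O, 1 :: W) := fun i =>
      ⟨⟨fun e => lt_irrefl _ (hQ i c e), hW'⟩, fun x hx => (hQ i x hx).le⟩
    rw [mem_union, mem_filter, mem_filter, length_ins, length_ins]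
    rcases cov _ _ y (gd _) (gd _) (u1 _) (u1 _) (by simp [length_ins])
      (by simp only [length_ins]; have := mem_range.1 hy; omega) with q | q
    · exact Or.inl ⟨hy, Or.inl q⟩
    · exact Or.inr ⟨hy, Or.inl q⟩
  set S := (range (O.length + 1)).filter (fun i => ¬ Bad (c + 1) (ins i (c + 1) O, W)) with hS
  have m1 : P.length ∈ S := mem_filter.2 ⟨mem_range.2 (by omega), nA⟩
  have m2 : P.length + 2 ∈ S.erase P.length :=
    mem_erase.2 ⟨by omega, mem_filter.2 ⟨mem_range.2 (by omega), nB⟩⟩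
  rw [← add_sum_erase _ _ m1, ← add_sum_erase _ _ m2]
  have := card_nsmul_le_sum ((S.erase P.length).erase (P.length + 2)) _ 1 (fun i _ => h1 i)
  rw [card_erase_of_mem m2, card_erase_of_mem m1] at this
  simp only [smul_eq_mul, mul_one] at this
  rw [hF1] at hsum ⊢
  omega

end Pool.Agent.P.MP_79f629_co.Second
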