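import Pool.Agent.P.MP_79f629_co.SSlot

set_option autoImplicit false

/-! Weights of projected states. -/

namespace Pool.Agent.P.MP_79f629_co.Second

open Pool.Agent.P.MP_79f629_co Finset

def UW (g : St → ℕ) (s : St) : ℕ := g (s.1, 1 :: s.2) + g (s.1.dropLast, s.1.getLastD 0 :: s.2)

open Classical in
noncomputable def TW (k : ℕ) (p : St → Prop) (g : St → ℕ) (D : St) : ℕ :=
  ∑ i ∈ (range (D.1.length + 1)).filter (fun i => p (ins i k D.1, D.2)), UW g (ins i k D.1, D.2) +
    ∑ i ∈ (range D.2.length).filter (fun i => D.2[i]? = some 1), UW g (D.1, D.2.set i k)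

def wt (c : ℕ) (D : St) : ℕ := (c + 1).choose D.1.length

def Wf (k a : ℕ) (D : St) : Prop := (∀ x ∈ D.1, k < x) ∧ (∀ x ∈ D.2, x = 1 ∨ k < x) ∧
  D.1.length = D.2.count 1 + 1 + a

theorem card_idx (x : ℕ) : ∀ V : List ℕ,
    ((range V.length).filter (fun i => V[i]? = some x)).card = V.count x := by
  intro V
  induction V with
  | nil => simp
  | cons y V ih =>
    rw [List.count_cons, ← ih, card_filter, card_filter, List.length_cons, sum_range_succ']
    simp

theorem UW_wt (c : ℕ) {s : St} (h : 1 ≤ s.1.length) : UW (wt c) s = (c + 2).choose s.1.length := by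
  obtain ⟨m, hm⟩ : ∃ m, s.1.length = m + 1 := ⟨s.1.length - 1, by omega⟩
  simp only [UW, wt, List.length_dropLast, hm, Nat.add_sub_cancel]
  rw [Nat.choose_succ_succ' (c + 1) m, add_comm]

open Classical in
theorem TW_wt {c a : ℕ} (p : St → Prop) {D : St} (h : Wf (c + 1) a D) :
    TW (c + 1) p (wt c) D + ((range (D.1.length + 1)).filter
      (fun i => ¬ p (ins i (c + 1) D.1, D.2))).card * (c + 2).choose (D.1.length + 1) =
      (c + 1 - a) * wt (c + 1) D := by
  have h3 := h.2.2
  unfold TW
  rw [sum_congr rfl (fun i _ => UW_wt c (s := (ins i (c + 1) D.1, D.2))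
      (by simp [length_ins])),
    sum_congr rfl (fun i _ => UW_wt c (s := (D.1, D.2.set i (c + 1))) (by simp only; omega))]
  simp only [length_ins, sum_const, smul_eq_mul, card_idx, wt]
  have e := card_filter_add_card_filter_not (s := range (D.1.length + 1))
    (fun i => p (ins i (c + 1) D.1, D.2))
  rw [card_range] at e
  have e2 := Nat.choose_succ_right_eq (c + 2) D.1.length
  show _ = _ * (c + 2).choose D.1.length
  generalize ((range (D.1.length + 1)).filter (fun i => p (ins i (c + 1) D.1, D.2))).card = x at e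
  generalize ((range (D.1.length + 1)).filter
    (fun i => ¬ p (ins i (c + 1) D.1, D.2))).card = y at e
  by_cases q : D.1.length ≤ c + 2
  · have e3 : c + 1 - a = (c + 2 - D.1.length) + D.2.count 1 := by omega
    rw [e3]
    have : (x + y) * (c + 2).choose (D.1.length + 1) =
        (c + 2).choose D.1.length * (c + 2 - D.1.length) := by rw [e, mul_comm, e2]
    nlinarith
  · rw [Nat.choose_eq_zero_of_lt (by omega), Nat.choose_eq_zero_of_lt (by omega)]
    simp

theorem TW_le {c a : ℕ} (p : St → Prop) {D : St} (h : Wf (c + 1) a D) :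
    TW (c + 1) p (wt c) D ≤ (c + 1 - a) * wt (c + 1) D := by
  rw [← TW_wt p h]; omega

theorem wf_child {c a : ℕ} (hc : 1 ≤ c) {Q V : List ℕ} (h1 : ∀ x ∈ Q, c < x)
    (h2 : ∀ x ∈ V, x = 1 ∨ c < x) (h3 : Q.length = V.count 1 + 2 + a) :
    Wf c a (Q, 1 :: V) ∧ Wf c a (Q.dropLast, Q.getLastD 0 :: V) := by
  have hl : c < Q.getLastD 0 := by
    cases Q with
    | nil => simp at h3; omega
    | cons z Q =>
      rw [List.getLastD_eq_getLast?, List.getLast?_eq_some_getLast (by simp)]
      exact h1 _ (List.getLast_mem _)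
  refine ⟨⟨h1, ?_, ?_⟩, fun x hx => h1 x (List.mem_of_mem_dropLast hx), ?_, ?_⟩
  · intro x hx
    rcases List.mem_cons.1 hx with e | e
    · exact Or.inl e
    · exact h2 x e
  · simp only [List.count_cons_self]; omega
  · intro x hx
    rcases List.mem_cons.1 hx with e | e
    · exact Or.inr (e ▸ hl)
    · exact h2 x e
  · simp only [List.length_dropLast]
    rw [List.count_cons_of_ne (by omega)]
    omega

theorem count_set {V : List ℕ} {i k : ℕ} (hk : k ≠ 1) (h : V[i]? = some 1) :
    (V.set i k).count 1 + 1 = V.count 1 := by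
  obtain ⟨h1, h2⟩ := List.getElem?_eq_some_iff.1 h
  rw [List.set_eq_take_append_cons_drop, if_pos h1]
  conv_rhs => rw [← List.take_append_drop i V, List.drop_eq_getElem_cons h1, h2]
  simp only [List.count_append, List.count_cons_self]
  rw [List.count_cons_of_ne hk]
  omega

/-- the slots that do not fail, with the tail `0 :: T` -/
def ok (k : ℕ) (T : List ℕ) (s : St) : Prop := ¬ Bad k (s.1, s.2 ++ 0 :: T)

theorem TW_ok {c a : ℕ} (T : List ℕ) {D : St} (h : Wf (c + 1) a D) :
    TW (c + 1) (ok (c + 1) T) (wt c) D +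
      FF (c + 1) D.1 (D.2 ++ 0 :: T) * (c + 2).choose (D.1.length + 1) =
      (c + 1 - a) * wt (c + 1) D := by
  rw [← TW_wt (ok (c + 1) T) h]
  unfold FF
  congr 3
  ext i
  simp [ok]

theorem TW_two {d a : ℕ} (hd : 1 ≤ d) (ha : 1 ≤ a) {T : List ℕ} (t1 : ∀ x ∈ T, x = 1 ∨ d + 2 < x)
    (t2 : T.count 1 = a) {D : St} (h : Wf (d + 2) a D) :
    TW (d + 2) (ok (d + 2) T) (TW (d + 1) (ok (d + 1) T) (wt d)) D +
      (3 * D.1.length + 2) * (d + 2).choose (D.1.length + 2) ≤
      (d + 1 - a) * ((d + 2 - a) * wt (d + 2) D) := by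
  classical
  obtain ⟨O, V⟩ := D
  obtain ⟨h1, h2, h3⟩ := h
  simp only at h1 h2 h3 ⊢
  have n0 : 0 ∉ V := fun e => by have := h2 0 e; omega
  have n1 : 0 ∉ T := fun e => by have := t1 0 e; omega
  have cp : ∀ L : List ℕ, (∀ x ∈ L, x = 1 ∨ d + 2 < x) → L.countP (· < 2) = L.count 1 := by
    intro L hL
    rw [List.count_eq_countP]
    apply List.countP_congr
    intro x hx
    have := hL x hx
    simp; omega
  have hI : Inv (d + 1 + 1) O (V ++ 0 :: T) := by
    refine ⟨h1, ?_, ?_, ?_⟩
    · intro x hx
      simp only [List.mem_append, List.mem_cons] at hx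
      rcases hx with e | e | e
      · have := h2 x e; omega
      · omega
      · have := t1 x e; omega
    · rw [List.count_append, List.count_cons_self, List.count_eq_zero.2 n0,
        List.count_eq_zero.2 n1]
    · rw [List.countP_append, List.countP_cons, cp V h2, cp T t1]
      simp; omega
  have hp : Pre (V ++ 0 :: T) := ⟨V, T, rfl, n0, n1, List.count_pos_iff.1 (by omega)⟩
  have k1 := two_level (c := d + 1) (by omega) hI hp (by omega)
  have k2 := TW_ok (c := d + 1) T (D := (O, V)) ⟨h1, h2, h3⟩
  have k3 : TW (d + 2) (ok (d + 2) T) (TW (d + 1) (ok (d + 1) T) (wt d)) (O, V) +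
      (∑ i ∈ (range (O.length + 1)).filter (fun i => ¬ Bad (d + 1 + 1)
        (ins i (d + 1 + 1) O, V ++ 0 :: T)), FF (d + 1) (ins i (d + 1 + 1) O) (1 :: (V ++ 0 :: T))) *
        (d + 2).choose (O.length + 2) ≤
      (d + 1 - a) * TW (d + 2) (ok (d + 2) T) (wt (d + 1)) (O, V) := by
    generalize hg : TW (d + 1) (ok (d + 1) T) (wt d) = g2
    unfold TW
    rw [mul_add, mul_sum, mul_sum, sum_mul, add_right_comm]
    apply add_le_add
    · have e : (range (O.length + 1)).filter (fun i => ¬ Bad (d + 1 + 1)
          (ins i (d + 1 + 1) O, V ++ 0 :: T)) =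
          (range (O.length + 1)).filter (fun i => ok (d + 2) T (ins i (d + 2) O, V)) := by
        ext i; simp [ok]
      rw [e, ← sum_add_distrib]
      apply sum_le_sum
      intro i _
      obtain ⟨w1, w2⟩ := wf_child (c := d + 1) (a := a) (by omega) (Q := ins i (d + 2) O) (V := V)
        (fun x hx => by
          rcases mem_ins'.1 hx with e | e
          · omega
          · have := h1 x e; omega)
        (fun x hx => by have := h2 x hx; omega) (by rw [length_ins]; omega)
      have g1 := TW_ok T w1
      have g2 := TW_le (ok (d + 1) T) w2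
      simp only [length_ins, List.cons_append] at g1
      rw [hg] at g1 g2
      simp only [UW, mul_add]
      show _ + FF (d + 1) (ins i (d + 2) O) (1 :: (V ++ 0 :: T)) *
        (d + 2).choose (O.length + 1 + 1) ≤ _
      omega
    · apply sum_le_sum
      intro i hi
      have hi' : V[i]? = some 1 := (mem_filter.1 hi).2
      obtain ⟨w1, w2⟩ := wf_child (c := d + 1) (a := a) (by omega) (Q := O) (V := V.set i (d + 2))
        (fun x hx => by have := h1 x hx; omega)
        (fun x hx => by
          rcases List.mem_or_eq_of_mem_set hx with e | e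
          · have := h2 x e; omega
          · omega) (by have := count_set (k := d + 2) (by omega) hi'; omega)
      have g1 := TW_le (ok (d + 1) T) w1
      have g2 := TW_le (ok (d + 1) T) w2
      rw [hg] at g1 g2
      simp only [UW, mul_add]
      omega
  have k4 : (O.length + 2) * (d + 2).choose (O.length + 2) ≤
      (d + 1 - a) * (d + 1 + 2).choose (O.length + 1) := by
    rw [mul_comm, Nat.choose_succ_right_eq, mul_comm]
    exact Nat.mul_le_mul (by omega) (Nat.choose_le_choose _ (by omega))
  simp only at k2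
  rw [← k2, mul_add]
  have k5 := Nat.mul_le_mul_right ((d + 2).choose (O.length + 2)) k1
  have k6 := Nat.mul_le_mul_left (FF (d + 1 + 1) O (V ++ 0 :: T)) k4
  nlinarith

end Pool.Agent.P.MP_79f629_co.Second
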