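import Mathlib
import Pool.Agent.P.MP_79f629_co.Main

set_option autoImplicit false

open Filter Topology Pool.Agent.P.MP_79f629_co

namespace Pool.Agent.P.MP_79f629_co.VariantMcKinley

theorem result : Tendsto (fun n : ℕ => (n : ℝ) *
    ((Nat.card {π : Equiv.Perm (Fin n) // (SimpleGraph.fromRel Bump).Reachable 1 π} : ℝ) /
      (n.factorial : ℝ))) atTop (𝓝 1) :=
  Pool.Agent.P.MP_79f629_co.main

end Pool.Agent.P.MP_79f629_co.VariantMcKinley
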